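import Pool.Agent.MP_678834_nt.PW.Spec

/-! Project PW, module EXPB: the zeta sums from Korobov's double sums. -/

set_option autoImplicit false

noncomputable section

namespace Pool.Agent.MP_678834_nt.PW

open Finset
open Pool.Agent.MP_db1c88_nt.z94 (ei DP)

namespace EXPB

theorem norm_ei (x : ℝ) : ‖ei x‖ = 1 := Complex.norm_exp_ofReal_mul_I x

theorem ei_add (x y : ℝ) : ei (x + y) = ei x * ei y := by
  simp only [ei, ← Complex.exp_add]
  congr 1
  push_cast
  ring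

theorem norm_ei_sub (a b : ℝ) : ‖ei a - ei b‖ ≤ |a - b| := by
  have e : ei a - ei b = ei b * (Complex.exp (Complex.I * ((a - b : ℝ) : ℂ)) - 1) := by
    rw [mul_sub, mul_one, mul_comm Complex.I]
    congr 1
    rw [show a = b + (a - b) by ring, ei_add, add_sub_cancel_left]
    rfl
  rw [e, norm_mul, norm_ei, one_mul]
  exact Real.norm_exp_I_mul_ofReal_sub_one_le

theorem tele (h : ℕ → ℂ) {N M : ℕ} (hNM : N ≤ M) :
    ∑ n ∈ Ioc N M, h (n + 1) - ∑ n ∈ Ioc N M, h n = h (M + 1) - h (N + 1) := by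
  induction M, hNM using Nat.le_induction with
  | base => simp
  | succ M hM ih =>
    rw [sum_Ioc_succ_top hM, sum_Ioc_succ_top hM]
    linear_combination ih

theorem shift (g : ℕ → ℂ) (hg : ∀ n, ‖g n‖ ≤ 1) {N M : ℕ} (hNM : N ≤ M) (d : ℕ) :
    ‖∑ n ∈ Ioc N M, g n - ∑ n ∈ Ioc N M, g (n + d)‖ ≤ 2 * d := by
  induction d with
  | zero => simp
  | succ d ih =>
    have h1 := tele (fun n => g (n + d)) hNM
    have e : ∑ n ∈ Ioc N M, g n - ∑ n ∈ Ioc N M, g (n + (d + 1)) =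
        (∑ n ∈ Ioc N M, g n - ∑ n ∈ Ioc N M, g (n + d)) - (g (M + 1 + d) - g (N + 1 + d)) := by
      rw [← h1]
      simp only [add_assoc, add_comm 1 d]
      ring
    rw [e]
    have h2 := norm_sub_le (g (M + 1 + d)) (g (N + 1 + d))
    have h3 := hg (M + 1 + d)
    have h4 := hg (N + 1 + d)
    refine (norm_sub_le _ _).trans ?_
    push_cast
    linarith

theorem aver (g : ℕ → ℂ) (hg : ∀ n, ‖g n‖ ≤ 1) {N M : ℕ} (hNM : N ≤ M) (P : ℕ) :
    (P : ℝ) ^ 2 * ‖∑ n ∈ Ioc N M, g n‖ ≤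
      ∑ n ∈ Ioc N M, ‖∑ x ∈ range P, ∑ y ∈ range P, g (n + x * y)‖ + 2 * (P : ℝ) ^ 4 := by
  have e : ((P : ℂ) ^ 2) * ∑ n ∈ Ioc N M, g n =
      ∑ n ∈ Ioc N M, ∑ x ∈ range P, ∑ y ∈ range P, g (n + x * y) +
        ∑ x ∈ range P, ∑ y ∈ range P,
          (∑ n ∈ Ioc N M, g n - ∑ n ∈ Ioc N M, g (n + x * y)) := by
    rw [sum_comm]
    simp only [sum_sub_distrib, sum_const, card_range, nsmul_eq_mul]
    rw [sum_congr rfl fun x _ => sum_comm (s := Ioc N M)]
    ring
  have h1 := congrArg norm e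
  rw [norm_mul, norm_pow, Complex.norm_natCast] at h1
  rw [h1]
  refine (norm_add_le _ _).trans (add_le_add (norm_sum_le _ _) ?_)
  refine (norm_sum_le _ _).trans ((sum_le_card_nsmul _ _ (P * (2 * (P : ℝ) ^ 2)) fun x hx => ?_).trans
    (le_of_eq ?_))
  · refine (norm_sum_le _ _).trans ((sum_le_card_nsmul _ _ (2 * (P : ℝ) ^ 2) fun y hy => ?_).trans
      (le_of_eq ?_))
    · refine (shift g hg hNM _).trans ?_
      have a1 : (x : ℝ) ≤ P := by exact_mod_cast (mem_range.mp hx).le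
      have a2 : (y : ℝ) ≤ P := by exact_mod_cast (mem_range.mp hy).le
      push_cast
      rw [sq]
      gcongr
    · simp
  · simp only [card_range, nsmul_eq_mul]
    ring

/-- the Taylor coefficients -/
def al (r : ℕ) (t m : ℝ) (j : Fin r) : ℝ := -t * (-1 / m) ^ (j.val + 1) / (j.val + 1)

theorem abs_al (r : ℕ) (t : ℝ) {m : ℝ} (hm : 0 < m) (j : Fin r) :
    |al r t m j| = |t| / (m ^ (j.val + 1) * (j.val + 1)) := by
  rw [al, abs_div, abs_mul, abs_neg, abs_pow, abs_div, abs_neg, abs_one, abs_of_pos hm,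
    abs_of_pos (by positivity : (0 : ℝ) < j.val + 1), one_div, inv_pow]
  field_simp

theorem taylor (r : ℕ) (t : ℝ) {m d w : ℝ} (hm : 0 < m) (hd : 0 ≤ d) (hw : d / m ≤ w)
    (hw2 : w ≤ 1 / 2) :
    ‖ei (t * Real.log (m + d)) - ei (t * Real.log m) * ei (∑ j, al r t m j * d ^ (j.val + 1))‖ ≤
      2 * (|t| * w ^ (r + 1)) := by
  have h0 : 0 ≤ d / m := by positivity
  have h1 := Real.abs_log_sub_add_sum_range_le (x := -(d / m))
    (by rw [abs_neg, abs_of_nonneg h0]; linarith) r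
  rw [abs_neg, abs_of_nonneg h0, sub_neg_eq_add] at h1
  rw [← ei_add]
  refine (norm_ei_sub _ _).trans ?_
  have e1 : Real.log (m + d) = Real.log m + Real.log (1 + d / m) := by
    rw [← Real.log_mul hm.ne' (by positivity)]
    congr 1
    field_simp
  have e2 : ∑ j, al r t m j * d ^ (j.val + 1) =
      -t * ∑ i ∈ range r, (-(d / m)) ^ (i + 1) / (i + 1) := by
    rw [← Fin.sum_univ_eq_sum_range (fun i => (-(d / m)) ^ (i + 1) / (i + 1)), mul_sum]
    refine sum_congr rfl fun j _ => ?_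
    rw [al, show -(d / m) = -1 / m * d by ring, mul_pow]
    ring
  rw [e1, e2, show t * (Real.log m + Real.log (1 + d / m)) - (t * Real.log m +
    -t * ∑ i ∈ range r, (-(d / m)) ^ (i + 1) / (i + 1)) =
    t * (∑ i ∈ range r, (-(d / m)) ^ (i + 1) / (i + 1) + Real.log (1 + d / m)) by ring, abs_mul]
  have h2 : (d / m) ^ (r + 1) / (1 - d / m) ≤ 2 * w ^ (r + 1) := by
    rw [div_le_iff₀ (by linarith)]
    have h3 : (d / m) ^ (r + 1) ≤ w ^ (r + 1) := pow_le_pow_left₀ h0 hw _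
    have h4 : 0 ≤ w ^ (r + 1) := pow_nonneg (h0.trans hw) _
    nlinarith
  calc _ ≤ |t| * (2 * w ^ (r + 1)) := mul_le_mul_of_nonneg_left (h1.trans h2) (abs_nonneg t)
    _ = _ := by ring

theorem inner (r P : ℕ) (t : ℝ) {m w : ℝ} (hm : 0 < m) (hw : (P : ℝ) ^ 2 / m ≤ w)
    (hw2 : w ≤ 1 / 2) :
    ‖∑ x ∈ range P, ∑ y ∈ range P, ei (t * Real.log (m + x * y))‖ ≤
      ‖UU r P (al r t m)‖ + (P : ℝ) ^ 2 * (2 * (|t| * w ^ (r + 1))) := by
  have e : ∑ x ∈ range P, ∑ y ∈ range P, ei (t * Real.log (m + x * y)) =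
      ei (t * Real.log m) * UU r P (al r t m) + ∑ x ∈ range P, ∑ y ∈ range P,
        (ei (t * Real.log (m + x * y)) -
          ei (t * Real.log m) * ei (∑ j, al r t m j * ((x : ℝ) * y) ^ (j.val + 1))) := by
    simp only [UU, sum_sub_distrib, mul_sum]
    ring
  rw [e]
  refine (norm_add_le _ _).trans (add_le_add (by rw [norm_mul, norm_ei, one_mul]) ?_)
  refine (norm_sum_le _ _).trans
    ((sum_le_card_nsmul _ _ (P * (2 * (|t| * w ^ (r + 1)))) fun x hx => ?_).trans (le_of_eq ?_))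
  · refine (norm_sum_le _ _).trans
      ((sum_le_card_nsmul _ _ (2 * (|t| * w ^ (r + 1))) fun y hy => ?_).trans (le_of_eq ?_))
    · refine taylor r t hm (by positivity) (le_trans ?_ hw) hw2
      have a1 : (x : ℝ) ≤ P := by exact_mod_cast (mem_range.mp hx).le
      have a2 : (y : ℝ) ≤ P := by exact_mod_cast (mem_range.mp hy).le
      rw [sq]
      gcongr
    · simp
  · simp only [card_range, nsmul_eq_mul]
    ring

theorem good_index {τ : ℝ} {k : ℕ} (h1 : 3 ≤ τ) (h2 : τ ≤ 3 * k) :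
    ∃ j : ℕ, j < 3 * k + 7 ∧ τ + 2 / 5 ≤ 2 * ((j : ℝ) + 1) ∧ (j : ℝ) + 1 + 3 / 5 ≤ τ := by
  rcases le_total τ (18 / 5) with h | h
  · exact ⟨1, by omega, by push_cast; linarith, by push_cast; linarith⟩
  · have a1 := Nat.floor_le (show 0 ≤ τ - 8 / 5 by linarith)
    have a2 := Nat.lt_floor_add_one (τ - 8 / 5)
    refine ⟨⌊τ - 8 / 5⌋₊, ?_, by linarith, by linarith⟩
    have : (⌊τ - 8 / 5⌋₊ : ℝ) < (3 * k + 7 : ℕ) := by push_cast; linarith
    exact_mod_cast this

theorem conds {k j : ℕ} {l T m P a : ℝ} (hk : 1 ≤ k) (hl : 1500 * k ≤ l) (hj : j < 3 * k + 7)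
    (h1 : 3 * T + 2 / 5 * l ≤ 2 * ((j + 1) * l)) (h2 : (j + 1) * l + 3 / 5 * l ≤ 3 * T)
    (m1 : Real.exp l ≤ m) (m2 : m ≤ 4 * Real.exp l) (p1 : P ≤ Real.exp (l / 3))
    (p2 : Real.exp (l / 3) ≤ 2 * P) (ha : a = Real.exp T / (m ^ (j + 1) * (j + 1))) :
    a * (((((3 * k + 7 : ℕ) : ℝ)) ^ 2 + ((3 * k + 7 : ℕ) : ℝ) ^ 3) * P ^ (j + 1)) ≤ 1 ∧
      √P ≤ a * (((((3 * k + 7 : ℕ) : ℝ)) ^ 2 + ((3 * k + 7 : ℕ) : ℝ) ^ 3) * P ^ (j + 1)) ^ 2 := by
  have hk1 : (1 : ℝ) ≤ k := by exact_mod_cast hk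
  have hP : 0 < P := by linarith [Real.exp_pos (l / 3)]
  have hm : 0 < m := (Real.exp_pos l).trans_le m1
  have hj1 : (j : ℝ) + 1 ≤ 10 * k := by
    have : ((j + 1 : ℕ) : ℝ) ≤ (3 * k + 7 : ℕ) := by exact_mod_cast hj
    push_cast at this
    linarith
  have hj0 : (0 : ℝ) ≤ j := j.cast_nonneg
  obtain ⟨R, hR⟩ : ∃ R : ℝ, R = ((3 * k + 7 : ℕ) : ℝ) := ⟨_, rfl⟩
  rw [← hR]
  have r1 : 1 ≤ R := by rw [hR]; push_cast; linarith
  have r2 : R + 1 ≤ Real.exp (10 * k) := by
    have := Real.add_one_le_exp (10 * (k : ℝ))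
    rw [hR]; push_cast; linarith
  have r3 : R ^ 2 + R ^ 3 ≤ Real.exp (30 * k) := by
    calc R ^ 2 + R ^ 3 ≤ (R + 1) ^ 3 := by nlinarith
      _ ≤ Real.exp (10 * k) ^ 3 := by gcongr
      _ = _ := by
        rw [← Real.exp_nat_mul]
        congr 1
        push_cast
        ring
  have r4 : 1 ≤ R ^ 2 + R ^ 3 := by nlinarith [pow_pos (show 0 < R by linarith) 3]
  constructor
  · calc _ ≤ Real.exp T / (Real.exp l ^ (j + 1) * 1) *
          (Real.exp (30 * k) * Real.exp (l / 3) ^ (j + 1)) := by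
          rw [ha]
          gcongr
          linarith
      _ = Real.exp (T - (j + 1) * l + (30 * k + (j + 1) * l / 3)) := by
          rw [mul_one, ← Real.exp_nat_mul, ← Real.exp_nat_mul, ← Real.exp_sub, ← Real.exp_add,
            ← Real.exp_add]
          congr 1
          push_cast
          ring
      _ ≤ 1 := Real.exp_le_one_iff.mpr (by linarith)
  · have e2 : (2 : ℝ) ≤ Real.exp 1 := by linarith [Real.add_one_le_exp (1 : ℝ)]
    have b1 : m ≤ Real.exp (l + 2) := by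
      rw [Real.exp_add, show (2 : ℝ) = 1 + 1 by norm_num, Real.exp_add]
      nlinarith [Real.exp_pos l, mul_le_mul e2 e2 zero_le_two (Real.exp_pos 1).le]
    have b2 : Real.exp (l / 3 - 1) ≤ P := by
      rw [Real.exp_sub, div_le_iff₀ (Real.exp_pos 1)]
      nlinarith
    have b3 : (j : ℝ) + 1 ≤ Real.exp (j + 1) := by linarith [Real.add_one_le_exp ((j : ℝ) + 1)]
    calc √P ≤ √(Real.exp (l / 3)) := by gcongr
      _ = Real.exp (l / 3 / 2) := (Real.exp_half _).symm
      _ ≤ Real.exp (T - ((j + 1) * l + 3 * (j + 1)) + 2 * ((j + 1) * l / 3 - (j + 1))) :=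
          Real.exp_le_exp.mpr (by linarith)
      _ = Real.exp T / (Real.exp (l + 2) ^ (j + 1) * Real.exp (j + 1)) *
          (1 * Real.exp (l / 3 - 1) ^ (j + 1)) ^ 2 := by
          rw [one_mul, ← Real.exp_nat_mul, ← Real.exp_nat_mul, ← Real.exp_nat_mul, ← Real.exp_add,
            ← Real.exp_sub, ← Real.exp_add]
          congr 1
          push_cast
          ring
      _ ≤ _ := by
          rw [ha]
          gcongr

end EXPB

open EXPB

theorem expb_main : KORStmt → EXPBStmt := by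
  rintro ⟨C, hC⟩
  refine ⟨4 * max C 0 + 6, 1 / (6 * 10 ^ 7), by norm_num,
    fun k N M u t hk hN hNM hM hu0 hu1 ht1 ht2 => ?_⟩
  have hk1 : (1 : ℝ) ≤ k := by exact_mod_cast hk
  have hk6 : (k : ℝ) ≤ (k : ℝ) ^ 6 := le_self_pow₀ hk1 (by norm_num)
  have hN1 : (1 : ℝ) ≤ N := by exact_mod_cast hN
  have hN0 : (0 : ℝ) < N := by linarith
  have hC0 : 0 ≤ max C 0 := le_max_right _ _
  have hcard : ((Ioc N M).card : ℝ) ≤ 2 * N := by
    rw [Nat.card_Ioc]
    exact_mod_cast (show M - N ≤ 2 * N by omega)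
  obtain ⟨l, hl⟩ : ∃ l, l = Real.log N := ⟨_, rfl⟩
  have eN : (N : ℝ) = Real.exp l := by rw [hl, Real.exp_log hN0]
  have hl0 : 0 ≤ l := hl ▸ Real.log_nonneg hN1
  obtain ⟨γ, hγ⟩ : ∃ γ : ℝ, γ = 1 / (6 * 10 ^ 7) / (k : ℝ) ^ 6 := ⟨_, rfl⟩
  have hγ0 : 0 < γ := by rw [hγ]; positivity
  have hγ1 : γ * (k : ℝ) ^ 6 = 1 / (6 * 10 ^ 7) := by rw [hγ]; field_simp
  have eR : (N : ℝ) ^ (1 - γ) = Real.exp (l - γ * l) := by
    rw [Real.rpow_def_of_pos hN0, ← hl]
    congr 1
    ring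
  rw [← hγ, eR]
  have hpos := Real.exp_pos (l - γ * l)
  rcases le_total l (1500 * (k : ℝ) ^ 6) with hsm | hbig
  · have h1 : ‖∑ n ∈ Ioc N M, ei (t * Real.log (n + u))‖ ≤ 2 * N := by
      refine (norm_sum_le _ _).trans ?_
      simpa only [norm_ei, sum_const, nsmul_eq_mul, mul_one] using hcard
    have h2 : γ * l ≤ 1 := by nlinarith
    have h3 : (N : ℝ) ≤ 3 * Real.exp (l - γ * l) := by
      calc (N : ℝ) ≤ Real.exp (1 + (l - γ * l)) := by
            rw [eN]
            exact Real.exp_le_exp.mpr (by linarith)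
        _ ≤ _ := by
            rw [Real.exp_add]
            gcongr
            exact Real.exp_one_lt_d9.le.trans (by norm_num)
    nlinarith
  · have hl1 : 1500 * k ≤ l := by linarith
    have hlp : 0 < l := by linarith
    obtain ⟨P, hP⟩ : ∃ P, P = ⌊Real.exp (l / 3)⌋₊ := ⟨_, rfl⟩
    have x1 : 1 ≤ Real.exp (l / 3) := Real.one_le_exp (by positivity)
    have hP1 : 1 ≤ P := hP ▸ Nat.floor_pos.mpr x1
    have hP2 : (1 : ℝ) ≤ P := by exact_mod_cast hP1
    have p1 : (P : ℝ) ≤ Real.exp (l / 3) := hP ▸ Nat.floor_le (by positivity)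
    have p2 : Real.exp (l / 3) ≤ 2 * P := by
      have := Nat.lt_floor_add_one (Real.exp (l / 3))
      rw [← hP] at this
      linarith
    obtain ⟨T, hT⟩ : ∃ T, T = Real.log |t| := ⟨_, rfl⟩
    have eT : |t| = Real.exp T := by rw [hT, Real.exp_log (by linarith)]
    have t1 : l ≤ T := by
      rw [eN, eT] at ht1
      exact Real.exp_le_exp.mp ht1
    have t2 : T ≤ k * l := by
      rw [eN, eT, ← Real.exp_nat_mul] at ht2
      exact Real.exp_le_exp.mp ht2
    obtain ⟨j, j1, j2, j3⟩ := good_index (τ := 3 * T / l) (k := k)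
      (by rw [le_div_iff₀ hlp]; linarith) (by rw [div_le_iff₀ hlp]; linarith)
    have e3 : 3 * T / l * l = 3 * T := by field_simp
    have j4 : 3 * T + 2 / 5 * l ≤ 2 * ((j + 1) * l) := by nlinarith
    have j5 : (j + 1) * l + 3 / 5 * l ≤ 3 * T := by nlinarith
    have pp : (P : ℝ) ^ 2 ≤ Real.exp (2 * l / 3) := by
      calc (P : ℝ) ^ 2 ≤ Real.exp (l / 3) ^ 2 := by gcongr
        _ = _ := by
          rw [← Real.exp_nat_mul]
          congr 1
          push_cast
          ring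
    have w2 : Real.exp (-(l / 3)) ≤ 1 / 2 := by
      rw [Real.exp_neg, ← one_div]
      exact one_div_le_one_div_of_le two_pos (by linarith [Real.add_one_le_exp (l / 3)])
    have w3 : |t| * Real.exp (-(l / 3)) ^ (3 * k + 7 + 1) ≤ 1 / N := by
      rw [eT, eN, ← Real.exp_nat_mul, ← Real.exp_add, one_div, ← Real.exp_neg]
      exact Real.exp_le_exp.mpr (by push_cast; linarith)
    have q1 : (P : ℝ) ^ (2 - 1 / (20 * ((3 * k + 7 : ℕ) : ℝ) ^ 6)) ≤
        (P : ℝ) ^ 2 * (2 * Real.exp (-(γ * l))) := by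
      have a1 : 3 * γ ≤ 1 / (20 * ((3 * k + 7 : ℕ) : ℝ) ^ 6) := by
        have a2 : ((3 * k + 7 : ℕ) : ℝ) ^ 6 ≤ (10 * k) ^ 6 := by
          gcongr
          push_cast
          linarith
        rw [le_div_iff₀ (by positivity)]
        calc _ ≤ 3 * γ * (20 * (10 * k) ^ 6) := by gcongr
          _ = 6 * 10 ^ 7 * (γ * (k : ℝ) ^ 6) := by ring
          _ = 1 := by rw [hγ1]; norm_num
      have a3 : 3 * γ ≤ 1 := by nlinarith [one_le_pow₀ hk1 (n := 6)]
      calc _ ≤ (P : ℝ) ^ (((2 : ℕ) : ℝ) + -(3 * γ)) :=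
            Real.rpow_le_rpow_of_exponent_le hP2 (by push_cast at a1 ⊢; linarith)
        _ = (P : ℝ) ^ 2 * (P : ℝ) ^ (-(3 * γ)) := by
            rw [Real.rpow_add (by linarith), Real.rpow_natCast]
        _ ≤ _ := by
            gcongr
            calc (P : ℝ) ^ (-(3 * γ)) ≤ (Real.exp (l / 3) / 2) ^ (-(3 * γ)) :=
                  Real.rpow_le_rpow_of_nonpos (by positivity) (by linarith) (by linarith)
              _ = 2 ^ (3 * γ) * Real.exp (-(γ * l)) := by
                  rw [Real.div_rpow (by positivity) (by norm_num), ← Real.exp_mul,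
                    Real.rpow_neg (by norm_num), div_inv_eq_mul, mul_comm]
                  congr 2
                  ring
              _ ≤ 2 ^ (1 : ℝ) * Real.exp (-(γ * l)) := by
                  gcongr
                  norm_num
              _ = _ := by rw [Real.rpow_one]
    have h1 := aver (fun n => ei (t * Real.log (n + u))) (fun n => (norm_ei _).le) hNM P
    have h2 := sum_le_card_nsmul (Ioc N M)
      (fun n => ‖∑ x ∈ range P, ∑ y ∈ range P, ei (t * Real.log ((n + x * y : ℕ) + u))‖)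
      ((P : ℝ) ^ 2 * (max C 0 * (2 * Real.exp (-(γ * l))) + 2 * (1 / N))) fun n hn => by
        have n1 : (N : ℝ) ≤ n := by exact_mod_cast (mem_Ioc.mp hn).1.le
        have n2 : (n : ℝ) ≤ 3 * N := by exact_mod_cast (mem_Ioc.mp hn).2.trans hM
        have hm : 0 < (n : ℝ) + u := by linarith
        have a1 := inner (3 * k + 7) P t hm (w := Real.exp (-(l / 3))) (by
          calc _ ≤ Real.exp (2 * l / 3) / Real.exp l := by
                gcongr
                linarith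
            _ = _ := by
                rw [← Real.exp_sub]
                congr 1
                ring) w2
        obtain ⟨c1, c2⟩ := conds (T := T) (m := n + u) hk hl1 j1 j4 j5 (by linarith) (by linarith)
          p1 p2 ((abs_al (3 * k + 7) t hm ⟨j, j1⟩).trans (by rw [eT]))
        have a2 := hC (3 * k + 7) P (al (3 * k + 7) t (n + u)) ⟨j, j1⟩ (by omega) hP1 c1 c2
        have a3 : ‖UU (3 * k + 7) P (al (3 * k + 7) t (n + u))‖ ≤
            max C 0 * ((P : ℝ) ^ 2 * (2 * Real.exp (-(γ * l)))) :=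
          a2.trans (mul_le_mul (le_max_left _ _) q1 (by positivity) hC0)
        have a4 : (P : ℝ) ^ 2 * (2 * (|t| * Real.exp (-(l / 3)) ^ (3 * k + 7 + 1))) ≤
            (P : ℝ) ^ 2 * (2 * (1 / N)) := by gcongr
        simp only [Nat.cast_add, Nat.cast_mul, add_right_comm (n : ℝ) _ u]
        linarith
    rw [nsmul_eq_mul] at h2
    have h3 := h2.trans (mul_le_mul_of_nonneg_right hcard (by positivity))
    have h4 : ‖∑ n ∈ Ioc N M, ei (t * Real.log (n + u))‖ ≤
        4 * max C 0 * (N * Real.exp (-(γ * l))) + 4 + 2 * (P : ℝ) ^ 2 := by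
      refine le_of_mul_le_mul_left (h1.trans ((add_le_add h3 le_rfl).trans (le_of_eq ?_)))
        (by positivity : 0 < (P : ℝ) ^ 2)
      field_simp
      ring
    have h5 : N * Real.exp (-(γ * l)) = Real.exp (l - γ * l) := by
      rw [eN, ← Real.exp_add]
      rfl
    have h6 : γ * l ≤ l / 3 := by nlinarith [one_le_pow₀ hk1 (n := 6)]
    have h7 : Real.exp (2 * l / 3) ≤ Real.exp (l - γ * l) := Real.exp_le_exp.mpr (by linarith)
    have h8 : 1 ≤ Real.exp (2 * l / 3) := Real.one_le_exp (by positivity)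
    rw [h5] at h4
    linarith

end Pool.Agent.MP_678834_nt.PW
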