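import Mathlib.Data.FunLike.Fintype
import Mathlib.NumberTheory.Harmonic.ZetaAsymp
import Mathlib.NumberTheory.LSeries.DirichletContinuation
import Pool.Agent.MP_db1c88_nt.z94.Spec

/-! Project PW: Siegel-Walfisz with the twist `n ^ (i t)`. Definitions and module statements. -/

set_option autoImplicit false

noncomputable section

namespace Pool.Agent.MP_678834_nt.PW

open Finset Filter
open scoped ArithmeticFunction.vonMangoldt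
open Pool.Agent.MP_db1c88_nt.z94 (ei DP)

/-! ### Vinogradov's mean value theorem -/

/-- the number of pairs of points of `T` with the same image -/
def en {α : Type} {k : ℕ} (T : Finset α) (v : α → Fin k → ℤ) : ℕ :=
  ((T ×ˢ T).filter fun z => v z.1 = v z.2).card

/-- tuples of length `s` with entries in `B` -/
def box (s : ℕ) (B : Finset ℕ) : Finset (Fin s → ℕ) := Fintype.piFinset fun _ => B

/-- the vector of the power sums of degree `1, ..., k` -/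
def ps (k : ℕ) {s : ℕ} (x : Fin s → ℕ) : Fin k → ℤ := fun j => ∑ i, (x i : ℤ) ^ (j.val + 1)

/-- Vinogradov's count, variables in `0, ..., P - 1` -/
def Jv (k s P : ℕ) : ℕ := en (box s (range P)) (ps k)

/-- entries distinct modulo `p` -/
def Dist (p : ℕ) {k : ℕ} (m : Fin k → ℕ) : Prop := ∀ i j, m i % p = m j % p → i = j

instance (p : ℕ) {k : ℕ} : DecidablePred (Dist p (k := k)) := fun m => by
  unfold Dist; infer_instance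

/-- tuples of length `k` below `P` with entries distinct modulo `p` -/
def inj (p k P : ℕ) : Finset (Fin k → ℕ) := (box k (range P)).filter (Dist p)

/-- shifted count, covering, translation invariance -/
def ENStmt : Prop :=
  (∀ (α : Type) (k : ℕ) (T : Finset α) (v : α → Fin k → ℤ) (h : Fin k → ℤ),
    ((T ×ˢ T).filter fun z => v z.1 = v z.2 + h).card ≤ en T v) ∧
  (∀ (α ι : Type) (k : ℕ) (T : Finset α) (v : α → Fin k → ℤ) (I : Finset ι) (F : ι → Finset α),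
    (∀ x ∈ T, ∃ i ∈ I, x ∈ F i) → en T v ≤ I.card * ∑ i ∈ I, en (F i) v) ∧
  (∀ (ι : Type) [Fintype ι] (k : ℕ) (x x' : ι → ℤ) (c : ℤ),
    (∀ j : Fin k, ∑ i, x i ^ (j.val + 1) = ∑ i, x' i ^ (j.val + 1)) →
    ∀ j : Fin k, ∑ i, (x i - c) ^ (j.val + 1) = ∑ i, (x' i - c) ^ (j.val + 1))

/-- Hoelder's inequality over classes -/
def HOLDStmt : Prop := ∀ (α : Type) (k s m : ℕ) (A : Finset α) (a : α → Fin k → ℤ)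
  (B C : Finset ℕ) (cls : ℕ → ℕ), 1 ≤ s → (∀ x ∈ B, cls x ∈ C) →
  (∀ c ∈ C, en (A ×ˢ box s (B.filter fun x => cls x = c)) (fun z => a z.1 + ps k z.2) ≤ m) →
  en (A ×ˢ box s B) (fun z => a z.1 + ps k z.2) ≤ C.card ^ (2 * s) * m

/-- Linnik's lemma -/
def LINStmt : Prop := ∀ (p k : ℕ) (c : ℤ) (h : Fin k → ℤ), p.Prime → k < p →
  ((inj p k (p ^ k)).filter fun m => ∀ j : Fin k,
    (p : ℤ) ^ (j.val + 1) ∣ ∑ i, ((m i : ℤ) - c) ^ (j.val + 1) - h j).card ≤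
    k ^ k * p ^ (k * (k - 1) / 2)

/-- the well spaced solutions -/
def GOODStmt : Prop := ∀ p k s y : ℕ, p.Prime → k < p → 1 ≤ k → 1 ≤ s → y ≤ p ^ (k - 1) →
  en (inj p k (p * y) ×ˢ box s (range (p * y))) (fun z => ps k z.1 + ps k z.2) ≤
    p ^ (2 * s) * ((p * y) ^ k * (k ^ k * p ^ (k * (k - 1) / 2)) * Jv k s y)

/-- the recursion of Linnik and Karatsuba -/
def RECStmt : Prop := ∀ p k s y : ℕ, p.Prime → k < p → 2 ≤ k → k ^ 2 ≤ s → y ≤ p ^ (k - 1) →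
  Jv k (k + s) (p * y) ≤
    4 * (k + s) ^ (3 * (k + s)) * (p ^ (2 * s + k * (k - 1) / 2) * (p * y) ^ k * Jv k s y)

/-- Vinogradov's mean value theorem, weak form -/
def VMVTStmt : Prop := ∃ C : ℝ, ∀ k P : ℕ, 10 ≤ k → 1 ≤ P →
  (Jv k (k ^ 2 + k ^ 3) P : ℝ) ≤ Real.exp (C * k ^ 6) *
    (P : ℝ) ^ (2 * ((k : ℝ) ^ 2 + k ^ 3) - k * (k + 1) / 2 + 1 / 16 : ℝ)

/-! ### exponential sums -/

/-- Korobov's double sum -/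
def UU (k P : ℕ) (α : Fin k → ℝ) : ℂ :=
  ∑ x ∈ range P, ∑ y ∈ range P, ei (∑ j, α j * ((x : ℝ) * y) ^ (j.val + 1))

def WW (a : ℝ) (A : ℕ) : ℝ :=
  ∑ m ∈ Icc (-(A : ℤ)) A, ‖∑ l ∈ range (A + 1), ei (a * l * m)‖

/-- the double use of Hoelder's inequality -/
def DHStmt : Prop := ∀ (k l P : ℕ) (α : Fin k → ℝ), 1 ≤ l →
  ‖UU k P α‖ ^ (2 * l ^ 2) ≤
    (P : ℝ) ^ (4 * l * (l - 1)) * (Jv k l P : ℝ) ^ 2 * ∏ j, WW (α j) (l * P ^ (j.val + 1))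

def KORStmt : Prop := ∃ C : ℝ, ∀ (k P : ℕ) (α : Fin k → ℝ) (j : Fin k), 10 ≤ k → 1 ≤ P →
  |α j| * (((k : ℝ) ^ 2 + k ^ 3) * P ^ (j.val + 1)) ≤ 1 →
  √(P : ℝ) ≤ |α j| * (((k : ℝ) ^ 2 + k ^ 3) * P ^ (j.val + 1)) ^ 2 →
  ‖UU k P α‖ ≤ C * (P : ℝ) ^ (2 - 1 / (20 * (k : ℝ) ^ 6))

def EXPAStmt : Prop := ∃ C : ℝ, ∀ (N M : ℕ) (u t : ℝ), N ≤ M → M ≤ 3 * N → 0 ≤ u → u ≤ 1 →
  1 ≤ |t| → |t| ≤ N → ‖∑ n ∈ Ioc N M, ei (t * Real.log (n + u))‖ ≤ C * (N / |t|)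

def EXPBStmt : Prop := ∃ C c : ℝ, 0 < c ∧ ∀ (k N M : ℕ) (u t : ℝ), 1 ≤ k → 1 ≤ N → N ≤ M →
  M ≤ 3 * N → 0 ≤ u → u ≤ 1 → (N : ℝ) ≤ |t| → |t| ≤ (N : ℝ) ^ k →
  ‖∑ n ∈ Ioc N M, ei (t * Real.log (n + u))‖ ≤ C * (N : ℝ) ^ (1 - c / (k : ℝ) ^ 6)

def CHARStmt : Prop := ∃ C c : ℝ, 0 < c ∧ ∀ (k q N M : ℕ) (χ : DirichletCharacter ℂ q) (t : ℝ),
  1 ≤ k → 1 ≤ q → q ^ 2 ≤ N → N ≤ M → M ≤ 2 * N → 1 ≤ |t| → |t| ≤ (N : ℝ) ^ k →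
  ‖DP (Ioc N M) (fun n => χ n) t‖ ≤ C * (N / |t| + (N : ℝ) ^ (1 - c / (k : ℝ) ^ 6))

def PARTStmt : Prop := ∀ B : ℕ, ∀ᶠ L : ℝ in atTop,
  ∀ (q M : ℕ) (χ : DirichletCharacter ℂ q) (s : ℂ), 1 ≤ q → (q : ℝ) ≤ L ^ B →
  1 - L ^ (-(9 / 10) : ℝ) ≤ s.re → |s.im| ≤ 6 * Real.exp L →
  (M : ℝ) ≤ 2 * (q * (|s.im| + 2)) ^ 2 → ‖∑ n ∈ Ioc 0 M, χ n * (n : ℂ) ^ (-s)‖ ≤ L ^ 2

/-! ### the zero-free region -/

open Classical in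
/-- the `L`-function, times `s - 1` for the trivial character -/
def EE {q : ℕ} [NeZero q] (χ : DirichletCharacter ℂ q) (s : ℂ) : ℂ :=
  if χ = 1 then riemannZeta₁ s * ∏ p ∈ q.primeFactors, (1 - (p : ℂ) ^ (-s))
  else χ.LFunction s

open Classical in
/-- `a` for the trivial character, `b` otherwise -/
def tv {q : ℕ} {β : Type} (χ : DirichletCharacter ℂ q) (a b : β) : β := if χ = 1 then a else b

def EEStmt : Prop := ∀ (q : ℕ) [NeZero q] (χ : DirichletCharacter ℂ q),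
  Differentiable ℂ (EE χ) ∧ (∀ s : ℂ, 1 ≤ s.re → EE χ s ≠ 0) ∧
  (∀ s : ℂ, s ≠ 1 → EE χ s = tv χ (s - 1) 1 * χ.LFunction s) ∧
  (∀ s : ℂ, 1 < s.re → (s.re - 1) / s.re ≤ ‖χ.LFunction s‖) ∧
  ∀ s : ℂ, 1 < s.re → -(deriv (EE χ) s / EE χ s) =
    LSeries (fun n => (Λ n : ℂ) * χ n) s - tv χ (s - 1)⁻¹ 0

def LBStmt : Prop := ∀ B : ℕ, ∀ᶠ L : ℝ in atTop,
  ∀ (q : ℕ) [NeZero q] (χ : DirichletCharacter ℂ q) (s : ℂ), (q : ℝ) ≤ L ^ B →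
  1 - L ^ (-(9 / 10) : ℝ) ≤ s.re → s.re ≤ 2 → |s.im| ≤ 6 * Real.exp L →
  ‖EE χ s‖ ≤ L ^ (B + 3) * tv χ (1 + |s.im|) 1 ∧ ‖riemannZeta₀ s‖ ≤ L ^ 3

/-- Landau's lemma -/
def LANDStmt : Prop := ∃ C : ℝ, 0 < C ∧ ∀ (g : ℂ → ℂ) (c : ℂ) (R M : ℝ), Differentiable ℂ g →
  g c ≠ 0 → 0 < R → 0 < M → (∀ w ∈ Metric.sphere c (4 * R), ‖g w‖ ≤ ‖g c‖ * Real.exp M) →
  ∃ S : Multiset ℂ, (S.card : ℝ) ≤ C * M ∧ (∀ a ∈ S, g a = 0 ∧ ‖a - c‖ ≤ 4 * R) ∧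
    (∀ a, ‖a - c‖ ≤ R → g a = 0 → a ∈ S) ∧
    ∀ w, ‖w - c‖ ≤ R → g w ≠ 0 →
      ‖deriv g w / g w - (S.map fun a => (w - a)⁻¹).sum‖ ≤ C * M / R

/-- alternating signs of the derivatives -/
def CMStmt : Prop := ∀ (F : ℂ → ℂ) (d : ℕ → ℝ), (∀ n, 0 ≤ d n) →
  (∀ s : ℂ, 1 < s.re → LSeriesSummable (fun n => (d n : ℂ)) s) →
  (∀ s : ℂ, 1 < s.re → HasDerivAt F (-(LSeries (fun n => (d n : ℂ)) s * F s)) s) →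
  (F 2).im = 0 → 0 ≤ (F 2).re → ∀ m : ℕ, 0 ≤ ((-1) ^ m * iteratedDeriv m F 2).re

/-- Estermann's lemma -/
def ESTStmt : Prop := ∃ c : ℝ, 0 < c ∧ ∀ (G : ℂ → ℂ) (U β : ℝ), Differentiable ℂ G → 1 ≤ U →
  7 / 8 ≤ β → β < 1 → (∀ s ∈ Metric.closedBall (2 : ℂ) (3 / 2), ‖G s‖ ≤ U) →
  (∀ m : ℕ, 0 ≤ ((-1) ^ m * iteratedDeriv m (fun s => riemannZeta s * G s) 2).re) →
  1 / 100 ≤ (riemannZeta 2 * G 2).re → (riemannZeta β * G β).re ≤ 0 →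
  c * (1 - β) * U ^ (-(4 * (1 - β))) ≤ ‖G 1‖

/-- Siegel's theorem -/
def SIEGStmt : Prop := ∀ ε : ℝ, 0 < ε → ∃ c : ℝ, 0 < c ∧
  ∀ (q : ℕ) [NeZero q] (χ : DirichletCharacter ℂ q), χ ≠ 1 → χ ^ 2 = 1 →
  c * (q : ℝ) ^ (-ε) ≤ ‖χ.LFunction 1‖

def NEARStmt : Prop := ∀ B : ℕ, ∀ᶠ L : ℝ in atTop,
  ∀ (q : ℕ) [NeZero q] (χ : DirichletCharacter ℂ q) (s : ℂ), (q : ℝ) ≤ L ^ B → χ ^ 2 = 1 →
  ‖s - 1‖ ≤ L ^ (-(1 / 4) : ℝ) → EE χ s ≠ 0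

def LOCStmt : Prop := ∀ B : ℕ, ∃ C : ℝ, 0 < C ∧ ∀ᶠ L : ℝ in atTop,
  ∀ (q : ℕ) [NeZero q] (χ : DirichletCharacter ℂ q) (t : ℝ), (q : ℝ) ≤ L ^ B →
  |t| ≤ 5 * Real.exp L → ∃ S : Multiset ℂ, (S.card : ℝ) ≤ C * Real.log L ∧
    (∀ a ∈ S, EE χ a = 0 ∧ |a.im - t| ≤ 1) ∧
    (∀ a : ℂ, ‖a - (1 + t * Complex.I)‖ ≤ L ^ (-(9 / 10) : ℝ) / 8 → EE χ a = 0 → a ∈ S) ∧
    ∀ w : ℂ, ‖w - (1 + t * Complex.I)‖ ≤ L ^ (-(9 / 10) : ℝ) / 8 → EE χ w ≠ 0 →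
      ‖deriv (EE χ) w / EE χ w - (S.map fun a => (w - a)⁻¹).sum‖ ≤
        C * Real.log L * L ^ (9 / 10 : ℝ)

def ZFStmt : Prop := ∀ B : ℕ, ∀ᶠ L : ℝ in atTop,
  ∀ (q : ℕ) [NeZero q] (χ : DirichletCharacter ℂ q) (s : ℂ), (q : ℝ) ≤ L ^ B →
  1 - 2 * L ^ (-(37 / 40) : ℝ) ≤ s.re → |s.im| ≤ 2 * Real.exp L + 1 → EE χ s ≠ 0

def ZFRStmt : Prop := ∀ B : ℕ, ∀ᶠ L : ℝ in atTop,
  ∀ (q : ℕ) [NeZero q] (χ : DirichletCharacter ℂ q) (s : ℂ), (q : ℝ) ≤ L ^ B →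
  |s.re - 1| ≤ L ^ (-(19 / 20) : ℝ) → |s.im| ≤ 2 * Real.exp L →
  EE χ s ≠ 0 ∧ ‖deriv (EE χ) s / EE χ s‖ ≤ L

/-! ### Perron's formula and the final statement -/

def PERStmt : Prop := ∀ A K : ℕ, ∃ T : ℕ, ∀ᶠ y : ℝ in atTop, ∀ (c : ℕ → ℂ) (H : ℂ → ℂ),
  (∀ n : ℕ, 1 ≤ n → ‖c n‖ ≤ 1 + Real.log n) → (∀ s : ℂ, 1 < s.re → H s = LSeries c s) →
  (∀ s : ℂ, |s.re - 1| ≤ Real.log y ^ (-(19 / 20) : ℝ) → |s.im| ≤ Real.log y ^ T →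
    DifferentiableAt ℂ H s ∧ ‖H s‖ ≤ Real.log y ^ K) →
  ‖∑ n ∈ Icc 1 ⌊y⌋₊, c n‖ ≤ y / Real.log y ^ A

/-- the same statement as `HL9.PWStmt` -/
def TOPStmt : Prop := ∀ A B : ℕ, ∃ C y₀ : ℝ, ∀ (y t : ℝ) (q : ℕ) (χ : DirichletCharacter ℂ q),
  y₀ ≤ y → 1 ≤ q → (q : ℝ) ≤ Real.log y ^ B → |t| ≤ y →
    ‖DP (Icc 1 ⌊y⌋₊) (fun n => (Λ n : ℂ) * χ n - tv χ 1 0) t‖ ≤ C * y / Real.log y ^ A

theorem main_of (en' : ENStmt) (hold : HOLDStmt) (lin : LINStmt)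
    (good : ENStmt → HOLDStmt → LINStmt → GOODStmt)
    (recu : ENStmt → HOLDStmt → GOODStmt → RECStmt) (iter : RECStmt → VMVTStmt)
    (dh : ENStmt → DHStmt) (kor : VMVTStmt → DHStmt → KORStmt) (expa : EXPAStmt)
    (expb : KORStmt → EXPBStmt) (char : EXPAStmt → EXPBStmt → CHARStmt)
    (part : CHARStmt → PARTStmt) (ee : EEStmt) (lb : PARTStmt → LBStmt) (land : LANDStmt)
    (cm : CMStmt) (est : ESTStmt) (sieg : CMStmt → ESTStmt → SIEGStmt)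
    (near : SIEGStmt → NEARStmt) (loc : EEStmt → LBStmt → LANDStmt → LOCStmt)
    (zf : EEStmt → NEARStmt → LOCStmt → ZFStmt) (zld : LOCStmt → ZFStmt → ZFRStmt)
    (per : PERStmt) (fin : EEStmt → LBStmt → ZFRStmt → PERStmt → TOPStmt) : TOPStmt :=
  have hlb := lb (part (char expa (expb
    (kor (iter (recu en' hold (good en' hold lin))) (dh en')))))
  have hloc := loc ee hlb land
  fin ee hlb (zld hloc (zf ee (near (sieg cm est)) hloc)) per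

end Pool.Agent.MP_678834_nt.PW
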