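import Mathlib.Data.Int.Star
import Mathlib.NumberTheory.Bertrand
import Pool.Agent.MP_678834_nt.PW.Spec

/-! Project PW, module ITER: iteration of the recursion of Linnik and Karatsuba. -/

set_option autoImplicit false

noncomputable section

namespace Pool.Agent.MP_678834_nt.PW

open Finset

namespace ITER

lemma Jv_mono (k s : ℕ) {P P' : ℕ} (h : P ≤ P') : Jv k s P ≤ Jv k s P' := by
  unfold Jv en
  have hb : box s (range P) ⊆ box s (range P') :=
    Fintype.piFinset_subset _ _ fun _ => range_subset_range.2 h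
  exact card_le_card (filter_subset_filter _ (product_subset_product hb hb))

lemma Jv_le (k s P : ℕ) : Jv k s P ≤ P ^ (2 * s) := by
  unfold Jv en
  refine (card_filter_le _ _).trans (le_of_eq ?_)
  rw [card_product]
  unfold box
  rw [Fintype.card_piFinset]
  simp only [card_range, prod_const, card_univ, Fintype.card_fin]
  ring

lemma pow_le_exp {x a : ℝ} (hx : 0 ≤ x) (h : x ≤ Real.exp a) (n : ℕ) :
    x ^ n ≤ Real.exp (n * a) := by
  rw [Real.exp_nat_mul]
  exact pow_le_pow_left₀ hx h n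

lemma five_le_exp : (5 : ℝ) ≤ Real.exp 2 := by
  have h1 := Real.add_one_le_exp (1 / 2 : ℝ)
  have h2 : Real.exp 2 = Real.exp (1 / 2) ^ 4 := by
    rw [← Real.exp_nat_mul]; norm_num
  have h3 : (3 / 2 : ℝ) ^ 4 ≤ Real.exp (1 / 2) ^ 4 :=
    pow_le_pow_left₀ (by norm_num) (by linarith) 4
  rw [h2]
  linarith [show (5 : ℝ) ≤ (3 / 2) ^ 4 by norm_num]

lemma two_le_exp : (2 : ℝ) ≤ Real.exp 1 := by linarith [Real.add_one_le_exp (1 : ℝ)]

/-- the choice of the prime and of the new length -/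
lemma choose_prime (k P : ℕ) (hk : 2 ≤ k) (hP : k ^ k ≤ P) :
    ∃ p y : ℕ, p.Prime ∧ k < p ∧ y ≤ p ^ (k - 1) ∧ 1 ≤ y ∧ P ≤ p * y ∧
      (p : ℝ) ≤ Real.exp (2 + Real.log P / k) ∧ ((p * y : ℕ) : ℝ) ≤ Real.exp (2 + Real.log P) ∧
      Real.log y ≤ 1 + (1 - 1 / k) * Real.log P := by
  have hk0 : k ≠ 0 := by omega
  have hP1 : 1 ≤ P := le_trans (Nat.one_le_pow _ _ (by omega)) hP
  have hex : ∃ n : ℕ, P ≤ n ^ k := ⟨P, Nat.le_self_pow hk0 P⟩
  set n := Nat.find hex with hn
  have h1 : P ≤ n ^ k := Nat.find_spec hex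
  have hkn : k ≤ n := (Nat.pow_le_pow_iff_left hk0).1 (hP.trans h1)
  have h2 : (n - 1) ^ k < P := by
    have := Nat.find_min hex (m := n - 1) (by omega)
    omega
  obtain ⟨p, hp, hnp, hp2⟩ := Nat.exists_prime_lt_and_le_two_mul n (by omega)
  have hp0 : 0 < p := hp.pos
  have hPR : (1 : ℝ) ≤ P := by exact_mod_cast hP1
  have hkR : (2 : ℝ) ≤ k := by exact_mod_cast hk
  have hl : 0 ≤ Real.log P := Real.log_nonneg hPR
  set ρ := Real.exp (Real.log P / k) with hρ
  have hρk : ρ ^ k = P := by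
    rw [hρ, ← Real.exp_nat_mul, mul_div_cancel₀ _ (by linarith : (k : ℝ) ≠ 0),
      Real.exp_log (by linarith)]
  have hρ1 : 1 ≤ ρ := Real.one_le_exp (by positivity)
  have hρn : ρ ≤ n := by
    refine (pow_le_pow_iff_left₀ (by linarith) (Nat.cast_nonneg n) hk0).1 ?_
    rw [hρk]
    exact_mod_cast h1
  have hnρ : (n : ℝ) - 1 ≤ ρ := by
    have e : ((n - 1 : ℕ) : ℝ) = n - 1 := by
      rw [Nat.cast_sub (by omega)]; simp
    rw [← e]
    refine (pow_le_pow_iff_left₀ (Nat.cast_nonneg _) (by linarith) hk0).1 ?_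
    rw [hρk]
    exact_mod_cast h2.le
  have hpρ : (p : ℝ) ≤ 4 * ρ := by
    have : (p : ℝ) ≤ 2 * n := by exact_mod_cast hp2
    linarith
  have hρp : ρ ≤ p := hρn.trans (by exact_mod_cast hnp.le)
  have hρP : ρ ≤ P := by
    rw [← hρk]
    exact le_self_pow₀ hρ1 hk0
  set y := (P + p - 1) / p with hy
  have hdm := Nat.div_add_mod (P + p - 1) p
  have hmod := Nat.mod_lt (P + p - 1) hp0
  have hy1 : P ≤ p * y := by rw [hy]; omega
  have hy2 : p * y ≤ P + p - 1 := by rw [hy]; omega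
  have hy0 : 1 ≤ y := by
    rcases Nat.eq_zero_or_pos y with h | h
    · rw [h] at hy1; omega
    · exact h
  have hy3 : y ≤ p ^ (k - 1) := by
    have e : p ^ k = p * p ^ (k - 1) := by
      rw [← pow_succ']; congr 1; omega
    have a1 : P ≤ p * p ^ (k - 1) := by
      rw [← e]; exact h1.trans (Nat.pow_le_pow_left hnp.le k)
    have a2 : p * y < p * (p ^ (k - 1) + 1) := by rw [mul_add, mul_one]; omega
    exact Nat.lt_succ_iff.1 (Nat.lt_of_mul_lt_mul_left a2)
  have hy4 : ((p * y : ℕ) : ℝ) ≤ P + p := by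
    have : p * y ≤ P + p := by omega
    exact_mod_cast this
  refine ⟨p, y, hp, by omega, hy3, hy0, hy1, ?_, ?_, ?_⟩
  · rw [Real.exp_add, ← hρ]
    linarith [mul_le_mul_of_nonneg_right five_le_exp (show 0 ≤ ρ by linarith)]
  · rw [Real.exp_add, Real.exp_log (by linarith)]
    linarith [mul_le_mul_of_nonneg_right five_le_exp (show (0 : ℝ) ≤ P by linarith)]
  · have hyR : (1 : ℝ) ≤ y := by exact_mod_cast hy0
    have hp' : (0 : ℝ) < p := by linarith
    have b0 : (p : ℝ) * y ≤ P + p := by exact_mod_cast hy4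
    have b1 : ρ * y ≤ 2 * P := by
      have c1 : ρ * (y - 1) ≤ p * (y - 1) := mul_le_mul_of_nonneg_right hρp (by linarith)
      linarith
    have b2 : Real.log (ρ * y) ≤ Real.log (Real.exp 1 * P) :=
      Real.log_le_log (by positivity)
        (b1.trans (mul_le_mul_of_nonneg_right two_le_exp (by linarith)))
    rw [Real.log_mul (by linarith) (by linarith), Real.log_mul (by positivity) (by linarith),
      Real.log_exp, Real.log_exp] at b2
    have e : (1 - 1 / (k : ℝ)) * Real.log P = Real.log P - Real.log P / k := by ring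
    linarith

/-- the loss in the exponent after `m` steps -/
def eta (k m : ℕ) : ℝ := (k : ℝ) * (k + 1) / 2 * (1 - 1 / k) ^ m

lemma eta_nonneg {k : ℕ} (hk : 1 ≤ k) (m : ℕ) : 0 ≤ eta k m := by
  have hkR : (1 : ℝ) ≤ k := by exact_mod_cast hk
  have : 0 ≤ 1 - 1 / (k : ℝ) := by
    rw [sub_nonneg, div_le_one (by linarith)]; exact hkR
  unfold eta
  positivity

lemma eta_le {k : ℕ} (hk : 1 ≤ k) (m : ℕ) : eta k m ≤ (k : ℝ) * (k + 1) / 2 := by
  have hkR : (1 : ℝ) ≤ k := by exact_mod_cast hk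
  have h0 : 0 ≤ 1 - 1 / (k : ℝ) := by
    rw [sub_nonneg, div_le_one (by linarith)]; exact hkR
  have h1 : 1 - 1 / (k : ℝ) ≤ 1 := by
    have : 0 ≤ 1 / (k : ℝ) := by positivity
    linarith
  unfold eta
  exact mul_le_of_le_one_right (by positivity) (pow_le_one₀ h0 h1)

lemma kpow {k : ℝ} (hk : 10 ≤ k) : 10 * k ≤ k ^ 2 ∧ 10 * k ^ 2 ≤ k ^ 3 ∧ 10 * k ^ 3 ≤ k ^ 4 := by
  have h0 : 0 < k := by linarith
  exact ⟨by nlinarith, by nlinarith [pow_pos h0 2], by nlinarith [pow_pos h0 3]⟩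

lemma induct (hR : RECStmt) (k : ℕ) (hk : 10 ≤ k) (m : ℕ) (hm : m ≤ k ^ 2) :
    ∀ P : ℕ, 1 ≤ P → (Jv k (k ^ 2 + k * m) P : ℝ) ≤ Real.exp (40 * k ^ 4 * m +
      (2 * ((k : ℝ) ^ 2 + k * m) - k * (k + 1) / 2 + eta k m) * Real.log P) := by
  have hkR : (10 : ℝ) ≤ k := by exact_mod_cast hk
  obtain ⟨k1, k2, k3⟩ := kpow hkR
  have hk0' : (0 : ℝ) ≤ k := by linarith
  have triv : ∀ s P : ℕ, 1 ≤ P → (Jv k s P : ℝ) ≤ Real.exp (2 * s * Real.log P) := by
    intro s P hP
    have hPR : (1 : ℝ) ≤ P := by exact_mod_cast hP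
    have h1 : (Jv k s P : ℝ) ≤ (P : ℝ) ^ (2 * s) := by exact_mod_cast Jv_le k s P
    have h2 := pow_le_exp (Nat.cast_nonneg P) (Real.exp_log (by linarith : (0 : ℝ) < P)).ge (2 * s)
    push_cast at h2
    exact h1.trans h2
  induction m with
  | zero =>
    intro P hP
    refine (triv _ P hP).trans (le_of_eq ?_)
    congr 1
    unfold eta
    push_cast
    ring
  | succ m ih =>
    intro P hP
    have ih := ih (by omega)
    have hPR : (1 : ℝ) ≤ P := by exact_mod_cast hP
    have hl : 0 ≤ Real.log P := Real.log_nonneg hPR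
    have hm0 : (0 : ℝ) ≤ m := Nat.cast_nonneg m
    have hmR : (m : ℝ) + 1 ≤ (k : ℝ) ^ 2 := by exact_mod_cast hm
    have hk4 : (0 : ℝ) ≤ (k : ℝ) ^ 4 := by positivity
    rcases lt_or_ge P (k ^ k) with hPk | hPk
    · refine (triv _ P hP).trans (Real.exp_le_exp.2 ?_)
      have h1 : Real.log P ≤ (k : ℝ) * k := by
        have a1 : (P : ℝ) ≤ (k : ℝ) ^ k := by exact_mod_cast hPk.le
        have a2 := pow_le_exp (Nat.cast_nonneg k)
          (show (k : ℝ) ≤ Real.exp k by linarith [Real.add_one_le_exp (k : ℝ)]) k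
        have a3 := Real.log_le_log (by linarith) (a1.trans a2)
        rwa [Real.log_exp] at a3
      have h2 := eta_nonneg (k := k) (by omega) (m + 1)
      have h3 : (k : ℝ) * (k + 1) / 2 * Real.log P ≤ (k : ℝ) ^ 4 := by
        calc (k : ℝ) * (k + 1) / 2 * Real.log P ≤ (k : ℝ) * k * (k * k) :=
              mul_le_mul (by linarith) h1 hl (by positivity)
          _ = (k : ℝ) ^ 4 := by ring
      have h4 := mul_nonneg h2 hl
      have h5 := mul_nonneg hk4 hm0
      push_cast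
      linarith
    · obtain ⟨p, y, hp, hkp, hy, hy1, hPy, b1, b2, b3⟩ := choose_prime k P (by omega) hPk
      set s := k ^ 2 + k * m with hs
      have hsR : (s : ℝ) = (k : ℝ) ^ 2 + k * m := by rw [hs]; push_cast; ring
      have es : k ^ 2 + k * (m + 1) = k + s := by rw [hs]; ring
      have hrec := hR p k s y hp hkp (by omega) (by omega) hy
      have hJ : (Jv k (k + s) P : ℝ) ≤ 4 * ((k + s : ℕ) : ℝ) ^ (3 * (k + s)) *
          ((p : ℝ) ^ (2 * s + k * (k - 1) / 2) * ((p * y : ℕ) : ℝ) ^ k * (Jv k s y : ℝ)) := by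
        exact_mod_cast (Jv_mono k (k + s) hPy).trans hrec
      rw [es]
      refine hJ.trans ?_
      have hS : (k : ℝ) + s ≤ 2 * (k : ℝ) ^ 3 := by
        have := mul_le_mul_of_nonneg_left hmR hk0'
        rw [hsR]; linarith
      have c1 : (4 : ℝ) ≤ Real.exp 2 := by linarith [five_le_exp]
      have c2 : ((k + s : ℕ) : ℝ) ^ (3 * (k + s)) ≤ Real.exp (24 * (k : ℝ) ^ 4) := by
        have a1 : ((k + s : ℕ) : ℝ) ≤ Real.exp (4 * k) := by
          have a2 := pow_le_exp (Nat.cast_nonneg k)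
            (show (k : ℝ) ≤ Real.exp k by linarith [Real.add_one_le_exp (k : ℝ)]) 4
          push_cast at a2 ⊢
          linarith
        refine (pow_le_exp (Nat.cast_nonneg _) a1 _).trans (Real.exp_le_exp.2 ?_)
        have := mul_le_mul_of_nonneg_left hS hk0'
        push_cast
        linarith
      have hE : ((2 * s + k * (k - 1) / 2 : ℕ) : ℝ) ≤ 2 * s + k * (k - 1) / 2 := by
        have a1 : ((k * (k - 1) / 2 : ℕ) : ℝ) ≤ ((k * (k - 1) : ℕ) : ℝ) / (2 : ℕ) := Nat.cast_div_le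
        rw [Nat.cast_mul, Nat.cast_sub (by omega)] at a1
        push_cast at a1 ⊢
        linarith
      have c3 : (p : ℝ) ^ (2 * s + k * (k - 1) / 2) ≤
          Real.exp ((2 * s + k * (k - 1) / 2) * (2 + Real.log P / k)) :=
        (pow_le_exp (Nat.cast_nonneg _) b1 _).trans (Real.exp_le_exp.2
          (mul_le_mul_of_nonneg_right hE (by positivity)))
      have c4 := pow_le_exp (Nat.cast_nonneg _) b2 k
      have e0 := eta_nonneg (k := k) (by omega) m
      have e1 := eta_le (k := k) (by omega) m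
      have hs2 : (k : ℝ) ^ 2 ≤ s := by rw [hsR]; linarith [mul_nonneg hk0' hm0]
      have he : 0 ≤ 2 * (s : ℝ) - k * (k + 1) / 2 + eta k m := by linarith
      have c5 : (Jv k s y : ℝ) ≤ Real.exp (40 * k ^ 4 * m +
          (2 * (s : ℝ) - k * (k + 1) / 2 + eta k m) * (1 + (1 - 1 / k) * Real.log P)) := by
        refine (ih y hy1).trans (Real.exp_le_exp.2 ?_)
        rw [← hsR]
        have := mul_le_mul_of_nonneg_left b3 he
        linarith
      have tot : 4 * ((k + s : ℕ) : ℝ) ^ (3 * (k + s)) *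
          ((p : ℝ) ^ (2 * s + k * (k - 1) / 2) * ((p * y : ℕ) : ℝ) ^ k * (Jv k s y : ℝ)) ≤
          Real.exp 2 * Real.exp (24 * (k : ℝ) ^ 4) *
          (Real.exp ((2 * s + k * (k - 1) / 2) * (2 + Real.log P / k)) *
            Real.exp (k * (2 + Real.log P)) * Real.exp (40 * k ^ 4 * m +
          (2 * (s : ℝ) - k * (k + 1) / 2 + eta k m) * (1 + (1 - 1 / k) * Real.log P))) := by
        gcongr
      refine tot.trans ?_
      simp only [← Real.exp_add]
      refine Real.exp_le_exp.2 ?_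
      have hk0 : (k : ℝ) ≠ 0 := by linarith
      have hη : eta k (m + 1) = (1 - 1 / k) * eta k m := by unfold eta; ring
      have key : (2 * s + k * (k - 1) / 2) * (Real.log P / k) + k * Real.log P +
          (2 * (s : ℝ) - k * (k + 1) / 2 + eta k m) * ((1 - 1 / k) * Real.log P) =
          (2 * ((k : ℝ) ^ 2 + k * ((m + 1 : ℕ) : ℝ)) - k * (k + 1) / 2 + eta k (m + 1))
            * Real.log P := by
        rw [hη, hsR]
        push_cast
        field_simp
        ring
      rw [← key]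
      push_cast
      linarith

lemma eight_le (k : ℕ) (hk : 10 ≤ k) : 8 * (k * (k + 1)) ≤ 2 ^ k := by
  induction k, hk using Nat.le_induction with
  | base => norm_num
  | succ k hk ih =>
    rw [pow_succ]
    nlinarith

lemma eta_end (k : ℕ) (hk : 10 ≤ k) : eta k (k ^ 2) ≤ 1 / 16 := by
  have hkR : (10 : ℝ) ≤ k := by exact_mod_cast hk
  have h0 : 0 ≤ 1 - 1 / (k : ℝ) := by
    rw [sub_nonneg, div_le_one (by linarith)]; linarith
  have h1 : 1 - 1 / (k : ℝ) ≤ Real.exp (-(1 / k)) := by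
    linarith [Real.add_one_le_exp (-(1 / (k : ℝ)))]
  have h2 := pow_le_exp h0 h1 (k ^ 2)
  have h3 : ((k ^ 2 : ℕ) : ℝ) * -(1 / (k : ℝ)) = -k := by
    push_cast
    field_simp
  rw [h3] at h2
  have h4 : (8 : ℝ) * (k * (k + 1)) ≤ Real.exp k := by
    have a1 : (8 : ℝ) * (k * (k + 1)) ≤ 2 ^ k := by exact_mod_cast eight_le k hk
    have a2 := pow_le_exp (by norm_num) two_le_exp k
    rw [mul_one] at a2
    exact a1.trans a2
  have h5 : Real.exp k * Real.exp (-k) = 1 := by rw [← Real.exp_add]; simp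
  have h6 := Real.exp_pos (-(k : ℝ))
  unfold eta
  calc (k : ℝ) * (k + 1) / 2 * (1 - 1 / k) ^ (k ^ 2) ≤ (k : ℝ) * (k + 1) / 2 * Real.exp (-k) :=
        mul_le_mul_of_nonneg_left h2 (by positivity)
    _ ≤ 1 / 16 := by nlinarith

end ITER

theorem iter_main : RECStmt → VMVTStmt := by
  intro hR
  refine ⟨40, fun k P hk hP => ?_⟩
  have h := ITER.induct hR k hk (k ^ 2) le_rfl P hP
  have hPR : (1 : ℝ) ≤ P := by exact_mod_cast hP
  have hl : 0 ≤ Real.log P := Real.log_nonneg hPR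
  rw [show k ^ 2 + k * k ^ 2 = k ^ 2 + k ^ 3 by ring] at h
  refine h.trans ?_
  rw [Real.rpow_def_of_pos (by linarith), ← Real.exp_add]
  refine Real.exp_le_exp.2 ?_
  have := mul_le_mul_of_nonneg_right (ITER.eta_end k hk) hl
  push_cast
  linarith

end Pool.Agent.MP_678834_nt.PW
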