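import Mathlib.Data.Int.Star
import Mathlib.NumberTheory.Harmonic.Bounds
import Pool.Agent.MP_678834_nt.PW.Spec

/-! Project PW, module PART: initial segments of the Dirichlet series. -/

set_option autoImplicit false

noncomputable section

namespace Pool.Agent.MP_678834_nt.PW

open Finset Filter
open Pool.Agent.MP_db1c88_nt.z94 (ei DP)

namespace PART

theorem abel_bound {z : ℕ → ℂ} {w : ℕ → ℝ} {B : ℝ} {N : ℕ} (hw : ∀ n, w (n + 1) ≤ w n)
    (hw0 : ∀ n, 0 ≤ w n) (hB : ∀ M ≤ N, ‖∑ n ∈ range M, z n‖ ≤ B) :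
    ‖∑ n ∈ range N, w n * z n‖ ≤ w 0 * B := by
  have key : ∀ M ≤ N, ‖∑ n ∈ range M, w n * z n - w M * ∑ n ∈ range M, z n‖ ≤
      (w 0 - w M) * B := by
    intro M
    induction M with
    | zero => simp
    | succ M ih =>
      intro hM
      have e : ∑ n ∈ range (M + 1), w n * z n - w (M + 1) * ∑ n ∈ range (M + 1), z n =
          (∑ n ∈ range M, w n * z n - w M * ∑ n ∈ range M, z n) +
            ((w M - w (M + 1) : ℝ) : ℂ) * ∑ n ∈ range (M + 1), z n := by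
        simp only [sum_range_succ]; push_cast; ring
      rw [e]
      refine (norm_add_le _ _).trans ?_
      rw [norm_mul, Complex.norm_real, Real.norm_of_nonneg (by linarith [hw M])]
      nlinarith [ih (by omega), hB _ hM, hw M]
  have h1 := norm_add_le (∑ n ∈ range N, w n * z n - w N * ∑ n ∈ range N, z n)
    (w N * ∑ n ∈ range N, z n)
  rw [sub_add_cancel, norm_mul, Complex.norm_real, Real.norm_of_nonneg (hw0 N)] at h1
  nlinarith [key N le_rfl, hB N le_rfl, hw0 N]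

theorem Ioc_range (f : ℕ → ℂ) (N m : ℕ) :
    ∑ n ∈ Ioc N (N + m), f n = ∑ n ∈ range m, f (N + 1 + n) := by
  induction m with
  | zero => simp
  | succ m ih =>
    rw [← add_assoc, sum_Ioc_succ_top (by omega), ih, sum_range_succ]
    congr 2
    omega

theorem cpow_eq (s : ℂ) {n : ℕ} (hn : 1 ≤ n) :
    (n : ℂ) ^ (-s) = (((n : ℝ) ^ (-s.re) : ℝ) : ℂ) * ei (-s.im * Real.log n) := by
  have h0 : (0 : ℝ) < n := by exact_mod_cast hn
  rw [Complex.cpow_def_of_ne_zero (by exact_mod_cast h0.ne'), Real.rpow_def_of_pos h0, ei,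
    Complex.ofReal_exp, ← Complex.exp_add, ← Complex.natCast_log]
  congr 1
  conv_lhs => rw [← Complex.re_add_im s]
  push_cast
  ring

/-- one block -/
theorem block {q N M : ℕ} (χ : DirichletCharacter ℂ q) (s : ℂ) {B : ℝ} (hs : 0 ≤ s.re)
    (hNM : N ≤ M)
    (hB : ∀ M', N ≤ M' → M' ≤ M → ‖DP (Ioc N M') (fun n => χ n) (-s.im)‖ ≤ B) :
    ‖∑ n ∈ Ioc N M, χ n * (n : ℂ) ^ (-s)‖ ≤ ((N + 1 : ℕ) : ℝ) ^ (-s.re) * B := by
  obtain ⟨m, rfl⟩ := Nat.exists_eq_add_of_le hNM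
  rw [Ioc_range (fun n => χ n * (n : ℂ) ^ (-s))]
  have h := abel_bound (z := fun n => χ (N + 1 + n : ℕ) * ei (-s.im * Real.log (N + 1 + n : ℕ)))
    (w := fun n => ((N + 1 + n : ℕ) : ℝ) ^ (-s.re)) (B := B) (N := m)
    (fun n => Real.rpow_le_rpow_of_nonpos (by positivity) (by exact_mod_cast (by omega))
      (by linarith)) (fun n => by positivity) (fun M' hM => by
      have := hB (N + M') (by omega) (by omega)
      rwa [DP, Ioc_range (fun n => χ n * ei (-s.im * Real.log n))] at this)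
  refine le_trans (le_of_eq ?_) h
  congr 1
  refine sum_congr rfl fun n _ => ?_
  rw [cpow_eq s (by omega)]
  ring

/-- the first terms -/
theorem small {q N M : ℕ} (χ : DirichletCharacter ℂ q) (s : ℂ) {θ : ℝ} (h0 : 0 ≤ θ)
    (hs : 1 - θ ≤ s.re) (hMN : M ≤ N) :
    ‖∑ n ∈ Ioc 0 M, χ n * (n : ℂ) ^ (-s)‖ ≤ (N : ℝ) ^ θ * (1 + Real.log N) := by
  refine (norm_sum_le _ _).trans ?_
  have h1 : ∀ n ∈ Ioc 0 M, ‖χ n * (n : ℂ) ^ (-s)‖ ≤ (N : ℝ) ^ θ * (n : ℝ)⁻¹ := by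
    intro n hn
    obtain ⟨n0, n1⟩ := mem_Ioc.1 hn
    have p1 : (1 : ℝ) ≤ n := by exact_mod_cast n0
    rw [norm_mul, Complex.norm_natCast_cpow_of_pos n0, Complex.neg_re]
    refine (mul_le_of_le_one_left (by positivity) (χ.norm_le_one _)).trans ?_
    refine (Real.rpow_le_rpow_of_exponent_le p1 (show -s.re ≤ θ + -1 by linarith)).trans ?_
    rw [Real.rpow_add (by linarith), Real.rpow_neg_one]
    have : (n : ℝ) ≤ N := by exact_mod_cast n1.trans hMN
    gcongr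
  refine (sum_le_sum h1).trans ?_
  rw [← mul_sum]
  refine mul_le_mul_of_nonneg_left ?_ (by positivity)
  refine le_trans (sum_le_sum_of_subset_of_nonneg (Ioc_subset_Ioc_right hMN)
    fun _ _ _ => by positivity) ?_
  have h2 := harmonic_le_one_add_log N
  rw [harmonic_eq_sum_Icc] at h2
  push_cast at h2
  exact h2

theorem main {C c x : ℝ} {B : ℕ} (hC : 0 ≤ C)
    (H : ∀ (k q N M : ℕ) (χ : DirichletCharacter ℂ q) (t : ℝ),
      1 ≤ k → 1 ≤ q → q ^ 2 ≤ N → N ≤ M → M ≤ 2 * N → 1 ≤ |t| → |t| ≤ (N : ℝ) ^ k →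
      ‖DP (Ioc N M) (fun n => χ n) t‖ ≤ C * (N / |t| + (N : ℝ) ^ (1 - c / (k : ℝ) ^ 6)))
    (hx : 2 ≤ x) (h1 : 128 * x ^ (20 * B) ≤ Real.exp x) (h2 : 729 ≤ c * x ^ 3)
    (h3 : 24 + 14 * C ≤ x ^ 10)
    (q M : ℕ) (χ : DirichletCharacter ℂ q) (s : ℂ) (hq : 1 ≤ q) (hqL : (q : ℝ) ≤ (x ^ 10) ^ B)
    (hs : 1 - (x ^ 9)⁻¹ ≤ s.re) (ht : |s.im| ≤ 6 * Real.exp (x ^ 10))
    (hM : (M : ℝ) ≤ 2 * (q * (|s.im| + 2)) ^ 2) :
    ‖∑ n ∈ Ioc 0 M, χ n * (n : ℂ) ^ (-s)‖ ≤ (x ^ 10) ^ 2 := by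
  have x1 : 1 ≤ x := by linarith
  have x0 : 0 < x := by linarith
  have x8 : 256 ≤ x ^ 8 := by
    have := pow_le_pow_left₀ (by norm_num) hx 8
    linarith
  have x9 : 256 * x ≤ x ^ 9 := by nlinarith
  have x10 : x ^ 9 ≤ x ^ 10 := pow_le_pow_right₀ x1 (by norm_num)
  set θ := (x ^ 9)⁻¹ with hθ
  have θ0 : 0 < θ := by positivity
  have θ1 : θ * x ^ 9 = 1 := inv_mul_cancel₀ (by positivity)
  have θ2 : θ ≤ 1 / 16 := by nlinarith
  have q1 : (1 : ℝ) ≤ q := by exact_mod_cast hq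
  have q2 : (q : ℝ) ^ 2 ≤ x ^ (20 * B) := by
    calc (q : ℝ) ^ 2 ≤ ((x ^ 10) ^ B) ^ 2 := by gcongr
      _ = _ := by ring
  set N1 := ⌈Real.exp (x ^ 9)⌉₊ with hN1
  have n1 : Real.exp (x ^ 9) ≤ N1 := Nat.le_ceil _
  have e1 : 1 ≤ Real.exp (x ^ 9) := Real.one_le_exp (by positivity)
  have n2 : (N1 : ℝ) ≤ 2 * Real.exp (x ^ 9) := by
    linarith [Nat.ceil_lt_add_one (show 0 ≤ Real.exp (x ^ 9) by positivity)]
  have n3 : Real.log N1 ≤ 1 + x ^ 9 := by
    refine (Real.log_le_log (by linarith) n2).trans ?_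
    rw [Real.log_mul (by norm_num) (by positivity), Real.log_exp]
    linarith [Real.log_two_lt_d9]
  have n4 : (N1 : ℝ) ^ θ ≤ 6 := by
    rw [Real.rpow_def_of_pos (by linarith)]
    have : Real.log N1 * θ ≤ 1 + 1 / 16 := by nlinarith
    refine (Real.exp_le_exp.2 this).trans ?_
    rw [Real.exp_add]
    have a1 := Real.exp_one_lt_d9
    have a2 := Real.abs_exp_sub_one_le (x := 1 / 16) (by norm_num)
    have a3 := le_abs_self (Real.exp (1 / 16) - 1)
    rw [abs_of_pos (show (0 : ℝ) < 1 / 16 by norm_num)] at a2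
    nlinarith [Real.exp_pos 1, Real.exp_pos (1 / 16)]
  set k := ⌈2 * x⌉₊ with hk
  have k1 : 2 * x ≤ k := Nat.le_ceil _
  have k2 : (k : ℝ) ≤ 3 * x := by
    linarith [Nat.ceil_lt_add_one (show 0 ≤ 2 * x by positivity)]
  have k0 : 1 ≤ k := by exact_mod_cast (show (1 : ℝ) ≤ k by linarith)
  have c0 : 0 < c := by
    by_contra hc
    nlinarith [pow_pos x0 3]
  have k3 : θ ≤ c / (k : ℝ) ^ 6 := by
    rw [le_div_iff₀ (by positivity)]
    have : (k : ℝ) ^ 6 ≤ (3 * x) ^ 6 := by gcongr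
    have h4 : (k : ℝ) ^ 6 ≤ c * x ^ 9 := by nlinarith [pow_pos x0 6]
    calc θ * (k : ℝ) ^ 6 ≤ θ * (c * x ^ 9) := by gcongr
      _ = c := by linear_combination c * θ1
  have blk : ∀ N M' : ℕ, N1 ≤ N → N ≤ M' → M' ≤ 2 * N → M' ≤ M →
      ‖∑ n ∈ Ioc N M', χ n * (n : ℂ) ^ (-s)‖ ≤ 2 * C := by
    intro N M' a1 a2 a3 a4
    have b1 : Real.exp (x ^ 9) ≤ N := n1.trans (by exact_mod_cast a1)
    have b0 : (1 : ℝ) ≤ N := by linarith
    set u := (N : ℝ) ^ (1 / 16 : ℝ) with hu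
    have u16 : u ^ 16 = N := by
      rw [hu, ← Real.rpow_natCast, ← Real.rpow_mul (by linarith)]; norm_num
    have u1 : Real.exp x ≤ u := by
      refine le_trans ?_ (Real.rpow_le_rpow (by positivity) b1 (by norm_num))
      rw [← Real.exp_mul]
      exact Real.exp_le_exp.2 (by linarith)
    have u2 : 128 * (q : ℝ) ^ 2 ≤ u := by linarith
    have u3 : 128 ≤ u := by nlinarith
    have u4 : u ≤ u ^ 16 := le_self_pow₀ (by linarith) (by norm_num)
    have t1 : u ≤ |s.im| := by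
      by_contra hc
      have c1 : (|s.im| + 2) ^ 2 ≤ (2 * u) ^ 2 := by gcongr; linarith
      have c2 : (N : ℝ) ≤ M := by exact_mod_cast a2.trans a4
      have c3 : u ^ 3 ≤ u ^ 16 := pow_le_pow_right₀ (by linarith) (by norm_num)
      have c4 : 2 * ((q : ℝ) * (|s.im| + 2)) ^ 2 ≤ 2 * (u / 128 * (2 * u) ^ 2) := by
        rw [mul_pow]
        gcongr
        linarith
      nlinarith [pow_pos (show 0 < u by linarith) 3]
    have t2 : |s.im| ≤ (N : ℝ) ^ k := by
      refine ht.trans (le_trans ?_ (pow_le_pow_left₀ (by positivity) b1 k))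
      rw [← Real.exp_nat_mul]
      have d1 : x ^ 10 + x ^ 10 ≤ k * x ^ 9 := by nlinarith [pow_pos x0 9]
      refine le_trans ?_ (Real.exp_le_exp.2 d1)
      rw [Real.exp_add]
      have := Real.add_one_le_exp (x ^ 10)
      gcongr
      linarith
    have hb := block χ s (B := C * (N / |s.im| + (N : ℝ) ^ (1 - c / (k : ℝ) ^ 6))) (by linarith) a2
      fun M'' d1 d2 => by
        have := H k q N M'' χ (-s.im) k0 hq (by
          have : (q : ℝ) ^ 2 ≤ N := by nlinarith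
          exact_mod_cast this) d1 (d2.trans a3) (by rw [abs_neg]; linarith) (by rwa [abs_neg])
        rwa [abs_neg] at this
    refine hb.trans ?_
    have w1 : ((N + 1 : ℕ) : ℝ) ^ (-s.re) ≤ (N : ℝ) ^ (θ - 1) :=
      (Real.rpow_le_rpow_of_nonpos (by linarith) (by push_cast; linarith) (by linarith)).trans
        (Real.rpow_le_rpow_of_exponent_le b0 (by linarith))
    have w2 : (N : ℝ) ^ (θ - 1) * (N / |s.im|) ≤ 1 := by
      rw [Real.rpow_sub_one (by linarith), div_mul_div_comm, mul_comm ((N : ℝ) ^ θ),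
        mul_div_mul_left _ _ (by linarith), div_le_one (by linarith)]
      exact (Real.rpow_le_rpow_of_exponent_le b0 θ2).trans t1
    have w3 : (N : ℝ) ^ (θ - 1) * (N : ℝ) ^ (1 - c / (k : ℝ) ^ 6) ≤ 1 := by
      rw [← Real.rpow_add (by linarith)]
      exact Real.rpow_le_one_of_one_le_of_nonpos b0 (by linarith)
    calc _ ≤ (N : ℝ) ^ (θ - 1) * (C * (N / |s.im| + (N : ℝ) ^ (1 - c / (k : ℝ) ^ 6))) := by gcongr
      _ = C * ((N : ℝ) ^ (θ - 1) * (N / |s.im|) +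
          (N : ℝ) ^ (θ - 1) * (N : ℝ) ^ (1 - c / (k : ℝ) ^ 6)) := by ring
      _ ≤ C * (1 + 1) := by gcongr
      _ = _ := by ring
  have ind : ∀ i M' : ℕ, M' ≤ M → M' ≤ N1 * 2 ^ i →
      ‖∑ n ∈ Ioc 0 M', χ n * (n : ℂ) ^ (-s)‖ ≤ 6 * (2 + x ^ 9) + 2 * C * i := by
    intro i
    induction i with
    | zero =>
      intro M' _ a2
      refine (small χ s θ0.le hs (N := N1) (by simpa using a2)).trans ?_
      have : 0 ≤ Real.log N1 := Real.log_natCast_nonneg _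
      simp only [Nat.cast_zero, mul_zero, add_zero]
      exact mul_le_mul n4 (by linarith) (by linarith) (by norm_num)
    | succ i ih =>
      intro M' a1 a2
      push_cast
      rcases le_total M' (N1 * 2 ^ i) with h | h
      · linarith [ih M' a1 h]
      · rw [← sum_Ioc_consecutive _ (Nat.zero_le _) h]
        refine (norm_add_le _ _).trans ?_
        have b1 := ih _ (h.trans a1) le_rfl
        have b2 := blk (N1 * 2 ^ i) M' (Nat.le_mul_of_pos_right _ (by positivity)) h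
          (by rw [pow_succ] at a2; linarith) a1
        linarith
  set i := ⌈6 * x ^ 10⌉₊ with hi
  have i1 : 6 * x ^ 10 ≤ i := Nat.le_ceil _
  have i2 : (i : ℝ) ≤ 7 * x ^ 10 := by
    linarith [Nat.ceil_lt_add_one (show 0 ≤ 6 * x ^ 10 by positivity)]
  have m1 : (M : ℝ) ≤ N1 * 2 ^ i := by
    have e2 : 1 ≤ Real.exp (x ^ 10) := Real.one_le_exp (by positivity)
    have e3 : Real.exp x ≤ Real.exp (x ^ 10) := Real.exp_le_exp.2 (by linarith)
    have e4 : (M : ℝ) ≤ Real.exp (x ^ 10) ^ 3 := by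
      calc (M : ℝ) ≤ 2 * (q * (8 * Real.exp (x ^ 10))) ^ 2 := by
            refine hM.trans ?_
            gcongr
            linarith
        _ = 128 * (q : ℝ) ^ 2 * Real.exp (x ^ 10) ^ 2 := by ring
        _ ≤ Real.exp (x ^ 10) * Real.exp (x ^ 10) ^ 2 := by gcongr; linarith
        _ = _ := by ring
    have e5 : Real.exp (x ^ 10) ^ 3 ≤ 2 ^ i := by
      rw [← Real.exp_nat_mul, ← Real.exp_log (show (0 : ℝ) < 2 ^ i by positivity), Real.log_pow]
      apply Real.exp_le_exp.2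
      push_cast
      nlinarith [Real.log_two_gt_d9, pow_pos x0 10]
    exact (e4.trans e5).trans (le_mul_of_one_le_left (by positivity) (by linarith))
  refine (ind i M le_rfl (by exact_mod_cast m1)).trans ?_
  nlinarith [mul_le_mul_of_nonneg_left i2 hC, pow_pos x0 10]

end PART

theorem part_main : CHARStmt → PARTStmt := by
  rintro ⟨C, c, hc, H⟩ B
  have T : Tendsto (fun L : ℝ => L ^ (1 / 10 : ℝ)) atTop atTop := tendsto_rpow_atTop (by norm_num)
  have E1 : ∀ᶠ x : ℝ in atTop, 128 * x ^ (20 * B) ≤ Real.exp x := by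
    filter_upwards [(Real.tendsto_exp_div_pow_atTop (20 * B)).eventually_ge_atTop 128,
      eventually_gt_atTop 0] with x h h0
    rwa [le_div_iff₀ (by positivity)] at h
  have E2 : ∀ᶠ x : ℝ in atTop, 729 ≤ c * x ^ 3 :=
    ((tendsto_pow_atTop (by norm_num)).const_mul_atTop hc).eventually_ge_atTop _
  have E3 : ∀ᶠ x : ℝ in atTop, 24 + 14 * |C| ≤ x ^ 10 :=
    (tendsto_pow_atTop (by norm_num)).eventually_ge_atTop _
  filter_upwards [T.eventually E1, T.eventually E2, T.eventually E3,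
    T.eventually (eventually_ge_atTop 2), eventually_gt_atTop 0] with L h1 h2 h3 h4 h0
  have e1 : (L ^ (1 / 10 : ℝ)) ^ 10 = L := by
    rw [← Real.rpow_natCast, ← Real.rpow_mul h0.le]; norm_num
  have e2 : ((L ^ (1 / 10 : ℝ)) ^ 9)⁻¹ = L ^ (-(9 / 10) : ℝ) := by
    rw [← Real.rpow_natCast, ← Real.rpow_mul h0.le, Real.rpow_neg h0.le]; norm_num
  intro q M χ s hq hqL hs ht hM
  have := PART.main (C := |C|) (abs_nonneg C) (fun k q N M χ t a1 a2 a3 a4 a5 a6 a7 =>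
    (H k q N M χ t a1 a2 a3 a4 a5 a6 a7).trans
      (mul_le_mul_of_nonneg_right (le_abs_self C) (by positivity))) h4 h1 h2 h3 q M χ s hq
    (by rwa [e1]) (by rwa [e2]) (by rwa [e1]) hM
  rwa [e1] at this

end Pool.Agent.MP_678834_nt.PW
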