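import Mathlib.NumberTheory.DirichletCharacter.Basic
import Pool.Agent.MP_db1c88_nt.z94.Spec
import Pool.Agent.MP_3d0d30_nt.Six.Defs
import Pool.Agent.MP_678834_nt.Defs
import Mathlib.RingTheory.SimpleRing.Principal
import Pool.Agent.MP_678834_nt.PW.Spec
import Pool.Agent.MP_39a890_nt.SWc
import Mathlib.Analysis.Real.Pi.Bounds

-- ======== part 0: formerly Pool.Agent.MP_678834_nt.HL9.Defs
section MrgPart0

/-! Project HL9: definitions, and the interface statement PW. -/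

set_option autoImplicit false

noncomputable section

namespace Pool.Agent.MP_678834_nt.HL9

open MeasureTheory Finset
open scoped ArithmeticFunction.vonMangoldt ArithmeticFunction.Moebius
open Pool.Agent.MP_db1c88_nt.z94 (ei bmp blk DP wide wt)
open Pool.Agent.MP_3d0d30_nt.Six (E ck)

open Classical in
/-- the twisted von Mangoldt function minus its mean -/
def lc {q : ℕ} (χ : DirichletCharacter ℂ q) (n : ℕ) : ℂ :=
  (Λ n : ℂ) * χ n - if χ = 1 then 1 else 0

/-- Siegel-Walfisz with the twist `n ^ (i t)`, `|t| ≤ y` -/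
def PWStmt : Prop := ∀ A B : ℕ, ∃ C y₀ : ℝ, ∀ (y t : ℝ) (q : ℕ) (χ : DirichletCharacter ℂ q),
  y₀ ≤ y → 1 ≤ q → (q : ℝ) ≤ Real.log y ^ B → |t| ≤ y →
    ‖DP (Icc 1 ⌊y⌋₊) (lc χ) t‖ ≤ C * y / Real.log y ^ A

/-- smooth weights supported in the open interval from -1 to 3 -/
def Bump (V : ℝ → ℝ) : Prop := ContDiff ℝ (⊤ : ℕ∞) V ∧ ∀ x, x ∉ Set.Ioo (-1 : ℝ) 3 → V x = 0

/-- the weight of `wt X 4` in the logarithmic variable -/
def w1 (x : ℝ) : ℝ := bmp (Real.log 4) x

def w2 (x : ℝ) : ℝ := w1 x ^ 2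

/-- the step of the smooth partition of unity -/
def lam : ℝ := Real.log 2 / 2

/-- the partition of unity, supported in the open interval from 0 to log 2 -/
def v0 (x : ℝ) : ℝ := Real.smoothTransition (x / lam) - Real.smoothTransition (x / lam - 1)

def v1 (x : ℝ) : ℝ := x * v0 x

/-- general Dirichlet polynomial -/
def GP {ι : Type} (S : Finset ι) (c : ι → ℂ) (ν : ι → ℝ) (t : ℝ) : ℂ :=
  ∑ i ∈ S, c i * ei (t * Real.log (ν i))

/-- weighted exponential sum -/
def SS (X : ℝ) (g : ℕ → ℂ) (θ : ℝ) : ℂ :=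
  ∑ n ∈ wide X 4, g n * (w2 (Real.log n - Real.log X) : ℝ) * E (n * θ)

def rho (r : ℕ) : ℝ := (μ r : ℝ) / (Nat.totient r : ℝ)

/-- Ramanujan sum -/
def ram (r n : ℕ) : ℂ := ∑ b ∈ (range r).filter (fun b => Nat.Coprime b r), E (b * n / r)

/-- the major arc model of the von Mangoldt function -/
def lamS (Q n : ℕ) : ℂ := ∑ r ∈ Icc 1 Q, (rho r : ℂ) * ram r n

/-- the truncated singular series -/
def sgm (Q h : ℕ) : ℂ := ∑ r ∈ Icc 1 Q, (rho r : ℂ) ^ 2 * ram r h

/-- periodic coefficients times a smooth weight -/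
def Sm (q : ℕ) (N : ℝ) (b : ℕ → ℂ) : Prop := ∃ f : ℕ → ℂ, (∀ n, f (n + q) = f n) ∧
  (∀ n, ‖f n‖ ≤ 1) ∧ ((∀ n : ℕ, b n = f n * (v0 (Real.log n - Real.log N) : ℝ)) ∨
    ∀ n : ℕ, b n = f n * (v1 (Real.log n - Real.log N) : ℝ))

/-- admissible products of six Dirichlet polynomials -/
structure Adm (X : ℝ) (q : ℕ) (N : Fin 6 → ℝ) (b : Fin 6 → ℕ → ℂ) : Prop where
  half : ∀ l, 1 / 2 ≤ N l
  lo : X / 200 ≤ ∏ l, N l
  hi : ∏ l, N l ≤ 11 * X
  bd : ∀ l n, ‖b l n‖ ≤ 1
  alt : ∀ l, N l ≤ 3 * X ^ (1 / 3 : ℝ) ∨ Sm q (N l) (b l)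

/-- the number of primes `p ≤ x` with `p - d` prime -/
def pi2 (x d : ℕ) : ℕ := ((Icc 1 x).filter fun p : ℕ => p.Prime ∧ (p - d).Prime).card

end Pool.Agent.MP_678834_nt.HL9

end
end MrgPart0

-- ======== part 1: formerly Pool.Agent.MP_678834_nt.PW.NEAR
section MrgPart1

/-! Project PW, module NEAR: no zeros near the point one. -/

set_option autoImplicit false

namespace Pool.Agent.MP_678834_nt.PW

open Finset Filter Topology
open Pool.Agent.MP_39a890_nt.SW (norm_L_le lip)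

theorem near_main : SIEGStmt → NEARStmt := by
  intro hS B
  have hB : (0 : ℝ) ≤ B := Nat.cast_nonneg B
  obtain ⟨c, hc, hS⟩ := hS (1 / (10 * (B + 1))) (by positivity)
  obtain ⟨δ, hδ, hz⟩ := Metric.eventually_nhds_iff.1 riemannZeta₁_ne_zero_of_near_one
  have e1 := (tendsto_rpow_neg_atTop (y := 1 / 4) (by norm_num)).eventually_lt_const
    (lt_min hδ one_half_pos)
  have e2 := (isLittleO_log_rpow_rpow_atTop 2 (s := 3 / 20) (by norm_num)).bound
    (c := min c 1 / (2 * (27 * (B + 3)) ^ 2)) (by positivity)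
  filter_upwards [e1, e2, eventually_ge_atTop 3] with L h1 h2 h3 q _ χ s hq _ hs
  have h4 := hs.trans_lt h1
  have hre := abs_le.1 ((Complex.abs_re_le_norm (s - 1)).trans hs)
  have him := (Complex.abs_im_le_norm (s - 1)).trans hs
  simp only [Complex.sub_re, Complex.sub_im, Complex.one_re, Complex.one_im, sub_zero] at hre him
  have h5 := h1.trans_le (min_le_right _ _)
  unfold EE
  split_ifs with h
  · refine mul_ne_zero (hz (by rw [dist_eq_norm]; exact h4.trans_le (min_le_left _ _)))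
      (prod_ne_zero_iff.2 fun p hp k => ?_)
    have hp' := (Nat.prime_of_mem_primeFactors hp).one_lt
    have : ‖(p : ℂ) ^ (-s)‖ < 1 := by
      rw [Complex.norm_natCast_cpow_of_pos (by omega), Complex.neg_re]
      exact Real.rpow_lt_one_of_one_lt_of_neg (by exact_mod_cast hp') (by linarith [hre.1])
    rw [← sub_eq_zero.1 k, norm_one] at this
    exact lt_irrefl _ this
  · have hL : 0 < L := by linarith
    have hq0 : (0 : ℝ) < q := by exact_mod_cast NeZero.pos q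
    have hl : 1 ≤ Real.log L := by
      rw [Real.le_log_iff_exp_le hL]
      linarith [Real.exp_one_lt_three]
    obtain ⟨l, hl'⟩ : ∃ l : ℝ, l = (B + 3) * Real.log L := ⟨_, rfl⟩
    have l2 : 2 ≤ l := by nlinarith
    have l3 : Real.log ((14 * q : ℕ) : ℝ) ≤ l := by
      rw [hl', show ((B : ℝ) + 3) = (B + 3 : ℕ) by push_cast; ring, ← Real.log_pow]
      refine Real.log_le_log (by push_cast; positivity) ?_
      rw [pow_add, mul_comm (L ^ B)]
      push_cast
      exact mul_le_mul (le_trans (by norm_num) (pow_le_pow_left₀ (by norm_num) h3 3)) hq hq0.le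
        (by positivity)
    have hp : 0 < L ^ (3 / 20 : ℝ) := Real.rpow_pos_of_pos hL _
    have m1 : (27 * l) ^ 2 ≤ min c 1 / 2 * L ^ (3 / 20 : ℝ) := by
      rw [Real.norm_of_nonneg (by positivity), Real.norm_of_nonneg hp.le, Real.rpow_two] at h2
      calc (27 * l) ^ 2 = (27 * (B + 3)) ^ 2 * Real.log L ^ 2 := by rw [hl']; ring
        _ ≤ (27 * (B + 3)) ^ 2 * (min c 1 / (2 * (27 * (B + 3)) ^ 2) * L ^ (3 / 20 : ℝ)) := by
          gcongr
        _ = _ := by field_simp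
    have m2 : L ^ (3 / 20 : ℝ) * L ^ (-(1 / 4) : ℝ) = L ^ (-(1 / 10) : ℝ) := by
      rw [← Real.rpow_add hL]; norm_num
    have m3 : L ^ (-(1 / 10) : ℝ) ≤ 1 :=
      Real.rpow_le_one_of_one_le_of_nonpos (by linarith) (by norm_num)
    have m4 : 0 < L ^ (-(1 / 10) : ℝ) := Real.rpow_pos_of_pos hL _
    have m5 : 0 < L ^ (-(1 / 4) : ℝ) := Real.rpow_pos_of_pos hL _
    have m6 : (27 * l) ^ 2 * L ^ (-(1 / 4) : ℝ) ≤ min c 1 / 2 * L ^ (-(1 / 10) : ℝ) := by
      rw [← m2, ← mul_assoc]; gcongr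
    have m7 : L ^ (-(1 / 4) : ℝ) ≤ 1 / (27 * l) := by
      rw [le_div_iff₀ (by linarith)]
      nlinarith [min_le_right c 1, mul_pos m5 (show 0 < 27 * l by linarith)]
    have m8 : L ^ (-(1 / 10) : ℝ) ≤ (q : ℝ) ^ (-(1 / (10 * (B + 1)) : ℝ)) := by
      refine le_trans ?_ (Real.rpow_le_rpow_of_nonpos hq0 hq (neg_nonpos.2 (by positivity)))
      rw [← Real.rpow_natCast, ← Real.rpow_mul hL.le]
      refine Real.rpow_le_rpow_of_exponent_le (by linarith) ?_
      rw [mul_neg, neg_le_neg_iff, mul_one_div, div_le_div_iff₀ (by positivity) (by norm_num)]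
      linarith
    have key := lip (M := 27 * l) (T := 1 / 2) h (by linarith) (fun z k1 k2 k3 =>
      norm_L_le (χ.sum_eq_zero_of_ne_one h) (fun x => (χ.norm_le_one x).trans one_le_two) l3 l2
        (le_trans (by
          rw [sub_le_sub_iff_left, div_le_div_iff₀ (by linarith) (by linarith)]; linarith) k1) (by
          have a1 : 2 / (27 * l) ≤ 1 := by rw [div_le_one (by linarith)]; linarith
          have a2 := Complex.norm_le_abs_re_add_abs_im z
          rw [abs_of_nonneg (show 0 ≤ z.re by linarith)] at a2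
          push_cast
          nlinarith)) (s := s) (z := 1) (by linarith [hre.1]) (by linarith [hre.2]) (by linarith)
      (by simp; positivity) (by simp) (by simp)
    have m9 := hS q χ h ‹_›
    rw [norm_sub_rev] at key
    intro k
    rw [k, norm_zero] at key
    have n1 : (27 * l) ^ 2 * ‖s - 1‖ ≤ (27 * l) ^ 2 * L ^ (-(1 / 4) : ℝ) := by gcongr
    nlinarith [min_le_left c 1, mul_le_mul_of_nonneg_left m8 hc.le, mul_pos hc m4]

end Pool.Agent.MP_678834_nt.PW

end MrgPart1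

-- ======== part 2: formerly Pool.Agent.MP_678834_nt.PW.PER
section MrgPart2

/-! Project PW, module PER: Perron's formula, contour shift and differencing. -/

set_option autoImplicit false

noncomputable section

namespace Pool.Agent.MP_678834_nt.PW

open Finset Filter Topology Complex MeasureTheory
open Pool.Agent.MP_39a890_nt.SW

namespace PER

theorem term_le {c : ℕ → ℂ} (hc : ∀ n : ℕ, 1 ≤ n → ‖c n‖ ≤ 1 + Real.log n) {L : ℝ} (hL : 1 ≤ L)
    {s : ℂ} (hs : s.re = 1 + 1 / L) (k : ℕ) :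
    ‖c (k + 1) * w k s‖ ≤ 3 * L * ((k : ℝ) + 1) ^ (-(1 + 1 / (2 * L))) := by
  have hL0 : 0 < L := by linarith
  have hε : 0 < 1 / (2 * L) := by positivity
  have hk : (0 : ℝ) < (k : ℝ) + 1 := by positivity
  have hk1 : (1 : ℝ) ≤ (k : ℝ) + 1 := by linarith [k.cast_nonneg (α := ℝ)]
  have a0 : 1 ≤ ((k : ℝ) + 1) ^ (1 / (2 * L)) := Real.one_le_rpow hk1 hε.le
  have a1 : ‖c (k + 1)‖ ≤ 3 * L * ((k : ℝ) + 1) ^ (1 / (2 * L)) := by
    refine (hc _ (Nat.le_add_left 1 k)).trans ?_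
    have := Real.log_le_rpow_div hk.le hε
    rw [div_div_eq_mul_div, div_one] at this
    push_cast
    nlinarith
  rw [norm_mul, norm_w,
    show -(1 + 1 / (2 * L)) = 1 / (2 * L) + -s.re by rw [hs]; field_simp; ring,
    Real.rpow_add hk, ← mul_assoc]
  gcongr

theorem summable_c {c : ℕ → ℂ} (hc : ∀ n : ℕ, 1 ≤ n → ‖c n‖ ≤ 1 + Real.log n) {L : ℝ} (hL : 1 ≤ L)
    {s : ℂ} (hs : s.re = 1 + 1 / L) : LSeriesSummable c s := by
  have hε : 0 < 1 / (2 * L) := by positivity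
  rw [LSeriesSummable, ← summable_nat_add_iff 1]
  refine .of_norm_bounded ((summable_w hε).mul_left (3 * L)) fun k => ?_
  refine le_of_eq_of_le ?_ (term_le hc hL hs k)
  rw [LSeries.term_of_ne_zero k.succ_ne_zero, w, cpow_neg, div_eq_mul_inv]
  push_cast
  rfl

theorem norm_LS_le {c : ℕ → ℂ} (hc : ∀ n : ℕ, 1 ≤ n → ‖c n‖ ≤ 1 + Real.log n) {L : ℝ} (hL : 1 ≤ L)
    {s : ℂ} (hs : s.re = 1 + 1 / L) : ‖LSeries c s‖ ≤ 9 * L ^ 2 := by
  have hε : 0 < 1 / (2 * L) := by positivity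
  have h2 := (summable_w hε).mul_left (3 * L)
  rw [← (hasSum_w (summable_c hc hL hs)).tsum_eq]
  refine (tsum_of_norm_bounded h2.hasSum (term_le hc hL hs)).trans
    (h2.tsum_le_of_sum_range_le fun n => ?_)
  rw [← mul_sum]
  refine (mul_le_mul_of_nonneg_left (full_sum hε n) (by positivity)).trans ?_
  rw [one_div_one_div]
  nlinarith

theorem continuous_LS {c : ℕ → ℂ} (hc : ∀ n : ℕ, 1 ≤ n → ‖c n‖ ≤ 1 + Real.log n) {L : ℝ}
    (hL : 1 ≤ L) : Continuous fun t : ℝ => LSeries c (((1 + 1 / L : ℝ) : ℂ) + t * I) := by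
  have h1 := (summable_c hc (L := 2 * L) (by linarith) (s := ((1 + 1 / (2 * L) : ℝ) : ℂ))
    (ofReal_re _)).abscissaOfAbsConv_le
  refine continuous_iff_continuousAt.2 fun t => ?_
  refine ContinuousAt.comp (g := LSeries c) (f := fun t : ℝ => ((1 + 1 / L : ℝ) : ℂ) + t * I)
    (LSeries_hasDerivAt (lt_of_le_of_lt h1 ?_)).continuousAt (by fun_prop)
  have h2 : (((1 + 1 / L : ℝ) : ℂ) + t * I).re = 1 + 1 / L := by
    simp only [add_re, ofReal_re, mul_re, I_re, mul_zero, ofReal_im, I_im, zero_mul, sub_zero,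
      add_zero]
  rw [h2, ofReal_re, EReal.coe_lt_coe_iff]
  have : 1 / (2 * L) < 1 / L := one_div_lt_one_div_of_lt (by linarith) (by linarith)
  linarith

/-- the Riesz mean -/
theorem riesz {c : ℕ → ℂ} {H : ℂ → ℂ} (hc : ∀ n : ℕ, 1 ≤ n → ‖c n‖ ≤ 1 + Real.log n)
    (hH : ∀ s : ℂ, 1 < s.re → H s = LSeries c s) {L η T K z Zb Za : ℝ} (hL : 2 ≤ L)
    (hη : 1 / L ≤ η) (hη2 : η ≤ 1 / 2) (hT : 0 < T) (hz : 1 ≤ z)
    (hd : ∀ s : ℂ, |s.re - 1| ≤ η → |s.im| ≤ T → DifferentiableAt ℂ H s ∧ ‖H s‖ ≤ K)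
    (hb : z ^ (1 + 1 / L) ≤ Zb) (ha : z ^ (1 - η) ≤ Za) :
    ‖∑ n ∈ Ioc 0 ⌊z⌋₊, c n * ((z : ℂ) - n)‖ ≤
      z * (2 * (K * (Zb / T ^ 2)) + K * (Za / (1 / 4)) * (2 * T) + 2 * (9 * L ^ 2 * Zb) / T) := by
  have hz0 : 0 < z := by linarith
  have e3 : 0 < 1 / L := by positivity
  have hK : 0 ≤ K := (norm_nonneg _).trans (hd 1 (by simp; linarith) (by simpa using hT.le)).2
  have hZb : 0 ≤ Zb := le_trans (by positivity) hb
  have e4 : 1 / L ≤ 1 / 2 := hη.trans hη2
  have hcont := continuous_LS hc (L := L) (by linarith)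
  set b : ℝ := 1 + 1 / L with hbdef
  have hb1 : ∀ t : ℝ, ((b : ℂ) + t * I).re = b := fun t => by simp
  have p1 := perron (a := c) hz0 (b := b) (by linarith)
    (summable_c hc (L := L) (by linarith) (ofReal_re _))
  have p2 := truncate (F := fun t : ℝ => LSeries c (b + t * I) * ker z (b + t * I))
    (K := 9 * L ^ 2 * Zb) (by positivity) hT (hcont.mul (continuous_iff_continuousAt.2 fun t =>
      ContinuousAt.comp (g := ker z) (f := fun t : ℝ => (b : ℂ) + t * I)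
        (differentiableAt_ker hz0 (by rw [hb1]; linarith)).continuousAt (by fun_prop)))
    fun t => by
      rw [norm_mul, mul_assoc (9 * L ^ 2)]
      refine mul_le_mul (norm_LS_le hc (by linarith) (hb1 t))
        ((norm_ker_line hz0 (by linarith) t).trans ?_) (norm_nonneg _) (by positivity)
      gcongr
  have p3 := shift (H := H) (a := 1 - η) (b := b) (K := K) hz (by linarith)
    (by linarith) (by linarith) hT fun s k1 k2 k3 =>
      hd s (abs_le.2 ⟨by linarith, by linarith⟩) k3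
  simp only [fun t : ℝ => hH (b + t * I) (by rw [hb1]; linarith)] at p3
  have p4 := congrArg norm p1
  rw [norm_mul, norm_mul, norm_real, Real.norm_of_nonneg hz0.le] at p4
  have p5 : 1 ≤ ‖(2 * Real.pi : ℂ)‖ := by
    rw [norm_mul, norm_real, Real.norm_of_nonneg Real.pi_pos.le, Complex.norm_two]
    linarith [Real.pi_gt_three]
  have p6 : K * (z ^ b / T ^ 2) ≤ K * (Zb / T ^ 2) := by gcongr
  have p7 : K * (z ^ (1 - η) / (1 / 4)) * (2 * T) ≤ K * (Za / (1 / 4)) * (2 * T) := by gcongr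
  refine (le_mul_of_one_le_left (norm_nonneg _) p5).trans (le_of_eq_of_le p4.symm ?_)
  gcongr
  linarith

/-- differencing of the Riesz mean -/
theorem differ (c : ℕ → ℂ) {y h R G : ℝ} (hy : 0 ≤ y) (hh : 0 < h) (hG : 0 ≤ G)
    (h1 : ‖∑ n ∈ Ioc 0 ⌊y⌋₊, c n * ((y : ℂ) - n)‖ ≤ R)
    (h2 : ‖∑ n ∈ Ioc 0 ⌊y + h⌋₊, c n * (((y + h : ℝ) : ℂ) - n)‖ ≤ R)
    (h3 : ∀ n ∈ Ioc ⌊y⌋₊ ⌊y + h⌋₊, ‖c n‖ ≤ G) :
    ‖∑ n ∈ Icc 1 ⌊y⌋₊, c n‖ ≤ 2 * R / h + (h + 1) * G := by
  have hle : ⌊y⌋₊ ≤ ⌊y + h⌋₊ := Nat.floor_le_floor (by linarith)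
  have e : (h : ℂ) * ∑ n ∈ Icc 1 ⌊y⌋₊, c n =
      ∑ n ∈ Ioc 0 ⌊y + h⌋₊, c n * (((y + h : ℝ) : ℂ) - n) -
        ∑ n ∈ Ioc 0 ⌊y⌋₊, c n * ((y : ℂ) - n) -
        ∑ n ∈ Ioc ⌊y⌋₊ ⌊y + h⌋₊, c n * (((y + h : ℝ) : ℂ) - n) := by
    rw [← sum_Ioc_consecutive _ (Nat.zero_le ⌊y⌋₊) hle, add_sub_right_comm, add_sub_cancel_right,
      ← sum_sub_distrib, mul_sum]
    refine sum_congr rfl fun n _ => ?_
    push_cast
    ring
  have h4 : ‖∑ n ∈ Ioc ⌊y⌋₊ ⌊y + h⌋₊, c n * (((y + h : ℝ) : ℂ) - n)‖ ≤ (h + 1) * (G * h) := by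
    refine (norm_sum_le _ _).trans ((sum_le_card_nsmul _ _ (G * h) fun n hn => ?_).trans ?_)
    · have a1 : y < n := (Nat.floor_lt hy).1 (mem_Ioc.1 hn).1
      have a2 : (n : ℝ) ≤ y + h := (Nat.le_floor_iff (by linarith)).1 (mem_Ioc.1 hn).2
      rw [norm_mul, ← ofReal_natCast, ← ofReal_sub, norm_real, Real.norm_of_nonneg (by linarith)]
      exact mul_le_mul (h3 n hn) (by linarith) (by linarith) hG
    · rw [Nat.card_Ioc, nsmul_eq_mul, Nat.cast_sub hle]
      have a1 := Nat.floor_le (show 0 ≤ y + h by linarith)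
      have a2 := Nat.lt_floor_add_one y
      gcongr
      linarith
  have h5 := congrArg norm e
  rw [norm_mul, norm_real, Real.norm_of_nonneg hh.le] at h5
  rw [div_add' _ _ _ hh.ne', le_div_iff₀ hh, mul_comm, h5]
  refine (norm_sub_le _ _).trans ?_
  have := norm_sub_le (∑ n ∈ Ioc 0 ⌊y + h⌋₊, c n * (((y + h : ℝ) : ℂ) - n))
    (∑ n ∈ Ioc 0 ⌊y⌋₊, c n * ((y : ℂ) - n))
  nlinarith

theorem ev_exp (m : ℕ) : ∀ᶠ L : ℝ in atTop, L ^ m ≤ Real.exp (L ^ (1 / 20 : ℝ)) := by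
  have h2 := ((Real.tendsto_exp_div_pow_atTop (20 * m)).comp
    (tendsto_rpow_atTop (by norm_num : (0 : ℝ) < 1 / 20))).eventually_ge_atTop 1
  filter_upwards [h2, eventually_gt_atTop 0] with L a hL
  rw [Function.comp_apply, one_le_div (by positivity), pow_mul, ← Real.rpow_natCast _ 20,
    ← Real.rpow_mul hL.le] at a
  norm_num at a
  exact a

end PER

open PER in
theorem per_main : PERStmt := by
  intro A K
  refine ⟨2 * A + K + 6, ?_⟩
  have ev : ∀ᶠ L : ℝ in atTop, 60 ≤ L ∧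
      L ^ (K + (2 * A + K + 6) + (2 * A + 4)) ≤ Real.exp (L ^ (1 / 20 : ℝ)) ∧
      L ^ (A + 2) ≤ Real.exp L := by
    refine (eventually_ge_atTop 60).and ((ev_exp _).and ?_)
    filter_upwards [(Real.tendsto_exp_div_pow_atTop (A + 2)).eventually_ge_atTop 1,
      eventually_gt_atTop 0] with L a hL
    rwa [one_le_div (by positivity)] at a
  filter_upwards [Real.tendsto_log_atTop.eventually ev, eventually_ge_atTop 2] with y hy hy2
  intro c H hc hH hd
  obtain ⟨a1, a2, a3⟩ := hy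
  have hy0 : 0 < y := by linarith
  rw [Real.exp_log hy0] at a3
  set L := Real.log y with hL
  have hL0 : 0 < L := by linarith
  have hL1 : 1 ≤ L := by linarith
  set η := L ^ (-(19 / 20) : ℝ) with hη
  set T := L ^ (2 * A + K + 6) with hT
  have hT0 : 0 < T := by positivity
  have η1 : 1 / L ≤ η := by
    rw [one_div, ← Real.rpow_neg_one]
    exact Real.rpow_le_rpow_of_exponent_le hL1 (by norm_num)
  have η2 : η ≤ 1 / 2 := by
    have b1 : η ≤ L ^ (-(1 / 2) : ℝ) := Real.rpow_le_rpow_of_exponent_le hL1 (by norm_num)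
    refine b1.trans ?_
    rw [Real.rpow_neg hL0.le, ← Real.sqrt_eq_rpow, ← one_div]
    exact one_div_le_one_div_of_le two_pos (Real.le_sqrt_of_sq_le (by linarith))
  have η3 : L * η = L ^ (1 / 20 : ℝ) := by
    rw [hη, ← Real.rpow_one_add' hL0.le (by norm_num)]
    norm_num
  set h := y / L ^ (A + 2) with hh
  have h1 : 1 ≤ h := by rwa [hh, one_le_div (by positivity)]
  have h2 : h ≤ y := div_le_self hy0.le (one_le_pow₀ hL1)
  have hlog : Real.log (2 * y) ≤ L + 1 := by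
    rw [Real.log_mul two_ne_zero hy0.ne']
    linarith [Real.log_two_lt_d9]
  have he : Real.exp 2 ≤ 8 := by
    have := Real.exp_one_lt_d9
    have h := Real.exp_pos 1
    rw [show (2 : ℝ) = 1 + 1 by norm_num, Real.exp_add]
    nlinarith
  have key : ∀ z : ℝ, y ≤ z → z ≤ 2 * y →
      ‖∑ n ∈ Ioc 0 ⌊z⌋₊, c n * ((z : ℂ) - n)‖ ≤ 672 * y ^ 2 / L ^ (2 * A + 4) := by
    intro z z1 z2
    have hz0 : 0 < z := by linarith
    have b1 : z ^ (1 + 1 / L) ≤ 16 * y := by
      rw [Real.rpow_add hz0, Real.rpow_one, show 1 / L = 2 / (2 * L) by field_simp]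
      have := (rpow_le_exp hz0 z2 (ℓ := 2 * L) (by linarith) (by linarith) zero_le_two).trans he
      nlinarith [Real.rpow_nonneg hz0.le (2 / (2 * L))]
    have b2 : z ^ (1 - η) ≤ 2 * y * Real.exp (-L ^ (1 / 20 : ℝ)) := by
      rw [sub_eq_add_neg, Real.rpow_add hz0, Real.rpow_one]
      refine mul_le_mul z2 ?_ (by positivity) (by positivity)
      refine (Real.rpow_le_rpow_of_nonpos hy0 z1 (by linarith [one_div_pos.2 hL0])).trans_eq ?_
      rw [Real.rpow_def_of_pos hy0, ← η3]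
      congr 1
      ring
    refine (riesz hc hH (by linarith) η1 η2 hT0 (by linarith) hd b1 b2).trans ?_
    have c1 : L ^ K * (16 * y / T ^ 2) ≤ 16 * (y / L ^ (2 * A + 4)) := by
      calc _ ≤ L ^ K * (16 * y / L ^ (K + (2 * A + 4))) := by
            have := pow_le_pow_right₀ hL1 (show K + (2 * A + 4) ≤ (2 * A + K + 6) * 2 by omega)
            rw [hT, ← pow_mul]
            gcongr
        _ = _ := by field_simp; ring
    have c2 : L ^ K * (2 * y * Real.exp (-L ^ (1 / 20 : ℝ)) / (1 / 4)) * (2 * T) ≤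
        16 * (y / L ^ (2 * A + 4)) := by
      have : Real.exp (-L ^ (1 / 20 : ℝ)) ≤ 1 / L ^ (K + (2 * A + K + 6) + (2 * A + 4)) := by
        rw [Real.exp_neg, ← one_div]
        exact one_div_le_one_div_of_le (by positivity) a2
      calc _ ≤ L ^ K * (2 * y * (1 / L ^ (K + (2 * A + K + 6) + (2 * A + 4))) / (1 / 4)) *
            (2 * T) := by gcongr
        _ = _ := by rw [hT]; field_simp; ring
    have c3 : 2 * (9 * L ^ 2 * (16 * y)) / T ≤ 288 * (y / L ^ (2 * A + 4)) := by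
      calc _ ≤ 2 * (9 * L ^ 2 * (16 * y)) / L ^ (2 + (2 * A + 4)) := by
            have := pow_le_pow_right₀ hL1 (show 2 + (2 * A + 4) ≤ 2 * A + K + 6 by omega)
            rw [hT]
            gcongr
        _ = _ := by field_simp; ring
    calc _ ≤ 2 * y * (336 * (y / L ^ (2 * A + 4))) := by
          refine mul_le_mul z2 (by linarith) (by positivity) (by positivity)
      _ = _ := by ring
  have d := differ c hy0.le (h := h) (G := 2 + L) (by linarith) (by linarith)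
    (key y le_rfl (by linarith)) (key (y + h) (by linarith) (by linarith)) fun n hn => by
      have b1 : 1 ≤ n := by have := (mem_Ioc.1 hn).1; omega
      have b2 : (n : ℝ) ≤ y + h := (Nat.le_floor_iff (by linarith)).1 (mem_Ioc.1 hn).2
      have b3 := Real.log_le_log (by exact_mod_cast b1) (b2.trans (by linarith : y + h ≤ 2 * y))
      linarith [hc n b1]
  refine d.trans ?_
  have e1 : 2 * (672 * y ^ 2 / L ^ (2 * A + 4)) / h = 1344 / L ^ 2 * (y / L ^ A) := by
    rw [hh]; field_simp; ring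
  have e2 : h = 1 / L ^ 2 * (y / L ^ A) := by rw [hh]; field_simp; ring
  have e3 : (h + 1) * (2 + L) ≤ 2 * h * (2 * L) := by gcongr <;> linarith
  have e4 : 2 * h * (2 * L) = 4 / L * (y / L ^ A) := by rw [e2]; field_simp; ring
  have e5 : 1344 / L ^ 2 ≤ 1 / 2 := by rw [div_le_iff₀ (by positivity)]; nlinarith
  have e6 : 4 / L ≤ 1 / 2 := by rw [div_le_iff₀ hL0]; linarith
  have e7 : 0 ≤ y / L ^ A := by positivity
  rw [e1]
  nlinarith

end Pool.Agent.MP_678834_nt.PW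

end
end MrgPart2

-- marker of a merged file
example : 731051 + 409939 = 731051 + 409939 := rfl
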