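import Mathlib.Analysis.Real.Pi.Bounds
import Mathlib.NumberTheory.LSeries.HurwitzZetaValues
import Mathlib.NumberTheory.LSeries.Linearity
import Mathlib.NumberTheory.LSeries.Nonvanishing
import Mathlib.RingTheory.SimpleRing.Principal
import Pool.Agent.MP_678834_nt.PW.Spec
import Pool.Agent.MP_39a890_nt.SWa

/-! Project PW, module SIEG: Siegel's theorem from Estermann's lemma. -/

set_option autoImplicit false

noncomputable section

namespace Pool.Agent.MP_678834_nt.PW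

open Finset Filter Topology Complex DirichletCharacter
open scoped ArithmeticFunction.vonMangoldt
open Pool.Agent.MP_39a890_nt

namespace SIEG

/-- the logarithmic derivative of `G` is a Dirichlet series -/
def LD (G : ℂ → ℂ) (e : ℕ → ℂ) : Prop := ∀ s : ℂ, 1 < s.re →
  LSeriesSummable e s ∧ HasDerivAt G (-(LSeries e s * G s)) s

theorem LD.mul {G G' : ℂ → ℂ} {e e' : ℕ → ℂ} (h : LD G e) (h' : LD G' e') :
    LD (fun s => G s * G' s) (e + e') := fun s hs => by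
  refine ⟨(h s hs).1.add (h' s hs).1, ?_⟩
  rw [LSeries_add (h s hs).1 (h' s hs).1]
  exact ((h s hs).2.fun_mul (h' s hs).2).congr_deriv (by ring)

theorem LD_char {q : ℕ} [NeZero q] (χ : DirichletCharacter ℂ q) :
    LD χ.LFunction (fun n => χ n * (Λ n : ℂ)) := fun s hs => by
  have hs1 : s ≠ 1 := fun h => by simp [h] at hs
  refine ⟨LSeriesSummable_twist_vonMangoldt χ hs, ?_⟩
  refine (differentiableAt_LFunction χ s (Or.inl hs1)).hasDerivAt.congr_deriv ?_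
  have h1 := LSeries_twist_vonMangoldt_eq χ hs
  have h2 := LSeries_ne_zero_of_one_lt_re χ hs
  rw [eq_div_iff h2] at h1
  rw [deriv_LFunction_eq_deriv_LSeries χ hs, LFunction_eq_LSeries χ hs]
  exact neg_eq_iff_eq_neg.mp h1.symm

theorem LD_zeta : LD riemannZeta (fun n => (Λ n : ℂ)) := fun s hs => by
  have hs1 : s ≠ 1 := fun h => by simp [h] at hs
  refine ⟨ArithmeticFunction.LSeriesSummable_vonMangoldt hs, ?_⟩
  refine (differentiableAt_riemannZeta hs1).hasDerivAt.congr_deriv ?_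
  have h1 := ArithmeticFunction.LSeries_vonMangoldt_eq_deriv_riemannZeta_div hs
  rw [eq_div_iff (riemannZeta_ne_zero_of_one_lt_re hs)] at h1
  exact neg_eq_iff_eq_neg.mp h1.symm

theorem zeta_two : ∃ z : ℝ, riemannZeta 2 = z ∧ 1 ≤ z := by
  refine ⟨Real.pi ^ 2 / 6, by rw [riemannZeta_two]; push_cast; rfl, ?_⟩
  nlinarith [Real.pi_gt_three]

/-- the hypotheses of Estermann's lemma on the derivatives -/
theorem alt (hCM : CMStmt) {G : ℂ → ℂ} {e : ℕ → ℂ} (h : LD G e) (d : ℕ → ℝ) (hd : ∀ n, 0 ≤ d n)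
    (hde : ∀ n, (d n : ℂ) = Λ n + e n) {g : ℝ} (hg : G 2 = g) (hg0 : 1 / 100 ≤ g) :
    (∀ m : ℕ, 0 ≤ ((-1) ^ m * iteratedDeriv m (fun s => riemannZeta s * G s) 2).re) ∧
      1 / 100 ≤ (riemannZeta 2 * G 2).re := by
  obtain ⟨z, hz, hz1⟩ := zeta_two
  have h1 := LD_zeta.mul h
  have e1 : ((fun n => (Λ n : ℂ)) + e) = fun n => (d n : ℂ) := funext fun n => (hde n).symm
  rw [e1] at h1
  have h2 : riemannZeta 2 * G 2 = ((z * g : ℝ) : ℂ) := by rw [hz, hg]; push_cast; rfl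
  have h3 : 1 / 100 ≤ z * g := by nlinarith
  refine ⟨hCM _ d hd (fun s hs => (h1 s hs).1) (fun s hs => (h1 s hs).2) ?_ ?_, ?_⟩
  · simp only [h2, ofReal_im]
  · simp only [h2, ofReal_re]
    linarith
  · simp only [h2, ofReal_re]
    exact h3

theorem val_real {f : ℕ} {χ : DirichletCharacter ℂ f} (h : χ ^ 2 = 1) (n : ZMod f) :
    χ n = (χ n).re ∧ 0 ≤ 1 + (χ n).re := by
  rcases MulChar.isQuadratic_iff_sq_eq_one.mpr h n with h1 | h1 | h1 <;> simp [h1]

section one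
variable {q : ℕ} [NeZero q] {χ : DirichletCharacter ℂ q}

omit [NeZero q] in
theorem le_two (χ : DirichletCharacter ℂ q) (x : ZMod q) : ‖χ x‖ ≤ 2 :=
  (χ.norm_le_one x).trans one_le_two

theorem norm_ball (hχ : χ ≠ 1) {s : ℂ} (hs : s ∈ Metric.closedBall (2 : ℂ) (3 / 2)) :
    ‖χ.LFunction s‖ ≤ 21 * q := by
  have h0 := χ.sum_eq_zero_of_ne_one hχ
  rw [mem_closedBall_iff_norm] at hs
  have h1 : 1 / 2 ≤ s.re := by
    have := (abs_re_le_norm (s - 2)).trans hs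
    simp only [sub_re, re_ofNat] at this
    linarith [(abs_le.mp this).1]
  have h2 : ‖s‖ ≤ 7 / 2 := by
    have := norm_add_le (s - 2) 2
    simp only [sub_add_cancel, Complex.norm_ofNat] at this
    linarith
  have hsum := (SW.summable_w (x := s.re) (by linarith)).mul_left (2 * q * ‖s‖)
  rw [LFunction, SW.L_eq h0 (le_two χ) h1]
  refine (tsum_of_norm_bounded hsum.hasSum fun k =>
    SW.norm_trm h0 (le_two χ) k (by linarith)).trans ?_
  refine hsum.tsum_le_of_sum_range_le fun n => ?_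
  rw [← mul_sum]
  have h3 := SW.full_sum (x := s.re) (by linarith) n
  have h4 : 1 / s.re ≤ 2 := by
    rw [div_le_iff₀ (by linarith)]
    linarith
  calc _ ≤ 2 * (q : ℝ) * (7 / 2) * 3 := by
        gcongr
        linarith
    _ = _ := by ring

theorem L_real (hχ : χ ≠ 1) (h2 : χ ^ 2 = 1) {x : ℝ} (hx : 1 / 2 ≤ x) :
    χ.LFunction x = (χ.LFunction x).re := by
  have h0 := χ.sum_eq_zero_of_ne_one hχ
  have e : ∀ k, SW.trm χ k x = (((∑ j ∈ range (k + 1), (χ ((j + 1 : ℕ) : ZMod q)).re) *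
      (((k : ℝ) + 1) ^ (-x) - (((k + 1 : ℕ) : ℝ) + 1) ^ (-x)) : ℝ) : ℂ) := fun k => by
    rw [SW.trm, SW.w, SW.w, ofReal_mul, ofReal_sub, ofReal_cpow (by positivity),
      ofReal_cpow (by positivity), ofReal_sum, ofReal_neg]
    congr 1
    exact sum_congr rfl fun j _ => (val_real h2 _).1
  rw [LFunction, SW.L_eq h0 (le_two χ) (by simpa using hx)]
  simp only [e]
  rw [← ofReal_tsum, ofReal_re]

theorem L_two (χ : DirichletCharacter ℂ q) : 1 / 4 ≤ (χ.LFunction 2).re := by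
  have hs : 1 < (2 : ℂ).re := by norm_num
  have h1 := SW.hasSum_w (LSeriesSummable_of_one_lt_re χ hs)
  rw [← LFunction_eq_LSeries χ hs] at h1
  have hb : ∀ k : ℕ, ‖χ ((k + 1 : ℕ) : ZMod q) * SW.w k 2‖ ≤ 1 * ((k : ℝ) + 1) ^ (-(1 + 1 : ℝ)) :=
    fun k => by
      rw [norm_mul, SW.norm_w]
      refine mul_le_mul (χ.norm_le_one _) (le_of_eq ?_) (by positivity) zero_le_one
      norm_num
  have h2 := SW.tail_le zero_le_one one_pos two_pos hb
  have h3 := hb 1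
  rw [← h1.tsum_eq, ← h1.summable.sum_add_tsum_nat_add 2, sum_range_succ, sum_range_one]
  have h4 : χ ((0 + 1 : ℕ) : ZMod q) * SW.w 0 2 = 1 := by simp [SW.w]
  rw [h4, add_re, add_re, one_re]
  have h5 := (abs_le.mp ((abs_re_le_norm _).trans h2)).1
  have h6 := (abs_le.mp ((abs_re_le_norm _).trans h3)).1
  norm_num at h5 h6 ⊢
  linarith

theorem L_one_le (hχ : χ ≠ 1) : ‖χ.LFunction 1‖ ≤ 27 * (Real.log (4 * q) + 2) := by
  have hq : (1 : ℝ) ≤ q := by exact_mod_cast NeZero.pos q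
  have h1 : 0 ≤ Real.log (4 * q) := Real.log_nonneg (by linarith)
  refine SW.norm_L_le (χ.sum_eq_zero_of_ne_one hχ) (le_two χ) (N := 4 * q) (by push_cast; linarith)
    (by linarith) ?_ (by simp; linarith)
  have : 0 ≤ 1 / (Real.log (4 * q) + 2) := by positivity
  simp only [one_re]
  linarith

theorem L_nonneg (hχ : χ ≠ 1) (h2 : χ ^ 2 = 1) {β : ℝ} (h1 : 1 / 2 ≤ β) (h3 : β ≤ 2)
    (h : ∀ x : ℝ, β ≤ x → x < 1 → χ.LFunction x ≠ 0) : 0 ≤ (χ.LFunction β).re := by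
  by_contra hc
  have hcont : Continuous fun x : ℝ => (χ.LFunction x).re :=
    continuous_re.comp ((differentiable_LFunction hχ).continuous.comp continuous_ofReal)
  have h4 := L_two χ
  obtain ⟨x, hx, hx0⟩ := intermediate_value_Icc h3 hcont.continuousOn
    (show (0 : ℝ) ∈ Set.Icc _ _ from ⟨(not_le.mp hc).le, by simp only [ofReal_ofNat]; linarith⟩)
  have h5 : χ.LFunction x = 0 := by
    rw [L_real hχ h2 (h1.trans hx.1)]
    simp only at hx0
    rw [hx0, ofReal_zero]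
  rcases lt_or_ge x 1 with h6 | h6
  · exact h x hx.1 h6 h5
  · exact LFunction_ne_zero_of_one_le_re χ (Or.inl hχ) (by simpa using h6) h5

end one

theorem zeta_neg : ∃ η : ℝ, 0 < η ∧ ∀ β g : ℝ, 1 - η ≤ β → β < 1 → 0 ≤ g →
    (riemannZeta β * g).re ≤ 0 := by
  have hc : Continuous fun x : ℝ => (riemannZeta₁ x).re :=
    continuous_re.comp (differentiable_riemannZeta₁.continuous.comp continuous_ofReal)
  have h1 : ∀ᶠ x : ℝ in 𝓝 1, 0 < (riemannZeta₁ x).re :=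
    (hc.tendsto 1).eventually (lt_mem_nhds (by simp))
  obtain ⟨δ, hδ, h2⟩ := Metric.eventually_nhds_iff.mp h1
  refine ⟨δ / 2, by positivity, fun β g h3 h4 hg => ?_⟩
  have h5 : 0 < (riemannZeta₁ β).re := h2 (by rw [Real.dist_eq, abs_lt]; constructor <;> linarith)
  have h6 : (β : ℂ) ≠ 1 := by exact_mod_cast h4.ne
  have e : riemannZeta β * g = (((β - 1)⁻¹ * g : ℝ) : ℂ) * riemannZeta₁ β := by
    rw [riemannZeta_eq_inv_sub_mul h6]
    push_cast
    ring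
  rw [e, re_ofReal_mul]
  have h7 : (β - 1)⁻¹ ≤ 0 := inv_nonpos.mpr (by linarith)
  exact mul_nonpos_of_nonpos_of_nonneg (mul_nonpos_of_nonpos_of_nonneg h7 hg) h5.le

theorem prod_ge {ε : ℝ} (hε : 0 < ε) : ∃ c : ℝ, 0 < c ∧ ∀ n : ℕ, 1 ≤ n →
    c * (n : ℝ) ^ (-ε) ≤ ∏ p ∈ n.primeFactors, (1 - (p : ℝ)⁻¹) := by
  obtain ⟨p0, hp0⟩ := exists_nat_ge ((2 : ℝ) ^ (1 / ε))
  refine ⟨(1 / 2) ^ p0, by positivity, fun n hn => ?_⟩
  have h1 : ∀ p ∈ n.primeFactors,
      (if p < p0 then (1 / 2 : ℝ) else 1) * (p : ℝ) ^ (-ε) ≤ 1 - (p : ℝ)⁻¹ := fun p hp => by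
    have h2 : (2 : ℝ) ≤ p := by exact_mod_cast (Nat.prime_of_mem_primeFactors hp).two_le
    have h3 : (p : ℝ)⁻¹ ≤ 1 / 2 := by
      rw [one_div]
      exact inv_anti₀ two_pos h2
    split_ifs with h
    · have : (p : ℝ) ^ (-ε) ≤ 1 := Real.rpow_le_one_of_one_le_of_nonpos (by linarith) (by linarith)
      linarith
    · have h4 : (2 : ℝ) ^ (1 / ε) ≤ p := hp0.trans (by exact_mod_cast not_lt.mp h)
      have h5 : (p : ℝ) ^ (-ε) ≤ ((2 : ℝ) ^ (1 / ε)) ^ (-ε) :=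
        Real.rpow_le_rpow_of_nonpos (by positivity) h4 (by linarith)
      rw [← Real.rpow_mul (by norm_num), show 1 / ε * -ε = -1 by field_simp,
        Real.rpow_neg_one] at h5
      linarith
  refine le_trans ?_ (prod_le_prod (fun p _ => by positivity) h1)
  rw [prod_mul_distrib]
  refine mul_le_mul ?_ ?_ (by positivity) (prod_nonneg fun p _ => by positivity)
  · rw [prod_ite, prod_const_one, mul_one, prod_const]
    refine pow_le_pow_of_le_one (by norm_num) (by norm_num) ?_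
    calc _ ≤ (range p0).card := card_le_card fun p hp => mem_range.mpr (mem_filter.mp hp).2
      _ = p0 := card_range _
  · rw [Real.finsetProd_rpow _ _ fun p _ => by positivity]
    refine Real.rpow_le_rpow_of_nonpos (prod_pos fun p hp => ?_) ?_ (by linarith)
    · exact_mod_cast Nat.pos_of_mem_primeFactors hp
    · rw [← Nat.cast_prod]
      exact_mod_cast Nat.le_of_dvd hn (Nat.prod_primeFactors_dvd n)

theorem euler_bounds {q : ℕ} (χ : DirichletCharacter ℂ q) (n : ℕ) :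
    ∏ p ∈ n.primeFactors, (1 - (p : ℝ)⁻¹) ≤ ‖∏ p ∈ n.primeFactors, (1 - χ p * (p : ℂ) ^ (-1 : ℂ))‖ ∧
    (∏ p ∈ n.primeFactors, (1 - (p : ℝ)⁻¹)) *
      ‖∏ p ∈ n.primeFactors, (1 - χ p * (p : ℂ) ^ (-1 : ℂ))‖ ≤ 1 := by
  have h1 : ∀ p ∈ n.primeFactors, 0 ≤ (p : ℝ)⁻¹ ∧ (p : ℝ)⁻¹ ≤ 1 ∧
      ‖χ p * (p : ℂ) ^ (-1 : ℂ)‖ ≤ (p : ℝ)⁻¹ := fun p hp => by
    have h2 : (1 : ℝ) ≤ p := by exact_mod_cast Nat.pos_of_mem_primeFactors hp
    refine ⟨by positivity, inv_le_one_of_one_le₀ h2, ?_⟩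
    rw [cpow_neg_one, norm_mul, norm_inv, norm_natCast]
    exact mul_le_of_le_one_left (by positivity) (χ.norm_le_one _)
  rw [norm_prod, ← prod_mul_distrib]
  refine ⟨prod_le_prod (fun p hp => by linarith [(h1 p hp).2.1]) fun p hp => ?_,
    prod_le_one (fun p hp => mul_nonneg (by linarith [(h1 p hp).2.1]) (norm_nonneg _))
      fun p hp => ?_⟩
  · have := norm_sub_norm_le (1 : ℂ) (χ p * (p : ℂ) ^ (-1 : ℂ))
    rw [norm_one] at this
    linarith [(h1 p hp).2.2]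
  · have := norm_sub_le (1 : ℂ) (χ p * (p : ℂ) ^ (-1 : ℂ))
    rw [norm_one] at this
    obtain ⟨a, b, c⟩ := h1 p hp
    nlinarith [norm_nonneg (1 - χ p * (p : ℂ) ^ (-1 : ℂ))]

section pair
variable {f₁ f₂ : ℕ} (χ₁ : DirichletCharacter ℂ f₁) (χ₂ : DirichletCharacter ℂ f₂)

/-- the product character -/
def pr : DirichletCharacter ℂ (f₁ * f₂) :=
  changeLevel (dvd_mul_right f₁ f₂) χ₁ * changeLevel (dvd_mul_left f₂ f₁) χ₂

theorem pr_apply (n : ℕ) : pr χ₁ χ₂ n = χ₁ n * χ₂ n := by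
  by_cases h : n.Coprime (f₁ * f₂)
  · have h' : IsCoprime (n : ℤ) ((f₁ * f₂ : ℕ) : ℤ) := Nat.isCoprime_iff_coprime.mpr h
    have a1 := changeLevel_eq_cast_of_dvd' χ₁ (dvd_mul_right f₁ f₂) h'
    have a2 := changeLevel_eq_cast_of_dvd' χ₂ (dvd_mul_left f₂ f₁) h'
    simp only [Int.cast_natCast] at a1 a2
    rw [pr, MulChar.mul_apply, a1, a2]
  · rw [MulChar.map_nonunit _ (fun hu => h ((ZMod.isUnit_iff_coprime _ _).mp hu))]
    rw [Nat.coprime_mul_iff_right, not_and_or] at h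
    rcases h with h | h
    · rw [MulChar.map_nonunit χ₁ (fun hu => h ((ZMod.isUnit_iff_coprime _ _).mp hu)), zero_mul]
    · rw [MulChar.map_nonunit χ₂ (fun hu => h ((ZMod.isUnit_iff_coprime _ _).mp hu)), mul_zero]

variable {χ₁ χ₂}

theorem pr_sq (h1 : χ₁ ^ 2 = 1) (h2 : χ₂ ^ 2 = 1) : pr χ₁ χ₂ ^ 2 = 1 := by
  rw [pr, mul_pow, ← map_pow, ← map_pow, h1, h2, map_one, map_one, mul_one]

theorem same [NeZero f₁] [NeZero f₂] (h1 : χ₁ ≠ 1) (h2 : χ₂ ≠ 1) (hs : χ₂ ^ 2 = 1)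
    (h : pr χ₁ χ₂ = 1) :
    (∏ p ∈ (f₁ * f₂).primeFactors, (1 - (p : ℝ)⁻¹)) ^ 2 * ‖χ₁.LFunction 1‖ ≤
      ‖χ₂.LFunction 1‖ := by
  have h3 : changeLevel (dvd_mul_left f₂ f₁) χ₂ * changeLevel (dvd_mul_left f₂ f₁) χ₂ = 1 := by
    rw [← map_mul, ← sq, hs, map_one]
  have h4 : changeLevel (dvd_mul_right f₁ f₂) χ₁ = changeLevel (dvd_mul_left f₂ f₁) χ₂ :=
    mul_right_cancel (h.trans h3.symm)
  have a1 := LFunction_changeLevel (dvd_mul_right f₁ f₂) χ₁ (s := 1) (Or.inl h1)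
  have a2 := LFunction_changeLevel (dvd_mul_left f₂ f₁) χ₂ (s := 1) (Or.inl h2)
  rw [h4, a2] at a1
  have a3 := congrArg norm a1
  rw [norm_mul, norm_mul] at a3
  obtain ⟨b1, -⟩ := euler_bounds χ₁ (f₁ * f₂)
  obtain ⟨b2, b3⟩ := euler_bounds χ₂ (f₁ * f₂)
  have hP : 0 ≤ ∏ p ∈ (f₁ * f₂).primeFactors, (1 - (p : ℝ)⁻¹) := prod_nonneg fun p hp => by
    have h2 : (1 : ℝ) ≤ p := by exact_mod_cast Nat.pos_of_mem_primeFactors hp
    linarith [inv_le_one_of_one_le₀ h2]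
  generalize ∏ p ∈ (f₁ * f₂).primeFactors, (1 - (p : ℝ)⁻¹) = P at *
  generalize ‖∏ p ∈ (f₁ * f₂).primeFactors, (1 - χ₁ p * (p : ℂ) ^ (-1 : ℂ))‖ = A at *
  generalize ‖∏ p ∈ (f₁ * f₂).primeFactors, (1 - χ₂ p * (p : ℂ) ^ (-1 : ℂ))‖ = B at *
  calc P ^ 2 * ‖χ₁.LFunction 1‖ = P * (‖χ₁.LFunction 1‖ * P) := by ring
    _ ≤ P * (‖χ₁.LFunction 1‖ * A) := by gcongr
    _ = ‖χ₂.LFunction 1‖ * (P * B) := by rw [← a3]; ring
    _ ≤ _ := mul_le_of_le_one_right (norm_nonneg _) b3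

end pair

end SIEG

open SIEG

theorem sieg_main : CMStmt → ESTStmt → SIEGStmt := by
  rintro hCM ⟨c, hc, hE⟩ ε hε
  obtain ⟨η₀, hη₀, hz⟩ := zeta_neg
  obtain ⟨η, hη, hη1, hη2, hη3⟩ : ∃ η : ℝ, 0 < η ∧ η ≤ η₀ ∧ η ≤ 1 / 8 ∧ η ≤ ε / 16 :=
    ⟨min η₀ (min (1 / 8) (ε / 16)), by positivity, min_le_left _ _,
      (min_le_right _ _).trans (min_le_left _ _), (min_le_right _ _).trans (min_le_right _ _)⟩
  by_cases hA : ∃ (q₁ : ℕ) (_ : NeZero q₁) (χ₁ : DirichletCharacter ℂ q₁) (β : ℝ),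
      χ₁ ≠ 1 ∧ χ₁ ^ 2 = 1 ∧ 1 - η ≤ β ∧ β < 1 ∧ χ₁.LFunction β = 0
  · obtain ⟨q₁, _, χ₁, β, n1, s1, b1, b2, b3⟩ := hA
    obtain ⟨c', hc', hP⟩ := prod_ge (half_pos hε)
    have hq1 : (1 : ℝ) ≤ q₁ := by exact_mod_cast NeZero.pos q₁
    have hA0 : 0 < ‖χ₁.LFunction 1‖ := norm_pos_iff.mpr
      (LFunction_ne_zero_of_one_le_re χ₁ (Or.inl n1) (by simp))
    have hl : 0 ≤ Real.log (4 * q₁) := Real.log_nonneg (by linarith)
    obtain ⟨K, hK⟩ : ∃ K : ℝ, K = 27 * (Real.log (4 * q₁) + 2 + 2 / ε) := ⟨_, rfl⟩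
    have hK0 : 0 < K := by rw [hK]; positivity
    have hb : 0 < 1 - β := by linarith
    refine ⟨min (c * (1 - β) * (21 ^ 3 * (q₁ : ℝ) ^ 2) ^ (-(ε / 4)) / (‖χ₁.LFunction 1‖ * K))
      (c' ^ 2 * (q₁ : ℝ) ^ (-ε) * ‖χ₁.LFunction 1‖), by positivity, fun q _ χ n2 s2 => ?_⟩
    have hq : (1 : ℝ) ≤ q := by exact_mod_cast NeZero.pos q
    by_cases hpr : pr χ₁ χ = 1
    · refine le_trans ?_ (same n1 n2 s2 hpr)
      have h1 := hP (q₁ * q) (NeZero.pos (q₁ * q))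
      calc _ ≤ c' ^ 2 * (q₁ : ℝ) ^ (-ε) * ‖χ₁.LFunction 1‖ * (q : ℝ) ^ (-ε) := by
            gcongr
            exact min_le_right _ _
        _ = (c' * ((q₁ * q : ℕ) : ℝ) ^ (-(ε / 2))) ^ 2 * ‖χ₁.LFunction 1‖ := by
            rw [mul_pow, ← Real.rpow_natCast (_ ^ _) 2, ← Real.rpow_mul (by positivity),
              Nat.cast_mul, Real.mul_rpow (by positivity) (by positivity)]
            norm_num
            ring
        _ ≤ _ := by gcongr
    · have hLD := ((LD_char χ₁).mul (LD_char χ)).mul (LD_char (pr χ₁ χ))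
      have r1 := L_real n1 s1 (x := 2) (by norm_num)
      have r2 := L_real n2 s2 (x := 2) (by norm_num)
      have r3 := L_real hpr (pr_sq s1 s2) (x := 2) (by norm_num)
      rw [ofReal_ofNat] at r1 r2 r3
      have t1 := L_two χ₁
      have t2 := L_two χ
      have t3 := L_two (pr χ₁ χ)
      obtain ⟨a1, a2⟩ := alt hCM hLD (fun n => Λ n * (1 + (χ₁ n).re) * (1 + (χ n).re))
        (fun n => mul_nonneg (mul_nonneg ArithmeticFunction.vonMangoldt_nonneg
          (val_real s1 _).2) (val_real s2 _).2)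
        (fun n => by
          simp only [Pi.add_apply, pr_apply]
          push_cast
          rw [← (val_real s1 _).1, ← (val_real s2 _).1]
          ring)
        (g := (χ₁.LFunction 2).re * (χ.LFunction 2).re * ((pr χ₁ χ).LFunction 2).re)
        (by
          push_cast
          rw [← r1, ← r2, ← r3])
        (by
          calc (1 / 100 : ℝ) ≤ 1 / 4 * (1 / 4) * (1 / 4) := by norm_num
            _ ≤ _ := by gcongr)
      have hU : (1 : ℝ) ≤ 21 ^ 3 * (q₁ : ℝ) ^ 2 * (q : ℝ) ^ 2 := by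
        calc (1 : ℝ) ≤ 21 ^ 3 * 1 ^ 2 * 1 ^ 2 := by norm_num
          _ ≤ _ := by gcongr
      have h1 := hE _ (21 ^ 3 * (q₁ : ℝ) ^ 2 * (q : ℝ) ^ 2) β
        (((differentiable_LFunction n1).mul (differentiable_LFunction n2)).mul
          (differentiable_LFunction hpr)) hU (by linarith) b2
        (fun s hs => by
          have u1 := norm_ball n1 hs
          have u2 := norm_ball n2 hs
          have u3 := norm_ball hpr hs
          simp only [Pi.mul_apply, norm_mul]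
          calc _ ≤ 21 * (q₁ : ℝ) * (21 * q) * (21 * (q₁ * q : ℕ)) := by gcongr
            _ = _ := by push_cast; ring)
        a1 a2 (by simp [b3])
      simp only [Pi.mul_apply, norm_mul] at h1
      have h2 : ‖(pr χ₁ χ).LFunction 1‖ ≤ K * (q : ℝ) ^ (ε / 2) := by
        refine (L_one_le hpr).trans ?_
        have v1 := Real.log_le_rpow_div (x := q) (by positivity) (half_pos hε)
        have v2 : (1 : ℝ) ≤ (q : ℝ) ^ (ε / 2) := Real.one_le_rpow hq (by positivity)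
        rw [hK, Nat.cast_mul, ← mul_assoc, Real.log_mul (by positivity) (by positivity), mul_assoc]
        gcongr
        rw [show (q : ℝ) ^ (ε / 2) / (ε / 2) = 2 / ε * (q : ℝ) ^ (ε / 2) by field_simp] at v1
        nlinarith
      have h3 : (21 ^ 3 * (q₁ : ℝ) ^ 2) ^ (-(ε / 4)) * (q : ℝ) ^ (-(ε / 2)) ≤
          (21 ^ 3 * (q₁ : ℝ) ^ 2 * (q : ℝ) ^ 2) ^ (-(4 * (1 - β))) := by
        refine le_trans (le_of_eq ?_)
          (Real.rpow_le_rpow_of_exponent_le hU (show -(ε / 4) ≤ _ by linarith))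
        rw [Real.mul_rpow (x := 21 ^ 3 * (q₁ : ℝ) ^ 2) (by positivity) (by positivity),
          ← Real.rpow_natCast (q : ℝ) 2, ← Real.rpow_mul (by positivity)]
        congr 2
        push_cast
        ring
      have h4 : (q : ℝ) ^ (-ε) * (q : ℝ) ^ (ε / 2) = (q : ℝ) ^ (-(ε / 2)) := by
        rw [← Real.rpow_add (by positivity)]
        congr 1
        ring
      have h5 : 0 < (q : ℝ) ^ (ε / 2) := by positivity
      refine le_trans (mul_le_mul_of_nonneg_right (min_le_left _ _) (by positivity)) ?_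
      rw [div_mul_eq_mul_div, div_le_iff₀ (by positivity)]
      refine le_of_mul_le_mul_right ?_ h5
      calc _ = c * (1 - β) * ((21 ^ 3 * (q₁ : ℝ) ^ 2) ^ (-(ε / 4)) * (q : ℝ) ^ (-(ε / 2))) := by
            rw [← h4]; ring
        _ ≤ c * (1 - β) * (21 ^ 3 * (q₁ : ℝ) ^ 2 * (q : ℝ) ^ 2) ^ (-(4 * (1 - β))) := by gcongr
        _ ≤ _ := h1
        _ ≤ ‖χ₁.LFunction 1‖ * ‖χ.LFunction 1‖ * (K * (q : ℝ) ^ (ε / 2)) := by gcongr
        _ = _ := by ring
  · refine ⟨c * η * 21 ^ (-ε), by positivity, fun q _ χ n2 s2 => ?_⟩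
    have hq : (1 : ℝ) ≤ q := by exact_mod_cast NeZero.pos q
    have r2 := L_real n2 s2 (x := 2) (by norm_num)
    rw [ofReal_ofNat] at r2
    obtain ⟨a1, a2⟩ := alt hCM (LD_char χ) (fun n => Λ n * (1 + (χ n).re))
      (fun n => mul_nonneg ArithmeticFunction.vonMangoldt_nonneg (val_real s2 _).2)
      (fun n => by
        push_cast
        rw [← (val_real s2 _).1]
        ring) r2 (by linarith [L_two χ])
    have h0 := L_nonneg n2 s2 (β := 1 - η) (by linarith) (by linarith)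
      fun x h1 h2 h3 => hA ⟨q, inferInstance, χ, x, n2, s2, h1, h2, h3⟩
    have hU : (1 : ℝ) ≤ 21 * q := by linarith
    have h1 := hE _ (21 * q) (1 - η) (differentiable_LFunction n2) hU (by linarith) (by linarith)
      (fun s hs => norm_ball n2 hs) a1 a2 (by
        rw [L_real n2 s2 (by linarith)]
        exact hz _ _ (by linarith) (by linarith) h0)
    refine le_trans ?_ h1
    rw [sub_sub_cancel, mul_assoc (c * η), ← Real.mul_rpow (by norm_num) (by positivity)]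
    exact mul_le_mul_of_nonneg_left
      (Real.rpow_le_rpow_of_exponent_le hU (by linarith)) (by positivity)

end Pool.Agent.MP_678834_nt.PW
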