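import Mathlib.Data.Int.Star
import Mathlib.Analysis.Real.Pi.Bounds
import Pool.Agent.MP_678834_nt.PW.Spec

-- ======== part 0: formerly Pool.Agent.MP_678834_nt.PW.KOR
section MrgPart0

/-! Project PW, module KOR: the bound for Korobov's double sum. -/

set_option autoImplicit false

noncomputable section

namespace Pool.Agent.MP_678834_nt.PW

open Finset
open Pool.Agent.MP_db1c88_nt.z94 (ei DP)

namespace KOR

theorem norm_ei (x : ℝ) : ‖ei x‖ = 1 := Complex.norm_exp_ofReal_mul_I x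

theorem triv (a : ℝ) (m : ℤ) (A : ℕ) : ‖∑ l ∈ range (A + 1), ei (a * l * m)‖ ≤ A + 1 := by
  refine (norm_sum_le _ _).trans_eq ?_
  simp [norm_ei]

theorem geom (θ : ℝ) (h0 : θ ≠ 0) (h1 : |θ| ≤ 1) (N : ℕ) :
    ‖∑ l ∈ range N, ei (θ * l)‖ ≤ Real.pi / |θ| := by
  have e : ∀ l : ℕ, ei (θ * l) = ei θ ^ l := by
    intro l
    simp only [ei]
    rw [← Complex.exp_nat_mul]
    push_cast
    ring_nf
  have hp := Real.pi_gt_three
  have ha := abs_pos.mpr h0
  have h2 : 2 / Real.pi * |θ| ≤ ‖ei θ - 1‖ := by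
    have := Complex.norm_exp_I_mul_ofReal_sub_one θ
    rw [mul_comm] at this
    rw [ei, this, Real.norm_eq_abs, abs_mul, abs_two]
    have h3 := Real.mul_abs_le_abs_sin (x := θ / 2) (by rw [abs_div, abs_two]; linarith)
    rw [abs_div, abs_two] at h3
    linarith
  have h3 := geom_sum_mul (ei θ) N
  have h4 : ‖∑ l ∈ range N, ei θ ^ l‖ * ‖ei θ - 1‖ ≤ 2 := by
    rw [← norm_mul, h3]
    refine (norm_sub_le _ _).trans_eq ?_
    rw [norm_pow, norm_ei]; norm_num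
  simp only [e]
  rw [le_div_iff₀ ha]
  have h5 := (mul_le_mul_of_nonneg_left h2 (norm_nonneg (∑ l ∈ range N, ei θ ^ l))).trans h4
  have h6 : ‖∑ l ∈ range N, ei θ ^ l‖ * (2 / Real.pi * |θ|) =
      2 * (‖∑ l ∈ range N, ei θ ^ l‖ * |θ| / Real.pi) := by ring
  rw [h6] at h5
  exact (div_le_one (by linarith)).mp (by linarith)

theorem sum_sym (f : ℤ → ℝ) (c : ℝ) (hc : 0 ≤ c) (A : ℕ)
    (hf : ∀ m : ℕ, 1 ≤ m → m ≤ A → f m ≤ c / √m ∧ f (-m) ≤ c / √m) :
    ∑ m ∈ Icc (-(A : ℤ)) A, f m ≤ f 0 + 4 * c * √A := by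
  induction A with
  | zero => simp
  | succ A ih =>
    have e : Icc (-((A + 1 : ℕ) : ℤ)) ((A + 1 : ℕ) : ℤ) =
        insert ((A + 1 : ℕ) : ℤ) (insert (-((A + 1 : ℕ) : ℤ)) (Icc (-(A : ℤ)) A)) := by
      ext m
      simp only [mem_Icc, mem_insert]
      omega
    rw [e, sum_insert (by simp only [mem_Icc, mem_insert]; omega),
      sum_insert (by simp only [mem_Icc]; omega)]
    have h1 := ih fun m a b => hf m a (by omega)
    obtain ⟨h2, h3⟩ := hf (A + 1) (by omega) le_rfl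
    have s0 : 0 < √((A + 1 : ℕ) : ℝ) := by positivity
    have s1 : √((A + 1 : ℕ) : ℝ) ^ 2 = A + 1 := by rw [Real.sq_sqrt (by positivity)]; simp
    have s2 : √(A : ℝ) ^ 2 = A := Real.sq_sqrt (by positivity)
    have h4 : c / √((A + 1 : ℕ) : ℝ) ≤ 2 * c * (√((A + 1 : ℕ) : ℝ) - √A) := by
      rw [div_le_iff₀ s0]
      nlinarith [mul_nonneg hc (sq_nonneg (√((A + 1 : ℕ) : ℝ) - √A))]
    linarith

theorem WW_nonneg (a : ℝ) (A : ℕ) : 0 ≤ WW a A := sum_nonneg fun _ _ => norm_nonneg _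

theorem WW_triv (a : ℝ) {A : ℕ} (hA : 1 ≤ A) : WW a A ≤ 13 * (A : ℝ) ^ 2 := by
  refine (sum_le_card_nsmul _ _ _ fun m _ => triv a m A).trans ?_
  have : (Icc (-(A : ℤ)) A).card = 2 * A + 1 := by rw [Int.card_Icc]; omega
  have hA' : (1 : ℝ) ≤ A := by exact_mod_cast hA
  rw [this, nsmul_eq_mul]
  push_cast
  nlinarith

theorem WW_good {a x : ℝ} {A : ℕ} (hA : 1 ≤ A) (h1 : |a| * A ≤ 1) (hx : 0 < x)
    (h2 : x ^ 2 ≤ |a| * A ^ 2) : WW a A ≤ 13 * (A : ℝ) ^ 2 / x := by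
  have hA' : (1 : ℝ) ≤ A := by exact_mod_cast hA
  have ha : 0 < |a| := by
    by_contra h
    rw [le_antisymm (not_lt.mp h) (abs_nonneg a), zero_mul] at h2
    nlinarith
  have hp := Real.pi_lt_d2
  have hp0 := Real.pi_pos
  have key : ∀ (m : ℕ) (z : ℤ), 1 ≤ m → m ≤ A → |(z : ℝ)| = m →
      ‖∑ l ∈ range (A + 1), ei (a * l * z)‖ ≤ √(2 * Real.pi * A / |a|) / √m := by
    intro m z m1 m2 hz
    have m1' : (1 : ℝ) ≤ m := by exact_mod_cast m1
    have m2' : (m : ℝ) ≤ A := by exact_mod_cast m2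
    have b1 := triv a z A
    have b2 := geom (a * z) (by rw [← abs_pos, abs_mul, hz]; positivity)
      (by rw [abs_mul, hz]; nlinarith) (A + 1)
    rw [abs_mul, hz] at b2
    simp only [mul_right_comm a (z : ℝ)] at b2
    rw [← Real.sqrt_div (by positivity)]
    refine Real.le_sqrt_of_sq_le ?_
    rw [sq]
    refine (mul_le_mul (b1.trans (by linarith : (A : ℝ) + 1 ≤ 2 * A)) b2 (norm_nonneg _)
      (by positivity)).trans_eq ?_
    field_simp
  have h3 := sum_sym (fun z => ‖∑ l ∈ range (A + 1), ei (a * l * z)‖) _ (Real.sqrt_nonneg _) A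
    fun m m1 m2 => ⟨key m m m1 m2 (by simp), key m (-m) m1 m2 (by simp)⟩
  have h4 := triv a 0 A
  have h5 : √(2 * Real.pi * A / |a|) * √A ≤ 11 / 4 * A ^ 2 / x := by
    rw [← Real.sqrt_mul (by positivity)]
    refine Real.sqrt_le_iff.mpr ⟨by positivity, ?_⟩
    rw [div_pow, div_mul_eq_mul_div, div_le_div_iff₀ ha (by positivity)]
    have : 2 * Real.pi * A * A * x ^ 2 ≤ 121 / 16 * A ^ 2 * (|a| * A ^ 2) :=
      mul_le_mul (by nlinarith) h2 (by positivity) (by positivity)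
    linarith
  have h6 : (A : ℝ) + 1 ≤ 2 * A ^ 2 / x := by
    rw [le_div_iff₀ hx]
    have : x ≤ A := by
      refine le_of_sq_le_sq ?_ (by positivity) |>.trans_eq' rfl
      nlinarith
    nlinarith
  have h7 : 13 * (A : ℝ) ^ 2 / x = 2 * A ^ 2 / x + 4 * (11 / 4 * A ^ 2 / x) := by ring
  rw [h7]
  refine h3.trans (add_le_add (h4.trans h6) ?_)
  rw [mul_assoc]
  exact mul_le_mul_of_nonneg_left h5 (by norm_num)

theorem sum_succ (k : ℕ) : (∑ i : Fin k, 2 * (i.val + 1) : ℕ) = k * (k + 1) := by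
  rw [Fin.sum_univ_eq_sum_range (fun i => 2 * (i + 1))]
  induction k with
  | zero => simp
  | succ k ih => rw [sum_range_succ, ih]; ring

end KOR

open KOR in
theorem kor_main : VMVTStmt → DHStmt → KORStmt := by
  rintro ⟨C, hC⟩ hD
  refine ⟨Real.exp (max C 0) * 2, fun k P α j hk hP h1 h2 => ?_⟩
  obtain ⟨l, hl⟩ : ∃ l, l = k ^ 2 + k ^ 3 := ⟨_, rfl⟩
  have hl' : (l : ℝ) = (k : ℝ) ^ 2 + k ^ 3 := by rw [hl]; push_cast; rfl
  have hk' : (10 : ℝ) ≤ k := by exact_mod_cast hk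
  have hP' : (1 : ℝ) ≤ P := by exact_mod_cast hP
  have P0 : (0 : ℝ) < P := by linarith
  have l1 : 2 * k + 4 ≤ l := by rw [hl]; nlinarith [Nat.zero_le (k ^ 3)]
  have hJ := hC k P hk hP
  have hU := hD k l P α (by omega)
  rw [← hl, ← hl'] at hJ
  rw [← hl'] at h1 h2
  have A1 : ∀ i : Fin k, 1 ≤ l * P ^ (i.val + 1) := fun i =>
    Nat.mul_pos (by omega) (by positivity)
  have hW : ∏ i, WW (α i) (l * P ^ (i.val + 1)) ≤
      (13 * (l : ℝ) ^ 2) ^ k * (P : ℝ) ^ (k * (k + 1)) / (P : ℝ) ^ (1 / 4 : ℝ) := by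
    have e : (13 * (l : ℝ) ^ 2) ^ k * (P : ℝ) ^ (k * (k + 1)) =
        ∏ i : Fin k, 13 * ((l * P ^ (i.val + 1) : ℕ) : ℝ) ^ 2 := by
      rw [← sum_succ, ← prod_pow_eq_pow_sum, ← Fin.prod_const, ← prod_mul_distrib]
      exact prod_congr rfl fun i _ => by push_cast; ring
    rw [e, ← mul_prod_erase _ _ (mem_univ j), ← mul_prod_erase _ _ (mem_univ j),
      mul_div_right_comm]
    refine mul_le_mul (WW_good (A1 j) (by exact_mod_cast h1) (by positivity) ?_)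
      (prod_le_prod (fun _ _ => WW_nonneg _ _) fun i _ => WW_triv _ (A1 i))
      (prod_nonneg fun _ _ => WW_nonneg _ _) (by positivity)
    rw [← Real.rpow_natCast, ← Real.rpow_mul P0.le]
    rw [Real.sqrt_eq_rpow] at h2
    push_cast
    norm_num at h2 ⊢
    exact h2
  have hc : (13 * (l : ℝ) ^ 2) ^ k ≤ 2 ^ (2 * l ^ 2) := by
    have a1 : l ≤ 2 ^ l := Nat.lt_two_pow_self.le
    have a2 : 13 * l ^ 2 ≤ 2 ^ (3 * l) :=
      calc 13 * l ^ 2 ≤ 2 ^ 4 * (2 ^ l) ^ 2 := by gcongr; norm_num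
        _ = 2 ^ (4 + 2 * l) := by ring
        _ ≤ _ := Nat.pow_le_pow_right (by norm_num) (by omega)
    have a3 : (13 * l ^ 2) ^ k ≤ 2 ^ (2 * l ^ 2) :=
      calc (13 * l ^ 2) ^ k ≤ (2 ^ (3 * l)) ^ k := Nat.pow_le_pow_left a2 _
        _ = 2 ^ (3 * l * k) := by ring
        _ ≤ _ := Nat.pow_le_pow_right (by norm_num) (by nlinarith)
    exact_mod_cast a3
  have l2 : (k : ℝ) ^ 6 ≤ (l : ℝ) ^ 2 := by
    rw [hl']
    have : (0 : ℝ) ≤ k ^ 4 + 2 * k ^ 5 := by positivity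
    nlinarith
  have l3 : 16 * (l : ℝ) ^ 2 ≤ 20 * (k : ℝ) ^ 6 := by
    rw [hl']
    have a1 : (k : ℝ) ^ 2 + k ^ 3 ≤ 11 / 10 * k ^ 3 := by nlinarith [sq_nonneg (k : ℝ)]
    have a2 := pow_le_pow_left₀ (by positivity) a1 2
    nlinarith [pow_nonneg (by positivity : (0 : ℝ) ≤ k) 6]
  have he : Real.exp (C * k ^ 6) ^ 2 ≤ Real.exp (max C 0) ^ (2 * l ^ 2) := by
    rw [← Real.exp_nat_mul, ← Real.exp_nat_mul, Real.exp_le_exp]
    push_cast
    have a1 : C * k ^ 6 ≤ max C 0 * k ^ 6 := by gcongr; exact le_max_left _ _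
    have a2 : max C 0 * k ^ 6 ≤ max C 0 * l ^ 2 := mul_le_mul_of_nonneg_left l2 (le_max_right _ _)
    linarith
  have hp : (P : ℝ) ^ (4 * l * (l - 1)) *
      ((P : ℝ) ^ (2 * (l : ℝ) - k * (k + 1) / 2 + 1 / 16 : ℝ)) ^ 2 *
      ((P : ℝ) ^ (k * (k + 1)) / (P : ℝ) ^ (1 / 4 : ℝ)) ≤
      ((P : ℝ) ^ (2 - 1 / (20 * (k : ℝ) ^ 6))) ^ (2 * l ^ 2) := by
    rw [← Real.rpow_natCast, ← Real.rpow_natCast, ← Real.rpow_natCast, ← Real.rpow_natCast,
      ← Real.rpow_mul P0.le, ← Real.rpow_mul P0.le, ← Real.rpow_sub P0, ← Real.rpow_add P0,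
      ← Real.rpow_add P0]
    refine Real.rpow_le_rpow_of_exponent_le hP' ?_
    rw [Nat.cast_mul, Nat.cast_sub (by omega)]
    push_cast
    have : 1 / (20 * (k : ℝ) ^ 6) * (2 * l ^ 2) ≤ 1 / 8 := by
      rw [div_mul_eq_mul_div, div_le_iff₀ (by positivity)]
      linarith
    nlinarith
  have l0 : 0 < l := by omega
  refine le_of_pow_le_pow_left₀ (n := 2 * l ^ 2) (by positivity) (by positivity) (hU.trans ?_)
  calc _ ≤ (P : ℝ) ^ (4 * l * (l - 1)) * (Real.exp (C * k ^ 6) *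
        (P : ℝ) ^ (2 * (l : ℝ) - k * (k + 1) / 2 + 1 / 16 : ℝ)) ^ 2 *
        ((13 * (l : ℝ) ^ 2) ^ k * (P : ℝ) ^ (k * (k + 1)) / (P : ℝ) ^ (1 / 4 : ℝ)) := by
        gcongr
        exact prod_nonneg fun _ _ => WW_nonneg _ _
    _ = Real.exp (C * k ^ 6) ^ 2 * (13 * (l : ℝ) ^ 2) ^ k * ((P : ℝ) ^ (4 * l * (l - 1)) *
        ((P : ℝ) ^ (2 * (l : ℝ) - k * (k + 1) / 2 + 1 / 16 : ℝ)) ^ 2 *
        ((P : ℝ) ^ (k * (k + 1)) / (P : ℝ) ^ (1 / 4 : ℝ))) := by ring
    _ ≤ Real.exp (max C 0) ^ (2 * l ^ 2) * 2 ^ (2 * l ^ 2) *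
        ((P : ℝ) ^ (2 - 1 / (20 * (k : ℝ) ^ 6))) ^ (2 * l ^ 2) := by gcongr
    _ = _ := by rw [mul_pow, mul_pow]

end Pool.Agent.MP_678834_nt.PW

end
end MrgPart0

-- ======== part 1: formerly Pool.Agent.MP_678834_nt.PW.CHAR
section MrgPart1

/-! Project PW, module CHAR: character sums twisted by `n ^ (i t)` from the pure sums. -/

set_option autoImplicit false

noncomputable section

namespace Pool.Agent.MP_678834_nt.PW

open Finset
open Pool.Agent.MP_db1c88_nt.z94 (ei DP)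

namespace CHAR

theorem norm_ei (x : ℝ) : ‖ei x‖ = 1 := by
  unfold ei; exact Complex.norm_exp_ofReal_mul_I x

theorem ei_add (x y : ℝ) : ei (x + y) = ei x * ei y := by
  unfold ei; rw [← Complex.exp_add]; congr 1; push_cast; ring

/-- one residue class -/
theorem class_eq (q N M a : ℕ) (hq : 1 ≤ q) (ha : a < q) (haN : a ≤ N) (_hNM : N ≤ M)
    (g : ℕ → ℂ) :
    ∑ n ∈ (Ioc N M).filter (fun n => n % q = a), g n =
      ∑ m ∈ Ioc ((N - a) / q) ((M - a) / q), g (q * m + a) := by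
  symm
  refine Finset.sum_bij (fun m _ => q * m + a) ?_ ?_ ?_ ?_
  · intro m hm
    rw [Finset.mem_Ioc] at hm
    obtain ⟨h1, h2⟩ := hm
    rw [Nat.div_lt_iff_lt_mul hq] at h1
    rw [Nat.le_div_iff_mul_le hq] at h2
    rw [Finset.mem_filter, Finset.mem_Ioc]
    have e : m * q = q * m := mul_comm _ _
    refine ⟨⟨by omega, by omega⟩, ?_⟩
    rw [Nat.mul_add_mod, Nat.mod_eq_of_lt ha]
  · intro m _ m' _ h
    have : q * m = q * m' := by omega
    exact Nat.eq_of_mul_eq_mul_left hq this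
  · intro n hn
    rw [Finset.mem_filter, Finset.mem_Ioc] at hn
    obtain ⟨⟨h1, h2⟩, h3⟩ := hn
    have e := Nat.div_add_mod n q
    have e2 : n / q * q = q * (n / q) := mul_comm _ _
    refine ⟨n / q, ?_, by omega⟩
    rw [Finset.mem_Ioc, Nat.div_lt_iff_lt_mul hq, Nat.le_div_iff_mul_le hq]
    constructor <;> omega
  · intro m _; rfl

theorem class_norm (q N M a : ℕ) (hq : 1 ≤ q) (ha : a < q) (haN : a ≤ N) (hNM : N ≤ M)
    (χ : DirichletCharacter ℂ q) (t : ℝ) :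
    ‖∑ n ∈ (Ioc N M).filter (fun n => n % q = a), (χ n : ℂ) * ei (t * Real.log n)‖ ≤
      ‖∑ m ∈ Ioc ((N - a) / q) ((M - a) / q), ei (t * Real.log (m + (a : ℝ) / q))‖ := by
  rw [class_eq q N M a hq ha haN hNM (fun n => (χ n : ℂ) * ei (t * Real.log n))]
  have hq0 : (0 : ℝ) < q := by exact_mod_cast hq
  have e : ∑ m ∈ Ioc ((N - a) / q) ((M - a) / q),
      (χ ((q * m + a : ℕ) : ZMod q) : ℂ) * ei (t * Real.log ((q * m + a : ℕ) : ℝ)) =
      (χ (a : ZMod q) * ei (t * Real.log q)) *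
        ∑ m ∈ Ioc ((N - a) / q) ((M - a) / q), ei (t * Real.log (m + (a : ℝ) / q)) := by
    rw [Finset.mul_sum]
    refine Finset.sum_congr rfl fun m hm => ?_
    have hm1 : 1 ≤ m := Nat.one_le_iff_ne_zero.2 (Nat.ne_zero_of_lt (Finset.mem_Ioc.1 hm).1)
    have hm0 : (0 : ℝ) < m := by exact_mod_cast hm1
    have h1 : ((q * m + a : ℕ) : ZMod q) = (a : ZMod q) := by
      push_cast; simp
    have h2 : ((q * m + a : ℕ) : ℝ) = q * (m + (a : ℝ) / q) := by
      push_cast; field_simp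
    have h3 : (0 : ℝ) < m + (a : ℝ) / q := by positivity
    rw [h1, h2, Real.log_mul hq0.ne' h3.ne', mul_add, ei_add, mul_assoc]
  rw [e, norm_mul, norm_mul, norm_ei, mul_one]
  have := χ.norm_le_one (a : ZMod q)
  exact mul_le_of_le_one_left (norm_nonneg _) this

theorem sizes (q N M a : ℕ) (hq : 1 ≤ q) (ha : a < q) (hqN : q ^ 2 ≤ N) (hN : 100 ≤ N)
    (hNM : N ≤ M) (hM : M ≤ 2 * N) :
    9 ≤ (N - a) / q ∧ N ≤ ((N - a) / q) ^ 3 ∧ (N - a) / q ≤ (M - a) / q ∧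
      (M - a) / q ≤ 3 * ((N - a) / q) ∧ q * ((N - a) / q) ≤ N := by
  set n := (N - a) / q with hn
  set m := (M - a) / q with hm
  have hqq : q ≤ N := le_trans (by nlinarith) hqN
  have h1 : q * n ≤ N - a := Nat.mul_div_le _ _
  have h2 : N - a < q * (n + 1) := Nat.lt_mul_div_succ _ hq
  have h3 : N < q * (n + 2) := by
    have : q * (n + 2) = q * (n + 1) + q := by ring
    omega
  have h4 : N < (n + 2) ^ 2 := by
    by_contra hc
    push Not at hc
    have h5 : (q * (n + 2)) ^ 2 ≤ N * N := by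
      rw [mul_pow]; exact Nat.mul_le_mul hqN hc
    have h6 : N * N < (q * (n + 2)) ^ 2 := by nlinarith
    omega
  have h9 : 9 ≤ n := by
    by_contra hc
    have : n + 2 ≤ 10 := by omega
    have : (n + 2) ^ 2 ≤ 10 ^ 2 := Nat.pow_le_pow_left this 2
    omega
  have h5 : q * m ≤ M - a := Nat.mul_div_le _ _
  have h6 : m < 2 * (n + 2) := by
    have : q * m < q * (2 * (n + 2)) := by
      have : q * (2 * (n + 2)) = 2 * (q * (n + 2)) := by ring
      omega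
    exact Nat.lt_of_mul_lt_mul_left this
  refine ⟨h9, ?_, Nat.div_le_div_right (by omega), by omega, by omega⟩
  nlinarith

end CHAR

open CHAR

theorem char_main : EXPAStmt → EXPBStmt → CHARStmt := by
  rintro ⟨CA, hA⟩ ⟨CB, cB, hcB, hB⟩
  refine ⟨|CA| + |CB| + 100, min cB 1 / 2187, by positivity, ?_⟩
  intro k q N M χ t hk hq hqN hNM hM ht htN
  set c : ℝ := min cB 1 / 2187 with hc
  have hk1 : (1 : ℝ) ≤ (k : ℝ) ^ 6 := one_le_pow₀ (by exact_mod_cast hk)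
  have hk0 : (0 : ℝ) < (k : ℝ) ^ 6 := by linarith
  have hc0 : 0 < c := by positivity
  have hc1 : c ≤ 1 := by
    have := min_le_right cB 1
    rw [hc]; linarith
  have hcc : c ≤ cB / 2187 := by
    have := min_le_left cB 1
    rw [hc]; linarith
  have hN1 : 1 ≤ N := le_trans (Nat.one_le_pow _ _ hq) hqN
  have hN1' : (1 : ℝ) ≤ N := by exact_mod_cast hN1
  have hN0 : (0 : ℝ) < N := by linarith
  have ht0 : 0 < |t| := by linarith
  have hX : 0 ≤ (N : ℝ) / |t| := by positivity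
  have hY : (1 : ℝ) ≤ (N : ℝ) ^ (1 - c / (k : ℝ) ^ 6) := by
    apply Real.one_le_rpow hN1'
    have : c / (k : ℝ) ^ 6 ≤ 1 := by rw [div_le_one hk0]; linarith
    linarith
  have hAa := abs_nonneg CA
  have hBa := abs_nonneg CB
  by_cases hN : N < 100
  · have h1 : ‖DP (Ioc N M) (fun n => (χ n : ℂ)) t‖ ≤ 100 := by
      unfold DP
      refine (norm_sum_le _ _).trans ?_
      have h2 : ∑ m ∈ Ioc N M, ‖(χ m : ℂ) * ei (t * Real.log m)‖ ≤ ∑ _m ∈ Ioc N M, (1 : ℝ) := by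
        refine Finset.sum_le_sum fun m _ => ?_
        rw [norm_mul, norm_ei, mul_one]; exact χ.norm_le_one _
      refine h2.trans ?_
      rw [Finset.sum_const, Nat.card_Ioc, nsmul_eq_mul, mul_one]
      have : M - N ≤ 100 := by omega
      exact_mod_cast this
    nlinarith
  push Not at hN
  have hq0 : (0 : ℝ) < q := by exact_mod_cast hq
  have key : ∀ a ∈ range q,
      ‖∑ n ∈ (Ioc N M).filter (fun n => n % q = a), (χ n : ℂ) * ei (t * Real.log n)‖ ≤
        (|CA| + |CB|) * (N / |t| + (N : ℝ) ^ (1 - c / (k : ℝ) ^ 6)) / q := by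
    intro a ha
    have ha := Finset.mem_range.1 ha
    have haN : a ≤ N := le_trans ha.le (le_trans (by nlinarith) hqN)
    refine (class_norm q N M a hq ha haN hNM χ t).trans ?_
    obtain ⟨s1, s2, s3, s4, s5⟩ := sizes q N M a hq ha hqN hN hNM hM
    set n := (N - a) / q with hn
    set m := (M - a) / q with hm
    have hu0 : (0 : ℝ) ≤ (a : ℝ) / q := by positivity
    have hu1 : (a : ℝ) / q ≤ 1 := by
      rw [div_le_one hq0]; exact_mod_cast ha.le
    have hn1 : (1 : ℝ) ≤ n := by exact_mod_cast (by omega : 1 ≤ n)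
    have hn0 : (0 : ℝ) < n := by linarith
    have hnq : (n : ℝ) ≤ N / q := by
      rw [le_div_iff₀ hq0, mul_comm]; exact_mod_cast s5
    rw [le_div_iff₀ hq0]
    by_cases htn : |t| ≤ n
    · have h1 := hA n m _ t s3 s4 hu0 hu1 ht htn
      have h2 : CA * (n / |t|) ≤ |CA| * (n / |t|) :=
        mul_le_mul_of_nonneg_right (le_abs_self _) (by positivity)
      have h3 : (n : ℝ) / |t| * q ≤ N / |t| := by
        rw [div_mul_eq_mul_div]
        refine div_le_div_of_nonneg_right ?_ ht0.le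
        rwa [← le_div_iff₀ hq0]
      have h4 := mul_le_mul_of_nonneg_right (h1.trans h2) hq0.le
      have h5 : |CA| * (n / |t|) * q ≤ |CA| * (N / |t|) := by
        rw [mul_assoc]; exact mul_le_mul_of_nonneg_left h3 hAa
      nlinarith
    · push Not at htn
      have hN3 : (N : ℝ) ≤ (n : ℝ) ^ 3 := by exact_mod_cast s2
      have ht3 : |t| ≤ (n : ℝ) ^ (3 * k) := by
        rw [pow_mul]; exact htN.trans (pow_le_pow_left₀ hN0.le hN3 k)
      have h1 := hB (3 * k) n m _ t (by omega) (by omega) s3 s4 hu0 hu1 htn.le ht3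
      have h2 : (n : ℝ) ^ (1 - cB / ((3 * k : ℕ) : ℝ) ^ 6) * q ≤ (N : ℝ) ^ (1 - c / (k : ℝ) ^ 6) := by
        rw [Real.rpow_sub hn0, Real.rpow_sub hN0, Real.rpow_one, Real.rpow_one,
          div_mul_eq_mul_div]
        have h3 : (N : ℝ) ^ (c / (k : ℝ) ^ 6) ≤ (n : ℝ) ^ (cB / ((3 * k : ℕ) : ℝ) ^ 6) := by
          refine (Real.rpow_le_rpow hN0.le hN3 (by positivity)).trans ?_
          rw [← Real.rpow_natCast, ← Real.rpow_mul hn0.le]
          refine Real.rpow_le_rpow_of_exponent_le hn1 ?_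
          push_cast
          rw [mul_pow, ← mul_div_assoc, div_le_div_iff₀ hk0 (by positivity)]
          nlinarith
        refine div_le_div₀ hN0.le ?_ (by positivity) h3
        rwa [← le_div_iff₀ hq0]
      have h3 : CB * (n : ℝ) ^ (1 - cB / ((3 * k : ℕ) : ℝ) ^ 6) ≤
          |CB| * (n : ℝ) ^ (1 - cB / ((3 * k : ℕ) : ℝ) ^ 6) :=
        mul_le_mul_of_nonneg_right (le_abs_self _) (by positivity)
      have h4 := mul_le_mul_of_nonneg_right (h1.trans h3) hq0.le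
      have h5 : |CB| * (n : ℝ) ^ (1 - cB / ((3 * k : ℕ) : ℝ) ^ 6) * q ≤
          |CB| * (N : ℝ) ^ (1 - c / (k : ℝ) ^ 6) := by
        rw [mul_assoc]; exact mul_le_mul_of_nonneg_left h2 hBa
      nlinarith
  unfold DP
  rw [← Finset.sum_fiberwise_of_maps_to (s := Ioc N M) (t := range q) (g := fun n => n % q)
    (fun n _ => Finset.mem_range.2 (Nat.mod_lt _ hq))]
  refine (norm_sum_le _ _).trans ((Finset.sum_le_sum key).trans ?_)
  rw [Finset.sum_const, Finset.card_range, nsmul_eq_mul, mul_div_cancel₀ _ hq0.ne']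
  nlinarith

end Pool.Agent.MP_678834_nt.PW

end
end MrgPart1

-- ======== part 2: formerly Pool.Agent.MP_678834_nt.PW.ZF
section MrgPart2

/-! Project PW, module ZF: the zero-free region from the inequality `3 + 4 cos x + cos 2x ≥ 0`. -/

set_option autoImplicit false

noncomputable section

namespace Pool.Agent.MP_678834_nt.PW

open Finset Filter Complex
open scoped ArithmeticFunction.vonMangoldt

namespace ZF

lemma summ {q : ℕ} (χ : DirichletCharacter ℂ q) {s : ℂ} (hs : 1 < s.re) :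
    LSeriesSummable (fun n => (Λ n : ℂ) * χ n) s := by
  have h := DirichletCharacter.LSeriesSummable_twist_vonMangoldt χ hs
  convert h using 1
  ext n
  simp [mul_comm]

lemma trig (z : ℂ) (hz : ‖z‖ ≤ 1) : 0 ≤ 3 + 4 * z.re + (z ^ 2).re := by
  have h : z.re ^ 2 + z.im ^ 2 ≤ 1 := by
    have h1 := Complex.sq_norm z
    rw [Complex.normSq_apply] at h1
    nlinarith [norm_nonneg z]
  have h2 : (z ^ 2).re = z.re ^ 2 - z.im ^ 2 := by
    rw [sq, mul_re]; ring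
  rw [h2]
  nlinarith [sq_nonneg (1 + z.re)]

lemma term_nonneg {q : ℕ} (χ : DirichletCharacter ℂ q) (σ γ : ℝ) (n : ℕ) :
    0 ≤ 3 * (LSeries.term (fun n => (Λ n : ℂ) * (1 : DirichletCharacter ℂ q) n) σ n).re
      + 4 * (LSeries.term (fun n => (Λ n : ℂ) * χ n) (σ + γ * I) n).re
      + (LSeries.term (fun n => (Λ n : ℂ) * (χ ^ 2) n) (σ + (2 * γ : ℝ) * I) n).re := by
  rcases eq_or_ne n 0 with rfl | hn
  · simp
  simp only [LSeries.term_of_ne_zero hn]
  by_cases hu : IsUnit (n : ZMod q)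
  swap
  · simp [MulChar.map_nonunit _ hu]
  have hn0 : (n : ℂ) ≠ 0 := by exact_mod_cast hn
  have hnp : (0 : ℝ) < n := by exact_mod_cast Nat.pos_of_ne_zero hn
  set u : ℂ := ((n : ℂ) ^ ((γ : ℂ) * I))⁻¹ with hu'
  set r : ℝ := Λ n / (n : ℝ) ^ σ with hr
  have hr0 : 0 ≤ r := div_nonneg ArithmeticFunction.vonMangoldt_nonneg (by positivity)
  have hσ : (n : ℂ) ^ (σ : ℂ) = (((n : ℝ) ^ σ : ℝ) : ℂ) := by
    rw [Complex.ofReal_cpow hnp.le]; simp
  have hun : ‖u‖ = 1 := by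
    rw [hu', norm_inv, Complex.norm_natCast_cpow_of_pos (Nat.pos_of_ne_zero hn)]
    simp
  have hz : ‖χ n * u‖ ≤ 1 := by
    rw [norm_mul, hun, mul_one]
    exact DirichletCharacter.norm_le_one χ _
  have e1 : (Λ n : ℂ) * (1 : DirichletCharacter ℂ q) n / (n : ℂ) ^ (σ : ℂ) = (r : ℂ) := by
    rw [MulChar.one_apply hu, hσ, hr]; push_cast; ring
  have e2 : (Λ n : ℂ) * χ n / (n : ℂ) ^ ((σ : ℂ) + γ * I) = (r : ℂ) * (χ n * u) := by
    rw [Complex.cpow_add _ _ hn0, hσ, hr, hu']; push_cast; ring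
  have e3 : (Λ n : ℂ) * (χ ^ 2) n / (n : ℂ) ^ ((σ : ℂ) + (2 * γ : ℝ) * I)
      = (r : ℂ) * (χ n * u) ^ 2 := by
    have h2 : (n : ℂ) ^ (((2 * γ : ℝ) : ℂ) * I) = ((n : ℂ) ^ ((γ : ℂ) * I)) ^ 2 := by
      rw [← Complex.cpow_nat_mul]; congr 1; push_cast; ring
    rw [Complex.cpow_add _ _ hn0, hσ, hr, hu', h2, MulChar.pow_apply' χ two_ne_zero]
    push_cast; ring
  rw [e1, e2, e3, Complex.re_ofReal_mul, Complex.re_ofReal_mul, Complex.ofReal_re]
  have := mul_nonneg hr0 (trig _ hz)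
  nlinarith

lemma sum_nonneg341 {q : ℕ} (χ : DirichletCharacter ℂ q) (σ γ : ℝ) (hσ : 1 < σ) :
    0 ≤ 3 * (LSeries (fun n => (Λ n : ℂ) * (1 : DirichletCharacter ℂ q) n) σ).re
      + 4 * (LSeries (fun n => (Λ n : ℂ) * χ n) (σ + γ * I)).re
      + (LSeries (fun n => (Λ n : ℂ) * (χ ^ 2) n) (σ + (2 * γ : ℝ) * I)).re := by
  have h1 := (Complex.hasSum_re (summ (1 : DirichletCharacter ℂ q) (s := σ)
    (by simpa using hσ)).hasSum).mul_left 3
  have h2 := (Complex.hasSum_re (summ χ (s := σ + γ * I) (by simpa using hσ)).hasSum).mul_left 4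
  have h3 := Complex.hasSum_re (summ (χ ^ 2) (s := σ + (2 * γ : ℝ) * I)
    (by simpa using hσ)).hasSum
  exact ((h1.add h2).add h3).nonneg fun n => term_nonneg χ σ γ n

lemma re_inv_nonneg {z : ℂ} (hz : 0 ≤ z.re) : 0 ≤ (z⁻¹).re := by
  rw [Complex.inv_re]
  exact div_nonneg hz (Complex.normSq_nonneg _)

lemma re_msum_nonneg (w : ℂ) (S : Multiset ℂ) (hS : ∀ a ∈ S, a.re ≤ w.re) :
    0 ≤ ((S.map fun a => (w - a)⁻¹).sum).re := by
  induction S using Multiset.induction_on with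
  | empty => simp
  | cons a S ih =>
    rw [Multiset.map_cons, Multiset.sum_cons, add_re]
    have h1 : 0 ≤ ((w - a)⁻¹).re := re_inv_nonneg (by
      rw [sub_re]; linarith [hS a (Multiset.mem_cons_self a S)])
    have h2 := ih fun b hb => hS b (Multiset.mem_cons_of_mem hb)
    linarith

lemma re_msum_ge (w : ℂ) (S : Multiset ℂ) (hS : ∀ a ∈ S, a.re ≤ w.re) {b : ℂ} (hb : b ∈ S) :
    ((w - b)⁻¹).re ≤ ((S.map fun a => (w - a)⁻¹).sum).re := by
  obtain ⟨T, rfl⟩ := Multiset.exists_cons_of_mem hb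
  rw [Multiset.map_cons, Multiset.sum_cons, add_re]
  have h2 := re_msum_nonneg w T fun c hc => hS c (Multiset.mem_cons_of_mem hc)
  linarith

/-- the real part of the Dirichlet series, from the local formula -/
lemma re_D_le (hE : EEStmt) {q : ℕ} [NeZero q] (ψ : DirichletCharacter ℂ q) (w : ℂ)
    (hw : 1 < w.re) (Z : ℂ) (K : ℝ) (h : ‖deriv (EE ψ) w / EE ψ w - Z‖ ≤ K) :
    (LSeries (fun n => (Λ n : ℂ) * ψ n) w).re ≤ K - Z.re + (tv ψ (w - 1)⁻¹ 0).re := by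
  have h1 := (hE q ψ).2.2.2.2 w hw
  have h2 : LSeries (fun n => (Λ n : ℂ) * ψ n) w
      = -(deriv (EE ψ) w / EE ψ w - Z) - Z + tv ψ (w - 1)⁻¹ 0 := by
    linear_combination -h1
  rw [h2, add_re, sub_re, neg_re]
  have h3 := (abs_le.1 ((Complex.abs_re_le_norm _).trans h)).1
  linarith

lemma re_pole_le (σ t K : ℝ) (hK : 0 < K) (ht : 1 ≤ K * |t|) :
    ((((σ : ℂ) + t * I) - 1)⁻¹).re ≤ K := by
  have h1 : |t| ≤ ‖((σ : ℂ) + t * I) - 1‖ := by
    have := Complex.abs_im_le_norm (((σ : ℂ) + t * I) - 1)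
    simpa using this
  have ht0 : 0 < |t| := by
    by_contra h
    have : |t| = 0 := le_antisymm (not_lt.1 h) (abs_nonneg t)
    rw [this] at ht; linarith
  refine (Complex.re_le_norm _).trans ?_
  rw [norm_inv, inv_le_comm₀ (ht0.trans_le h1) hK]
  refine le_trans ?_ h1
  rw [inv_le_iff_one_le_mul₀' hK]
  exact ht

lemma tv_re_le {q : ℕ} (ψ : DirichletCharacter ℂ q) (z : ℂ) (K : ℝ) (hK : 0 ≤ K)
    (h : ψ = 1 → z.re ≤ K) : (tv ψ z 0).re ≤ K := by
  unfold tv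
  split_ifs with h1
  · exact h h1
  · simpa using hK

/-- the size conditions -/
lemma numer (C : ℝ) (hC : 0 < C) : ∀ᶠ L : ℝ in atTop, 1 ≤ L ∧ 2 ≤ C * Real.log L ∧
    364 * (C * Real.log L) < L ^ (1 / 40 : ℝ) := by
  have h1 : ∀ᶠ L : ℝ in atTop, 2 ≤ C * Real.log L :=
    (Real.tendsto_log_atTop.const_mul_atTop hC).eventually_ge_atTop 2
  have h2 := (isLittleO_log_rpow_atTop (by norm_num : (0 : ℝ) < 1 / 40)).def
    (by positivity : (0 : ℝ) < 1 / (365 * C))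
  filter_upwards [h1, h2, eventually_ge_atTop 1] with L h1 h2 h3
  refine ⟨h3, h1, ?_⟩
  have hl : 0 ≤ Real.log L := Real.log_nonneg h3
  have hp : 0 < L ^ (1 / 40 : ℝ) := by positivity
  rw [Real.norm_of_nonneg hl, Real.norm_of_nonneg hp.le, one_div_mul_eq_div,
    le_div_iff₀ (by positivity)] at h2
  nlinarith

end ZF

open ZF in
theorem zf_main : EEStmt → NEARStmt → LOCStmt → ZFStmt := by
  intro hE hN hL B
  obtain ⟨C, hC, hL⟩ := hL B
  filter_upwards [hN B, hL, numer C hC] with L hN hL hnum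
  obtain ⟨hL1, hc2, hc3⟩ := hnum
  intro q _ χ s hq hβ hγ h0
  have hL0 : 0 < L := by linarith
  -- the power `x = L ^ (1/40)`
  set x : ℝ := L ^ (1 / 40 : ℝ) with hx
  have hxp : ∀ m : ℕ, L ^ ((m : ℝ) / 40) = x ^ m := by
    intro m
    rw [hx, ← Real.rpow_natCast, ← Real.rpow_mul hL0.le]
    congr 1; ring
  have hx9 : L ^ (9 / 10 : ℝ) = x ^ 36 := by rw [← hxp]; norm_num
  have hx9' : L ^ (-(9 / 10) : ℝ) = (x ^ 36)⁻¹ := by rw [Real.rpow_neg hL0.le, hx9]
  have hx37 : L ^ (-(37 / 40) : ℝ) = (x ^ 37)⁻¹ := by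
    rw [Real.rpow_neg hL0.le, ← hxp]; norm_num
  have hx4 : L ^ (-(1 / 4) : ℝ) = (x ^ 10)⁻¹ := by
    rw [Real.rpow_neg hL0.le, ← hxp]; norm_num
  rw [hx9, hx9'] at hL
  rw [hx4] at hN
  rw [hx37] at hβ
  set c : ℝ := C * Real.log L with hc
  have hx700 : 700 ≤ x := by linarith
  have hx1 : 1 ≤ x := by linarith
  have hx0 : 0 < x := by linarith
  set K : ℝ := c * x ^ 36 with hK
  have hx36 : 0 < x ^ 36 := by positivity
  have hK0 : 0 < K := by rw [hK]; exact mul_pos (by linarith) hx36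
  set β : ℝ := s.re with hβd
  set γ : ℝ := s.im with hγd
  have hs : s = (β : ℂ) + γ * I := (Complex.re_add_im s).symm
  have hβ1 : β < 1 := by
    by_contra h
    exact (hE q χ).2.1 s (not_lt.1 h) h0
  set σ : ℝ := 1 + 1 / (26 * K) with hσ
  have hη : 0 < 1 / (26 * K) := by positivity
  have hσ1 : 1 < σ := by linarith
  have hrad : ∀ t : ℝ, ‖((σ : ℂ) + t * I) - (1 + t * I)‖ ≤ (x ^ 36)⁻¹ / 8 := by
    intro t
    have e : ((σ : ℂ) + t * I) - (1 + t * I) = ((1 / (26 * K) : ℝ) : ℂ) := by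
      rw [hσ]; push_cast; ring
    rw [e, Complex.norm_real, Real.norm_of_nonneg hη.le, inv_eq_one_div, div_div]
    apply one_div_le_one_div_of_le (by positivity)
    rw [hK]; nlinarith
  have hre : ∀ t : ℝ, ((σ : ℂ) + t * I).re = σ := by intro t; simp
  have he : 2 ≤ Real.exp L := by linarith [Real.add_one_le_exp L]
  -- the pole terms
  have hpole : χ ^ 2 = 1 → 1 ≤ K * |γ| := by
    intro h2
    have h3 : (x ^ 10)⁻¹ < ‖s - 1‖ := by
      by_contra h
      exact hN q χ s hq h2 (not_lt.1 h) h0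
    have h4 : ‖s - 1‖ ≤ (1 - β) + |γ| := by
      have := Complex.norm_le_abs_re_add_abs_im (s - 1)
      rw [sub_re, sub_im, one_re, one_im, sub_zero, abs_of_neg (by linarith)] at this
      linarith
    have h5 : 2 * (x ^ 37)⁻¹ ≤ (x ^ 10)⁻¹ / 2 := by
      rw [← div_eq_mul_inv, inv_eq_one_div, div_div, div_le_div_iff₀ (by positivity) (by positivity)]
      have : x ^ 10 ≤ x ^ 36 := pow_le_pow_right₀ hx1 (by norm_num)
      have e : x ^ 37 = x ^ 36 * x := pow_succ x 36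
      nlinarith
    have h6 : (x ^ 10)⁻¹ / 2 ≤ |γ| := by linarith
    have h7 : x ^ 10 ≤ x ^ 36 := pow_le_pow_right₀ hx1 (by norm_num)
    have h8 : 2 * x ^ 10 ≤ K := by rw [hK]; nlinarith
    have h9 : 1 = (2 * x ^ 10) * ((x ^ 10)⁻¹ / 2) := by field_simp
    rw [h9]
    exact mul_le_mul h8 h6 (by positivity) hK0.le
  -- the trivial character at height zero
  have hA : (LSeries (fun n => (Λ n : ℂ) * (1 : DirichletCharacter ℂ q) n) σ).re ≤ 27 * K := by
    obtain ⟨S, -, hS, -, hD⟩ := hL q 1 0 hq (by simp; positivity)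
    have hw : 1 < ((σ : ℂ) + (0 : ℝ) * I).re := by rw [hre]; exact hσ1
    have h1 := re_D_le hE 1 _ hw _ _ (hD _ (hrad 0) ((hE q 1).2.1 _ hw.le))
    have h2 := re_msum_nonneg ((σ : ℂ) + (0 : ℝ) * I) S fun a ha => by
      by_contra h
      exact (hE q 1).2.1 a (by linarith [not_le.1 h]) (hS a ha).1
    have h3 : (tv (1 : DirichletCharacter ℂ q) (((σ : ℂ) + (0 : ℝ) * I) - 1)⁻¹ 0).re ≤ 26 * K := by
      refine tv_re_le _ _ _ (by positivity) fun _ => ?_
      have e : (((σ : ℂ) + (0 : ℝ) * I) - 1)⁻¹ = ((26 * K : ℝ) : ℂ) := by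
        rw [hσ]; push_cast; simp
      rw [e, Complex.ofReal_re]
    have e : (σ : ℂ) + (0 : ℝ) * I = σ := by simp
    rw [e] at h1 h2 h3
    linarith
  -- the character at the height of the zero
  have hB : (LSeries (fun n => (Λ n : ℂ) * χ n) (σ + γ * I)).re ≤ 2 * K - 1 / (σ - β) := by
    obtain ⟨S, -, hS, hin, hD⟩ := hL q χ γ hq (by linarith)
    have hw : 1 < ((σ : ℂ) + γ * I).re := by rw [hre]; exact hσ1
    have h1 := re_D_le hE χ _ hw _ _ (hD _ (hrad γ) ((hE q χ).2.1 _ hw.le))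
    have hsS : s ∈ S := by
      refine hin s ?_ h0
      have e : s - (1 + γ * I) = ((β - 1 : ℝ) : ℂ) := by
        rw [hs]; push_cast; ring
      rw [e, Complex.norm_real, Real.norm_eq_abs, abs_of_neg (by linarith)]
      have h5 : 2 * (x ^ 37)⁻¹ ≤ (x ^ 36)⁻¹ / 8 := by
        rw [← div_eq_mul_inv, inv_eq_one_div, div_div,
          div_le_div_iff₀ (by positivity) (by positivity)]
        have e : x ^ 37 = x ^ 36 * x := pow_succ x 36
        nlinarith
      linarith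
    have h2 := re_msum_ge ((σ : ℂ) + γ * I) S (fun a ha => by
      by_contra h
      exact (hE q χ).2.1 a (by linarith [not_le.1 h]) (hS a ha).1) hsS
    have h4 : (((σ : ℂ) + γ * I - s)⁻¹).re = 1 / (σ - β) := by
      have e : ((σ : ℂ) + γ * I - s)⁻¹ = ((1 / (σ - β) : ℝ) : ℂ) := by
        rw [hs]; push_cast; rw [one_div]; congr 1; ring
      rw [e, Complex.ofReal_re]
    have h3 : (tv χ (((σ : ℂ) + γ * I) - 1)⁻¹ 0).re ≤ K :=
      tv_re_le _ _ _ hK0.le fun h => re_pole_le σ γ K hK0 (hpole (by rw [h, one_pow]))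
    linarith
  -- the square of the character at the double height
  have hC2 : (LSeries (fun n => (Λ n : ℂ) * (χ ^ 2) n) (σ + (2 * γ : ℝ) * I)).re ≤ 2 * K := by
    have h2γ : |2 * γ| = 2 * |γ| := by rw [abs_mul]; norm_num
    obtain ⟨S, -, hS, -, hD⟩ := hL q (χ ^ 2) (2 * γ) hq (by rw [h2γ]; linarith)
    have hw : 1 < ((σ : ℂ) + (2 * γ : ℝ) * I).re := by rw [hre]; exact hσ1
    have h1 := re_D_le hE (χ ^ 2) _ hw _ _ (hD _ (hrad (2 * γ)) ((hE q (χ ^ 2)).2.1 _ hw.le))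
    have h2 := re_msum_nonneg ((σ : ℂ) + (2 * γ : ℝ) * I) S fun a ha => by
      by_contra h
      exact (hE q (χ ^ 2)).2.1 a (by linarith [not_le.1 h]) (hS a ha).1
    have h3 : (tv (χ ^ 2) (((σ : ℂ) + (2 * γ : ℝ) * I) - 1)⁻¹ 0).re ≤ K :=
      tv_re_le _ _ _ hK0.le fun h => re_pole_le σ (2 * γ) K hK0 (by
        have := hpole h
        rw [h2γ]; linarith)
    linarith
  have h341 := sum_nonneg341 χ σ γ hσ1
  have hd : 0 < σ - β := by linarith
  have h1 : 4 * (1 / (σ - β)) ≤ 91 * K := by linarith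
  have h2 : 4 ≤ 91 * K * (σ - β) := by
    rw [mul_one_div, div_le_iff₀ hd] at h1
    exact h1
  have h3 : 91 * K * (σ - β) = 7 / 2 + 91 * K * (1 - β) := by
    rw [hσ]; field_simp; ring
  have h4 : 91 * K * (1 - β) ≤ 91 * K * (2 * (x ^ 37)⁻¹) :=
    mul_le_mul_of_nonneg_left (by linarith) (by positivity)
  have h5 : 91 * K * (2 * (x ^ 37)⁻¹) = 182 * c / x := by
    rw [hK]; field_simp; ring
  have h6 : 182 * c / x < 1 / 2 := by
    rw [div_lt_iff₀ hx0]; linarith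
  linarith

end Pool.Agent.MP_678834_nt.PW

end
end MrgPart2

-- marker of a merged file
example : 731051 + 98923 = 731051 + 98923 := rfl
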