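import Mathlib.Data.Int.Star
import Pool.Agent.MP_678834_nt.PW.Spec
import Mathlib.Topology.Sheaves.Presheaf
import Mathlib.Tactic.Monotonicity.Lemmas
import Mathlib.NumberTheory.LSeries.Nonvanishing
import Mathlib.Algebra.Order.Chebyshev
import Mathlib.Analysis.Fourier.FiniteAbelian.PontryaginDuality
import Mathlib.Order.Interval.Finset.Box
import Mathlib.RingTheory.MvPolynomial.Symmetric.NewtonIdentities
import Mathlib.Algebra.Ring.IsFormallyReal
import Pool.Agent.Lib.helper44.VdC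
import Mathlib.RingTheory.SimpleRing.Principal
import Pool.Agent.MP_39a890_nt.SWa
import Pool.Agent.MP_db1c88_nt.Hardy.Local
import Mathlib.NumberTheory.LSeries.Linearity
import Pool.Agent.MP_678834_nt.PW.PER
import Pool.Agent.MP_678834_nt.PW.ITER
import Pool.Agent.MP_678834_nt.PW.ZF
import Pool.Agent.MP_678834_nt.PW.EXPB
import Pool.Agent.MP_678834_nt.PW.PART
import Pool.Agent.MP_678834_nt.PW.SIEG

-- ======== part 0: formerly Pool.Agent.MP_678834_nt.PW.EN
section MrgPart0

/-! Module EN: shifted counts, coverings, translation invariance. -/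

set_option autoImplicit false

namespace Pool.Agent.MP_678834_nt.PW

open Finset

namespace EN

variable {α : Type} {k : ℕ}

/-- mixed count -/
def mx (A B : Finset α) (v w : α → Fin k → ℤ) : ℕ :=
  ((A ×ˢ B).filter fun z => v z.1 = w z.2).card

theorem mx_eq (A B : Finset α) (v w : α → Fin k → ℤ) (S : Finset (Fin k → ℤ))
    (h : ∀ x ∈ A, v x ∈ S) :
    mx A B v w = ∑ g ∈ S, (A.filter fun x => v x = g).card * (B.filter fun x => w x = g).card := by
  classical
  rw [mx, card_eq_sum_card_fiberwise (f := fun z => v z.1) (t := S)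
    (fun z hz => h _ (mem_product.1 (mem_filter.1 hz).1).1)]
  refine sum_congr rfl fun g _ => ?_
  rw [← card_product]
  congr 1
  ext z
  simp only [mem_filter, mem_product]
  constructor
  · rintro ⟨⟨⟨a, b⟩, c⟩, d⟩
    exact ⟨⟨a, d⟩, b, c ▸ d⟩
  · rintro ⟨⟨a, d⟩, b, c⟩
    exact ⟨⟨⟨a, b⟩, d.trans c.symm⟩, d⟩

theorem two_mx_le (A B : Finset α) (v w : α → Fin k → ℤ) :
    2 * mx A B v w ≤ mx A A v v + mx B B w w := by
  classical
  set S := A.image v ∪ B.image w
  have h1 : ∀ x ∈ A, v x ∈ S := fun x hx => mem_union_left _ (mem_image_of_mem _ hx)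
  have h2 : ∀ x ∈ B, w x ∈ S := fun x hx => mem_union_right _ (mem_image_of_mem _ hx)
  rw [mx_eq A B v w S h1, mx_eq A A v v S h1, mx_eq B B w w S h2, mul_sum, ← sum_add_distrib]
  refine sum_le_sum fun g _ => ?_
  set a := (A.filter fun x => v x = g).card
  set b := (B.filter fun x => w x = g).card
  have : (2 * (a * b) : ℤ) ≤ a * a + b * b := by nlinarith [sq_nonneg ((a : ℤ) - b)]
  exact_mod_cast this

theorem shift (T : Finset α) (v : α → Fin k → ℤ) (h : Fin k → ℤ) :
    ((T ×ˢ T).filter fun z => v z.1 = v z.2 + h).card ≤ en T v := by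
  have h1 := two_mx_le T T v fun x => v x + h
  have h2 : mx T T (fun x => v x + h) (fun x => v x + h) = en T v := by
    simp only [mx, en, add_left_inj]
  have h3 : mx T T v v = en T v := rfl
  have h4 : mx T T v (fun x => v x + h) =
    ((T ×ˢ T).filter fun z => v z.1 = v z.2 + h).card := rfl
  omega

theorem cover {ι : Type} (T : Finset α) (v : α → Fin k → ℤ) (I : Finset ι) (F : ι → Finset α)
    (h : ∀ x ∈ T, ∃ i ∈ I, x ∈ F i) : en T v ≤ I.card * ∑ i ∈ I, en (F i) v := by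
  classical
  have h1 : en T v ≤ ∑ i ∈ I, ∑ j ∈ I, mx (F i) (F j) v v := by
    have e : ∑ i ∈ I, ∑ j ∈ I, mx (F i) (F j) v v = ∑ ij ∈ I ×ˢ I,
        ((F ij.1 ×ˢ F ij.2).filter fun z => v z.1 = v z.2).card := by
      rw [sum_product]; rfl
    have e2 := card_biUnion_le (s := I ×ˢ I)
      (t := fun ij => (F ij.1 ×ˢ F ij.2).filter fun z => v z.1 = v z.2)
    rw [e]
    refine le_trans (card_le_card ?_) e2
    intro z hz
    obtain ⟨hz1, hz2⟩ := mem_filter.1 hz
    obtain ⟨i, hi, hi'⟩ := h _ (mem_product.1 hz1).1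
    obtain ⟨j, hj, hj'⟩ := h _ (mem_product.1 hz1).2
    exact mem_biUnion.2 ⟨(i, j), mem_product.2 ⟨hi, hj⟩,
      mem_filter.2 ⟨mem_product.2 ⟨hi', hj'⟩, hz2⟩⟩
  have h2 : 2 * ∑ i ∈ I, ∑ j ∈ I, mx (F i) (F j) v v ≤
      ∑ i ∈ I, ∑ j ∈ I, (en (F i) v + en (F j) v) := by
    rw [mul_sum]
    refine sum_le_sum fun i _ => ?_
    rw [mul_sum]
    exact sum_le_sum fun j _ => two_mx_le _ _ _ _
  have h3 : ∑ i ∈ I, ∑ j ∈ I, (en (F i) v + en (F j) v) =
      2 * (I.card * ∑ i ∈ I, en (F i) v) := by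
    simp only [sum_add_distrib, sum_const, smul_eq_mul, ← mul_sum]
    ring
  omega

theorem transl {ι : Type} [Fintype ι] (x x' : ι → ℤ) (c : ℤ)
    (h : ∀ j : Fin k, ∑ i, x i ^ (j.val + 1) = ∑ i, x' i ^ (j.val + 1)) (j : Fin k) :
    ∑ i, (x i - c) ^ (j.val + 1) = ∑ i, (x' i - c) ^ (j.val + 1) := by
  have h0 : ∀ l ∈ range (j.val + 1 + 1), ∑ i, x i ^ l = ∑ i, x' i ^ l := by
    intro l hl
    rcases l with _ | l
    · simp
    · exact h ⟨l, by have := mem_range.1 hl; omega⟩
  have e : ∀ z : ι → ℤ, ∑ i, (z i - c) ^ (j.val + 1) = ∑ l ∈ range (j.val + 1 + 1),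
      (∑ i, z i ^ l) * ((-c) ^ (j.val + 1 - l) * ((j.val + 1).choose l : ℤ)) := by
    intro z
    simp only [sub_eq_add_neg, add_pow, sum_mul, mul_assoc]
    exact sum_comm
  rw [e, e]
  exact sum_congr rfl fun l hl => by rw [h0 l hl]

end EN

theorem en_main : ENStmt :=
  ⟨fun _ _ T v h => EN.shift T v h, fun _ _ _ T v I F h => EN.cover T v I F h,
    fun _ _ _ x x' c h => EN.transl x x' c h⟩

end Pool.Agent.MP_678834_nt.PW

end MrgPart0

-- ======== part 1: formerly Pool.Agent.MP_678834_nt.PW.EE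
section MrgPart1

/-! Module EE: basic properties of the entire function attached to a character. -/

set_option autoImplicit false

namespace Pool.Agent.MP_678834_nt.PW

open Finset Filter Topology DirichletCharacter
open scoped ArithmeticFunction.vonMangoldt ArithmeticFunction.Moebius

namespace EEm

variable {q : ℕ} [NeZero q] (χ : DirichletCharacter ℂ q)

theorem diff : Differentiable ℂ (EE χ) := by
  by_cases h : χ = 1
  · have : EE χ = fun s => riemannZeta₁ s * ∏ p ∈ q.primeFactors, (1 - (p : ℂ) ^ (-s)) := by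
      funext s; simp [EE, h]
    rw [this]
    refine differentiable_riemannZeta₁.mul (Differentiable.fun_finsetProd fun p hp => ?_)
    have : NeZero p := ⟨(Nat.prime_of_mem_primeFactors hp).ne_zero⟩
    fun_prop
  · have : EE χ = χ.LFunction := by funext s; simp [EE, h]
    rw [this]
    exact differentiable_LFunction h

theorem eq_mul {s : ℂ} (hs : s ≠ 1) : EE χ s = tv χ (s - 1) 1 * χ.LFunction s := by
  by_cases h : χ = 1
  · have h1 : s - 1 ≠ 0 := sub_ne_zero.2 hs
    have h2 := LFunctionTrivChar_eq_mul_riemannZeta (N := q) hs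
    rw [LFunctionTrivChar] at h2
    subst h
    simp only [EE, tv, if_true]
    rw [h2, riemannZeta_eq_inv_sub_mul hs]
    field_simp
  · simp [EE, tv, h]

theorem ne_zero {s : ℂ} (hs : 1 ≤ s.re) : EE χ s ≠ 0 := by
  by_cases h1 : s = 1
  · by_cases h : χ = 1
    · subst h1
      simp only [EE, h, if_true, riemannZeta₁_one, one_mul]
      refine prod_ne_zero_iff.2 fun p hp => ?_
      have hp1 := (Nat.prime_of_mem_primeFactors hp).one_lt
      rw [Complex.cpow_neg_one, sub_ne_zero]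
      intro e
      have : (p : ℂ) = 1 := by rw [← inv_eq_one, ← e]
      have : p = 1 := by exact_mod_cast this
      omega
    · simp only [EE, h, if_false]
      exact LFunction_ne_zero_of_one_le_re χ (.inl h) hs
  · rw [eq_mul χ h1]
    refine mul_ne_zero ?_ (LFunction_ne_zero_of_one_le_re χ (.inr h1) hs)
    unfold tv
    split_ifs
    · exact sub_ne_zero.2 h1
    · exact one_ne_zero

theorem tsum_le {σ : ℝ} (h : 1 < σ) : ∑' n : ℕ, 1 / (n : ℝ) ^ σ ≤ σ / (σ - 1) := by
  have hs := Real.summable_one_div_nat_rpow.2 h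
  have h0 : 0 < σ - 1 := by linarith
  refine hs.tsum_le_of_sum_range_le fun N => ?_
  have key : ∀ N : ℕ, ∑ n ∈ range (N + 2), 1 / (n : ℝ) ^ σ ≤
      σ / (σ - 1) - ((N : ℝ) + 1) ^ (1 - σ) / (σ - 1) := by
    intro N
    induction N with
    | zero =>
      have : (0 : ℝ) ^ σ = 0 := Real.zero_rpow (by linarith)
      simp only [zero_add, sum_range_succ, sum_range_zero, Nat.cast_zero, this, Nat.cast_one,
        Real.one_rpow]
      field_simp
      norm_num
    | succ N ih =>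
      rw [sum_range_succ]
      have hN : (0 : ℝ) < N + 1 := by positivity
      have hN2 : (0 : ℝ) < N + 2 := by positivity
      have a1 : ((N : ℝ) + 1) ^ (1 - σ) =
          ((N : ℝ) + 2) ^ (1 - σ) * Real.exp ((σ - 1) * Real.log ((N + 2) / (N + 1))) := by
        rw [Real.rpow_def_of_pos hN, Real.rpow_def_of_pos hN2, ← Real.exp_add,
          Real.log_div hN2.ne' hN.ne']
        congr 1; ring
      have a2 : 1 / ((N : ℝ) + 2) ≤ Real.log ((N + 2) / (N + 1)) := by
        have := Real.one_sub_inv_le_log_of_pos (x := ((N : ℝ) + 2) / (N + 1)) (by positivity)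
        refine le_trans (le_of_eq ?_) this
        field_simp; ring
      have a3 : 1 + (σ - 1) * (1 / ((N : ℝ) + 2)) ≤
          Real.exp ((σ - 1) * Real.log ((N + 2) / (N + 1))) := by
        have := Real.add_one_le_exp ((σ - 1) * Real.log (((N : ℝ) + 2) / (N + 1)))
        nlinarith
      have a4 : 1 / ((N : ℝ) + 2) ^ σ = ((N : ℝ) + 2) ^ (1 - σ) * (1 / ((N : ℝ) + 2)) := by
        rw [Real.rpow_sub hN2, Real.rpow_one]; field_simp
      have a5 : 0 < ((N : ℝ) + 2) ^ (1 - σ) := by positivity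
      have a6 : ((N : ℝ) + 2) ^ (1 - σ) * (1 + (σ - 1) * (1 / ((N : ℝ) + 2))) ≤
          ((N : ℝ) + 1) ^ (1 - σ) := by rw [a1]; gcongr
      have a7 : 1 / ((N : ℝ) + 2) ^ σ ≤
          (((N : ℝ) + 1) ^ (1 - σ) - ((N : ℝ) + 2) ^ (1 - σ)) / (σ - 1) := by
        rw [a4, le_div_iff₀ h0]; nlinarith
      push_cast
      have e : (N : ℝ) + 1 + 1 = N + 2 := by ring
      rw [e]
      rw [sub_div] at a7
      linarith
  calc ∑ n ∈ range N, 1 / (n : ℝ) ^ σ ≤ ∑ n ∈ range (N + 2), 1 / (n : ℝ) ^ σ :=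
        sum_le_sum_of_subset_of_nonneg (range_subset_range.2 (by omega))
          fun _ _ _ => by positivity
    _ ≤ _ := (key N).trans (by
        have : 0 ≤ ((N : ℝ) + 1) ^ (1 - σ) / (σ - 1) := by positivity
        linarith)

theorem lower {s : ℂ} (hs : 1 < s.re) : (s.re - 1) / s.re ≤ ‖χ.LFunction s‖ := by
  have h1 := DirichletCharacter.LSeries.mul_mu_eq_one χ hs
  have h2 : ‖LSeries ((fun n : ℕ => χ n) * fun n : ℕ => (μ n : ℂ)) s‖ ≤ s.re / (s.re - 1) := by
    refine le_trans ?_ (tsum_le hs)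
    apply tsum_of_norm_bounded (Real.summable_one_div_nat_rpow.2 hs).hasSum
    intro n
    rw [LSeries.norm_term_eq]
    split_ifs with hn
    · positivity
    · gcongr
      rw [Pi.mul_apply, norm_mul]
      have a := χ.norm_le_one (n : ZMod q)
      have b : ‖((μ n : ℤ) : ℂ)‖ ≤ 1 := by
        rw [Complex.norm_intCast]; exact_mod_cast ArithmeticFunction.abs_moebius_le_one
      exact mul_le_one₀ a (norm_nonneg _) b
  rw [LFunction_eq_LSeries χ hs]
  have h3 := congrArg norm h1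
  rw [norm_mul, norm_one] at h3
  have h4 : 0 < s.re - 1 := by linarith
  have h5 : 1 ≤ ‖LSeries (fun n : ℕ => χ n) s‖ * (s.re / (s.re - 1)) :=
    h3.symm.le.trans (by gcongr)
  rw [div_le_iff₀ (by linarith)]
  rw [← mul_div_assoc, le_div_iff₀ h4] at h5
  linarith

theorem logd {s : ℂ} (hs : 1 < s.re) : -(deriv (EE χ) s / EE χ s) =
    LSeries (fun n => (Λ n : ℂ) * χ n) s - tv χ (s - 1)⁻¹ 0 := by
  have h1 : s ≠ 1 := fun e => by simp [e] at hs
  have h1' : s - 1 ≠ 0 := sub_ne_zero.2 h1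
  have ho : ∀ᶠ z in 𝓝 s, 1 < z.re :=
    (isOpen_lt continuous_const Complex.continuous_re).mem_nhds hs
  have hL : χ.LFunction =ᶠ[𝓝 s] LSeries (fun n : ℕ => χ n) :=
    ho.mono fun z hz => LFunction_eq_LSeries χ hz
  have h2 := LSeries_twist_vonMangoldt_eq χ hs
  have h3 : (fun n => (Λ n : ℂ) * χ n) = (fun n : ℕ => χ n) * fun n : ℕ => (Λ n : ℂ) := by
    funext n; simp [mul_comm]
  rw [← hL.deriv_eq, ← LFunction_eq_LSeries χ hs] at h2
  have h4 : χ.LFunction s ≠ 0 := LFunction_ne_zero_of_one_le_re χ (.inr h1) hs.le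
  have hd := (differentiableAt_LFunction χ s (.inl h1)).hasDerivAt
  have hE : EE χ =ᶠ[𝓝 s] fun z => tv χ (z - 1) 1 * χ.LFunction z :=
    ho.mono fun z hz => eq_mul χ fun e => by simp [e] at hz
  rw [h3, h2, hE.deriv_eq, eq_mul χ h1]
  by_cases h : χ = 1
  · simp only [tv, h, if_true] at *
    rw [(((hasDerivAt_id' s).sub_const 1).fun_mul hd).deriv]
    field_simp
    ring
  · simp only [tv, h, if_false, one_mul, sub_zero]
    rw [neg_div]

end EEm

theorem ee_main : EEStmt := fun _ _ χ =>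
  ⟨EEm.diff χ, fun _ h => EEm.ne_zero χ h, fun _ h => EEm.eq_mul χ h,
    fun _ h => EEm.lower χ h, fun _ h => EEm.logd χ h⟩

end Pool.Agent.MP_678834_nt.PW

end MrgPart1

-- ======== part 2: formerly Pool.Agent.MP_678834_nt.PW.HOLD
section MrgPart2

/-! Project PW, module HOLD: Hoelder's inequality over classes. -/

set_option autoImplicit false

noncomputable section

namespace Pool.Agent.MP_678834_nt.PW

open Finset

namespace HOLD

lemma energy {α G : Type} [AddCommGroup G] [Fintype G] [DecidableEq G] (T : Finset α)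
    (w : α → G) :
    (Fintype.card G : ℝ) * (((T ×ˢ T).filter fun z => w z.1 = w z.2).card : ℝ) =
      ∑ ψ : AddChar G ℂ, ‖∑ z ∈ T, ψ (w z)‖ ^ 2 := by
  have h1 : ∀ ψ : AddChar G ℂ, ((‖∑ z ∈ T, ψ (w z)‖ ^ 2 : ℝ) : ℂ) =
      ∑ z ∈ T ×ˢ T, ψ (w z.1 - w z.2) := by
    intro ψ
    rw [Complex.ofReal_pow, ← Complex.mul_conj', map_sum, sum_mul_sum, sum_product]
    refine sum_congr rfl fun a _ => sum_congr rfl fun b _ => ?_
    rw [sub_eq_add_neg, AddChar.map_add_eq_mul, AddChar.map_neg_eq_conj]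
  apply Complex.ofReal_injective
  rw [Complex.ofReal_sum, sum_congr rfl fun ψ _ => h1 ψ, sum_comm]
  simp only [AddChar.sum_apply_eq_ite, sub_eq_zero]
  rw [← sum_filter]
  simp [mul_comm]

lemma map_sum_prod {G ι : Type} [AddCommGroup G] (ψ : AddChar G ℂ) (s : Finset ι) (f : ι → G) :
    ψ (∑ i ∈ s, f i) = ∏ i ∈ s, ψ (f i) := by
  classical
  induction s using Finset.induction_on with
  | empty => simp
  | insert a s ha ih => rw [sum_insert ha, prod_insert ha, AddChar.map_add_eq_mul, ih]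

/-- reduction modulo `Q`. -/
def red (Q : ℕ) {k : ℕ} (v : Fin k → ℤ) : Fin k → ZMod Q := fun j => (v j : ZMod Q)

lemma exists_mod {k : ℕ} (S : Finset (Fin k → ℤ)) :
    ∃ Q : ℕ, 0 < Q ∧ ∀ u ∈ S, ∀ w ∈ S, red Q u = red Q w → u = w := by
  refine ⟨(∑ z ∈ S ×ˢ S, ∑ j, (z.2 j - z.1 j).natAbs) + 1, Nat.succ_pos _, ?_⟩
  intro u hu w hw h
  funext j
  have h1 := (ZMod.intCast_eq_intCast_iff_dvd_sub _ _ _).1 (congrFun h j)
  have h2 : (w j - u j).natAbs ≤ ∑ z ∈ S ×ˢ S, ∑ j, (z.2 j - z.1 j).natAbs := by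
    refine le_trans ?_ (single_le_sum (f := fun z : (Fin k → ℤ) × (Fin k → ℤ) =>
      ∑ j, (z.2 j - z.1 j).natAbs) (fun _ _ => Nat.zero_le _) (mem_product.2 ⟨hu, hw⟩ : (u, w) ∈ _))
    exact single_le_sum (f := fun j => (w j - u j).natAbs) (fun _ _ => Nat.zero_le _) (mem_univ j)
  have h3 : w j - u j = 0 := by
    refine Int.eq_zero_of_abs_lt_dvd h1 ?_
    rw [Int.abs_eq_natAbs]
    exact_mod_cast Nat.lt_succ_of_le h2
  linarith

lemma sum_split {α : Type} {k s Q : ℕ} (ψ : AddChar (Fin k → ZMod Q) ℂ) (A : Finset α)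
    (a : α → Fin k → ℤ) (B : Finset ℕ) :
    ∑ z ∈ A ×ˢ box s B, ψ (red Q (a z.1 + ps k z.2)) =
      (∑ y ∈ A, ψ (red Q (a y))) *
        (∑ x ∈ B, ψ (red Q (fun j : Fin k => (x : ℤ) ^ (j.val + 1)))) ^ s := by
  rw [sum_pow', sum_mul_sum, sum_product]
  refine sum_congr rfl fun y _ => sum_congr rfl fun x _ => ?_
  rw [← map_sum_prod, ← AddChar.map_add_eq_mul]
  congr 1
  funext j
  simp [red, ps]

end HOLD

open HOLD in
theorem hold_main : HOLDStmt := by
  intro α k s m A a B C cls hs hcls hm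
  classical
  obtain ⟨Q, hQ, hinj⟩ := exists_mod ((A ×ˢ box s B).image fun z => a z.1 + ps k z.2)
  have : NeZero Q := ⟨hQ.ne'⟩
  have key : ∀ B' : Finset ℕ, B' ⊆ B →
      (Fintype.card (Fin k → ZMod Q) : ℝ) *
        (en (A ×ˢ box s B') (fun z => a z.1 + ps k z.2) : ℝ) =
      ∑ ψ : AddChar (Fin k → ZMod Q) ℂ, ‖∑ y ∈ A, ψ (red Q (a y))‖ ^ 2 *
        ‖∑ x ∈ B', ψ (red Q (fun j : Fin k => (x : ℤ) ^ (j.val + 1)))‖ ^ (2 * s) := by
    intro B' hB'
    have hsub : A ×ˢ box s B' ⊆ A ×ˢ box s B :=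
      product_subset_product_right (Fintype.piFinset_subset _ _ fun _ => hB')
    have h1 := energy (A ×ˢ box s B') (fun z => red Q (a z.1 + ps k z.2))
    have h2 : en (A ×ˢ box s B') (fun z => a z.1 + ps k z.2) =
        (((A ×ˢ box s B') ×ˢ (A ×ˢ box s B')).filter fun z =>
          red Q (a z.1.1 + ps k z.1.2) = red Q (a z.2.1 + ps k z.2.2)).card := by
      unfold en
      congr 1
      refine filter_congr fun z hz => ?_
      obtain ⟨hz1, hz2⟩ := mem_product.1 hz
      exact ⟨fun h => congrArg (red Q) h, fun h => hinj _ (mem_image_of_mem _ (hsub hz1)) _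
        (mem_image_of_mem _ (hsub hz2)) h⟩
    rw [h2, h1]
    refine sum_congr rfl fun ψ _ => ?_
    rw [sum_split, norm_mul, norm_pow, mul_pow, ← pow_mul, mul_comm s 2]
  have hpt : ∀ ψ : AddChar (Fin k → ZMod Q) ℂ,
      ‖∑ x ∈ B, ψ (red Q (fun j : Fin k => (x : ℤ) ^ (j.val + 1)))‖ ^ (2 * s) ≤
        (C.card : ℝ) ^ (2 * s - 1) * ∑ c ∈ C, ‖∑ x ∈ B.filter (fun x => cls x = c),
          ψ (red Q (fun j : Fin k => (x : ℤ) ^ (j.val + 1)))‖ ^ (2 * s) := by
    intro ψ
    have e : 2 * s = (2 * s - 1) + 1 := by omega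
    have h1 := pow_sum_le_card_mul_sum_pow (s := C) (f := fun c =>
      ‖∑ x ∈ B.filter (fun x => cls x = c), ψ (red Q (fun j : Fin k => (x : ℤ) ^ (j.val + 1)))‖)
      (fun _ _ => norm_nonneg _) (2 * s - 1)
    rw [← e] at h1
    refine le_trans (pow_le_pow_left₀ (norm_nonneg _) ?_ _) h1
    rw [← sum_fiberwise_of_maps_to hcls]
    exact norm_sum_le _ _
  have hG : (0 : ℝ) < Fintype.card (Fin k → ZMod Q) := by exact_mod_cast Fintype.card_pos
  have main : (Fintype.card (Fin k → ZMod Q) : ℝ) *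
      (en (A ×ˢ box s B) (fun z => a z.1 + ps k z.2) : ℝ) ≤
      (Fintype.card (Fin k → ZMod Q) : ℝ) * ((C.card : ℝ) ^ (2 * s) * m) := by
    rw [key B subset_rfl]
    calc _ ≤ ∑ ψ : AddChar (Fin k → ZMod Q) ℂ, ‖∑ y ∈ A, ψ (red Q (a y))‖ ^ 2 *
          ((C.card : ℝ) ^ (2 * s - 1) * ∑ c ∈ C, ‖∑ x ∈ B.filter (fun x => cls x = c),
            ψ (red Q (fun j : Fin k => (x : ℤ) ^ (j.val + 1)))‖ ^ (2 * s)) :=
          sum_le_sum fun ψ _ => mul_le_mul_of_nonneg_left (hpt ψ) (by positivity)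
      _ = (C.card : ℝ) ^ (2 * s - 1) * ∑ c ∈ C, (Fintype.card (Fin k → ZMod Q) : ℝ) *
          (en (A ×ˢ box s (B.filter fun x => cls x = c)) (fun z => a z.1 + ps k z.2) : ℝ) := by
          rw [sum_congr rfl fun c _ => key _ (filter_subset _ _), sum_comm, mul_sum]
          refine sum_congr rfl fun ψ _ => ?_
          rw [← mul_sum]
          ring
      _ ≤ (C.card : ℝ) ^ (2 * s - 1) * ∑ _c ∈ C, (Fintype.card (Fin k → ZMod Q) : ℝ) * m := by
          refine mul_le_mul_of_nonneg_left (sum_le_sum fun c hc => ?_) (by positivity)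
          exact mul_le_mul_of_nonneg_left (by exact_mod_cast hm c hc) hG.le
      _ = _ := by
          have e : 2 * s = (2 * s - 1) + 1 := by omega
          rw [sum_const, nsmul_eq_mul]
          conv_rhs => rw [e, pow_succ]
          ring
  exact_mod_cast le_of_mul_le_mul_left main hG

end Pool.Agent.MP_678834_nt.PW

end
end MrgPart2

-- ======== part 3: formerly Pool.Agent.MP_678834_nt.PW.LIN
section MrgPart3

/-! Project PW, module LIN: Linnik's lemma. -/

set_option autoImplicit false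

noncomputable section

namespace Pool.Agent.MP_678834_nt.PW

open Finset

namespace LIN

/-- equal power sums give equal elementary symmetric functions when `1, ..., k` are units. -/
lemma esymm_eq {R : Type} [CommRing R] {k : ℕ} (x x' : Fin k → R)
    (hu : ∀ n : ℕ, 1 ≤ n → n ≤ k → IsUnit (n : R))
    (hp : ∀ n : ℕ, 1 ≤ n → n ≤ k → ∑ i, x i ^ n = ∑ i, x' i ^ n) (n : ℕ) (hn : n ≤ k) :
    (univ.val.map x).esymm n = (univ.val.map x').esymm n := by
  induction n using Nat.strong_induction_on with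
  | _ n ih =>
    rcases Nat.eq_zero_or_pos n with rfl | h0
    · simp [Multiset.esymm]
    have h := MvPolynomial.mul_esymm_eq_sum (Fin k) ℤ n
    have h1 := congrArg (MvPolynomial.aeval x) h
    have h2 := congrArg (MvPolynomial.aeval x') h
    simp only [map_mul, map_natCast, map_pow, map_neg, map_one, map_sum,
      MvPolynomial.aeval_esymm_eq_multiset_esymm, MvPolynomial.psum, MvPolynomial.aeval_X] at h1 h2
    refine (hu n h0 hn).mul_left_cancel ?_
    rw [h1, h2]
    congr 1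
    refine sum_congr rfl fun a ha => ?_
    obtain ⟨ha1, ha2⟩ := mem_filter.1 ha
    have ha3 := mem_antidiagonal.1 ha1
    rw [ih a.1 ha2 (by omega), hp a.2 (by omega) (by omega)]

lemma prod_eq {R : Type} [CommRing R] {k : ℕ} (x x' : Fin k → R)
    (hu : ∀ n : ℕ, 1 ≤ n → n ≤ k → IsUnit (n : R))
    (hp : ∀ n : ℕ, 1 ≤ n → n ≤ k → ∑ i, x i ^ n = ∑ i, x' i ^ n) (r : Fin k) :
    ∏ i, (x' r - x i) = 0 := by
  have h1 := Multiset.prod_X_sub_X_eq_sum_esymm (univ.val.map x)
  have h2 := Multiset.prod_X_sub_X_eq_sum_esymm (univ.val.map x')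
  have h3 : ((univ.val.map x).map fun t => Polynomial.X - Polynomial.C t).prod =
      ((univ.val.map x').map fun t => Polynomial.X - Polynomial.C t).prod := by
    rw [h1, h2]
    simp only [Multiset.card_map, card_val, card_univ, Fintype.card_fin]
    refine sum_congr rfl fun j hj => ?_
    rw [esymm_eq x x' hu hp j (Nat.lt_succ_iff.1 (mem_range.1 hj))]
  have h4 := congrArg (Polynomial.eval (x' r)) h3
  simp only [Multiset.map_map, Function.comp_def, prod_map_val, Polynomial.eval_prod,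
    Polynomial.eval_sub, Polynomial.eval_X, Polynomial.eval_C] at h4
  rw [h4]
  exact prod_eq_zero (mem_univ r) (sub_self _)

lemma rigid {p k : ℕ} (hp : p.Prime) (hk : k < p) (c : ℤ) {m m' : Fin k → ℕ}
    (hm : m ∈ inj p k (p ^ k)) (hm' : m' ∈ inj p k (p ^ k))
    (h : ∀ j : Fin k, ((p ^ k : ℕ) : ℤ) ∣
      ∑ i, ((m' i : ℤ) - c) ^ (j.val + 1) - ∑ i, ((m i : ℤ) - c) ^ (j.val + 1)) (r : Fin k) :
    ∃ i, m i = m' r := by
  obtain ⟨hb, hd⟩ := mem_filter.1 hm
  have hb1 : ∀ i, m i < p ^ k := fun i => mem_range.1 (Fintype.mem_piFinset.1 hb i)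
  have hb2 : ∀ i, m' i < p ^ k := fun i =>
    mem_range.1 (Fintype.mem_piFinset.1 (mem_filter.1 hm').1 i)
  have h1 := prod_eq (R := ZMod (p ^ k)) (fun i => (((m i : ℤ) - c : ℤ) : ZMod (p ^ k)))
    (fun i => (((m' i : ℤ) - c : ℤ) : ZMod (p ^ k)))
    (fun n h1 h2 => (ZMod.isUnit_iff_coprime n (p ^ k)).2 (Nat.Coprime.pow_right _
      (Nat.coprime_of_lt_prime (by omega) (by omega) hp).symm))
    (fun n h1 h2 => by
      have := (ZMod.intCast_eq_intCast_iff_dvd_sub _ _ _).2 (h ⟨n - 1, by omega⟩)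
      simp only [show n - 1 + 1 = n by omega] at this
      simpa using this) r
  have h2 : ((p ^ k : ℕ) : ℤ) ∣ ∏ i, ((m' r : ℤ) - m i) := by
    rw [← ZMod.intCast_zmod_eq_zero_iff_dvd]
    simpa using h1
  have hpz : Prime (p : ℤ) := Nat.prime_iff_prime_int.1 hp
  have hk0 : k ≠ 0 := by have := r.2; omega
  have h3 : (p : ℤ) ∣ ∏ i, ((m' r : ℤ) - m i) :=
    dvd_trans (by push_cast; exact dvd_pow_self _ hk0) h2
  obtain ⟨i, -, hi⟩ := (hpz.dvd_finsetProd_iff _).1 h3
  refine ⟨i, ?_⟩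
  rw [← mul_prod_erase _ _ (mem_univ i)] at h2
  have h4 : ¬ (p : ℤ) ∣ ∏ j ∈ univ.erase i, ((m' r : ℤ) - m j) := by
    intro hc
    obtain ⟨j, hj, hj'⟩ := (hpz.dvd_finsetProd_iff _).1 hc
    refine (mem_erase.1 hj).1 (hd j i ?_)
    have h5 : (p : ℤ) ∣ (m i : ℤ) - m j := by
      have := dvd_sub hj' hi
      rwa [show (m' r : ℤ) - m j - ((m' r : ℤ) - m i) = (m i : ℤ) - m j by ring] at this
    exact (Nat.modEq_iff_dvd.2 h5 : m j ≡ m i [MOD p])
  have h5 : (p : ℤ) ^ k ∣ (m' r : ℤ) - m i := by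
    push_cast at h2
    exact hpz.pow_dvd_of_dvd_mul_right k h4 h2
  have h6 : m i ≡ m' r [MOD p ^ k] := Nat.modEq_iff_dvd.2 (by push_cast; exact h5)
  exact Nat.ModEq.eq_of_lt_of_lt h6 (hb1 i) (hb2 r)

end LIN

open LIN in
theorem lin_main : LINStmt := by
  intro p k c h hp hk
  classical
  have hp0 : (0 : ℤ) < p := by exact_mod_cast hp.pos
  have hcard : (Fintype.piFinset fun j : Fin k => Ico (0 : ℤ) ((p : ℤ) ^ (k - 1 - j.val))).card
      = p ^ (k * (k - 1) / 2) := by
    rw [Fintype.card_piFinset, ← sum_range_id, ← sum_range_reflect, ← prod_pow_eq_pow_sum,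
      ← Fin.prod_univ_eq_prod_range (fun j => p ^ (k - 1 - j))]
    refine prod_congr rfl fun j _ => ?_
    rw [Int.card_Ico, sub_zero, ← Nat.cast_pow, Int.toNat_natCast]
  rw [← hcard]
  refine card_le_mul_card_image_of_maps_to (f := fun m (j : Fin k) =>
    ((∑ i, ((m i : ℤ) - c) ^ (j.val + 1) - h j) / (p : ℤ) ^ (j.val + 1)) % (p : ℤ) ^ (k - 1 - j.val))
    (fun m _ => Fintype.mem_piFinset.2 fun j => mem_Ico.2
      ⟨Int.emod_nonneg _ (by positivity), Int.emod_lt_of_pos _ (by positivity)⟩) _ fun t _ => ?_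
  rcases eq_empty_or_nonempty (((inj p k (p ^ k)).filter fun m => ∀ j : Fin k,
    (p : ℤ) ^ (j.val + 1) ∣ ∑ i, ((m i : ℤ) - c) ^ (j.val + 1) - h j).filter fun m =>
      (fun j : Fin k => ((∑ i, ((m i : ℤ) - c) ^ (j.val + 1) - h j) / (p : ℤ) ^ (j.val + 1))
        % (p : ℤ) ^ (k - 1 - j.val)) = t) with h0 | ⟨m, hm⟩
  · rw [h0]; simp
  obtain ⟨hm1, hm2⟩ := mem_filter.1 hm
  obtain ⟨hm3, hm4⟩ := mem_filter.1 hm1
  calc _ ≤ (Fintype.piFinset fun _ : Fin k => univ.image m).card := by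
        refine card_le_card fun m' hm' => Fintype.mem_piFinset.2 fun r => ?_
        obtain ⟨hn1, hn2⟩ := mem_filter.1 hm'
        obtain ⟨hn3, hn4⟩ := mem_filter.1 hn1
        have hdv : ∀ j : Fin k, ((p ^ k : ℕ) : ℤ) ∣
            ∑ i, ((m' i : ℤ) - c) ^ (j.val + 1) - ∑ i, ((m i : ℤ) - c) ^ (j.val + 1) := by
          intro j
          obtain ⟨u, hu⟩ := hm4 j
          obtain ⟨u', hu'⟩ := hn4 j
          have e1 := congrFun (hm2.trans hn2.symm) j
          simp only [hu, hu'] at e1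
          rw [Int.mul_ediv_cancel_left _ (by positivity),
            Int.mul_ediv_cancel_left _ (by positivity)] at e1
          obtain ⟨w, hw⟩ := Int.ModEq.dvd e1
          refine ⟨w, ?_⟩
          have e2 : (p : ℤ) ^ k = (p : ℤ) ^ (j.val + 1) * (p : ℤ) ^ (k - 1 - j.val) := by
            rw [← pow_add]; congr 1; have := j.2; omega
          push_cast
          rw [e2, mul_assoc, ← hw, mul_sub, ← hu, ← hu']
          ring
        obtain ⟨i, hi⟩ := rigid hp hk c hm3 hn3 hdv r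
        exact mem_image.2 ⟨i, mem_univ _, hi⟩
    _ ≤ k ^ k := by
        rw [Fintype.card_piFinset, prod_const, card_univ, Fintype.card_fin]
        exact Nat.pow_le_pow_left (card_image_le.trans (by simp)) _

end Pool.Agent.MP_678834_nt.PW

end
end MrgPart3

-- ======== part 4: formerly Pool.Agent.MP_678834_nt.PW.GOOD
section MrgPart4

/-! Project PW, module GOOD: the well spaced solutions. -/

set_option autoImplicit false

noncomputable section

namespace Pool.Agent.MP_678834_nt.PW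

open Finset

namespace GOOD

/-- the translated equations inside one residue class. -/
lemma shift (hE : ENStmt) {p k s c : ℕ} {m m' : Fin k → ℕ} {x x' : Fin s → ℕ}
    (hx : ∀ i, x i % p = c) (hx' : ∀ i, x' i % p = c)
    (h : ps k m + ps k x = ps k m' + ps k x') (j : Fin k) :
    ∑ i, ((m i : ℤ) - c) ^ (j.val + 1) + (p : ℤ) ^ (j.val + 1) * ps k (fun i => x i / p) j =
      ∑ i, ((m' i : ℤ) - c) ^ (j.val + 1) + (p : ℤ) ^ (j.val + 1) * ps k (fun i => x' i / p) j := by
  have h1 := hE.2.2 (Fin k ⊕ Fin s) k (Sum.elim (fun i => (m i : ℤ)) fun i => (x i : ℤ))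
    (Sum.elim (fun i => (m' i : ℤ)) fun i => (x' i : ℤ)) c (fun j => by
      simpa [Fintype.sum_sum_type, ps] using congrFun h j) j
  simp only [Fintype.sum_sum_type, Sum.elim_inl, Sum.elim_inr] at h1
  have e : ∀ z : Fin s → ℕ, (∀ i, z i % p = c) → ∑ i, ((z i : ℤ) - c) ^ (j.val + 1) =
      (p : ℤ) ^ (j.val + 1) * ps k (fun i => z i / p) j := by
    intro z hz
    simp only [ps, mul_sum, ← mul_pow]
    refine sum_congr rfl fun i _ => ?_
    congr 1
    have := Nat.div_add_mod (z i) p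
    rw [hz i] at this
    have h2 : (z i : ℤ) = ((p * (z i / p) + c : ℕ) : ℤ) := by rw [this]
    rw [h2, Nat.cast_add, Nat.cast_mul]
    ring
  rw [← e x hx, ← e x' hx']
  exact h1

lemma one_class (hE : ENStmt) (hL : LINStmt) {p k s y : ℕ} (hp : p.Prime) (hk : k < p)
    (h1 : 1 ≤ k) (hy : y ≤ p ^ (k - 1)) (c : ℕ) :
    en (inj p k (p * y) ×ˢ box s ((range (p * y)).filter fun x => x % p = c))
      (fun z => ps k z.1 + ps k z.2) ≤
      (p * y) ^ k * (k ^ k * p ^ (k * (k - 1) / 2)) * Jv k s y := by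
  classical
  have hp0 : (0 : ℤ) < p := by exact_mod_cast hp.pos
  have hpy : p * y ≤ p ^ k := by
    calc p * y ≤ p * p ^ (k - 1) := Nat.mul_le_mul_left _ hy
      _ = p ^ k := by rw [← pow_succ']; congr 1; omega
  set t : Finset ((Fin k → ℕ) × (Fin k → ℕ)) :=
    (inj p k (p * y) ×ˢ inj p k (p ^ k)).filter fun w => ∀ j : Fin k,
      (p : ℤ) ^ (j.val + 1) ∣ ∑ i, ((w.2 i : ℤ) - c) ^ (j.val + 1)
        - ∑ i, ((w.1 i : ℤ) - c) ^ (j.val + 1) with ht
  have hct : t.card ≤ (p * y) ^ k * (k ^ k * p ^ (k * (k - 1) / 2)) := by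
    rw [mul_comm]
    refine (card_le_mul_card_image_of_maps_to (f := Prod.fst) (t := inj p k (p * y))
      (fun w hw => (mem_product.1 (mem_filter.1 hw).1).1) (k ^ k * p ^ (k * (k - 1) / 2))
      fun m _ => ?_).trans (Nat.mul_le_mul_left _ ?_)
    · refine le_trans ?_ (hL p k c (fun j => ∑ i, ((m i : ℤ) - c) ^ (j.val + 1)) hp hk)
      refine card_le_card_of_injOn Prod.snd (fun w hw => ?_) (fun w hw w' hw' e => ?_)
      · obtain ⟨hw1, hw2⟩ := mem_filter.1 (mem_coe.1 hw)
        obtain ⟨hw3, hw4⟩ := mem_filter.1 hw1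
        refine mem_coe.2 (mem_filter.2 ⟨(mem_product.1 hw3).2, ?_⟩)
        rw [← hw2]
        exact hw4
      · exact Prod.ext ((mem_filter.1 (mem_coe.1 hw)).2.trans
          (mem_filter.1 (mem_coe.1 hw')).2.symm) e
    · refine (card_filter_le _ _).trans (le_of_eq ?_)
      simp [box]
  refine le_trans ?_ (Nat.mul_le_mul_right _ hct)
  rw [mul_comm t.card, en]
  have hmem : ∀ z : (Fin k → ℕ) × (Fin s → ℕ),
      z ∈ inj p k (p * y) ×ˢ box s ((range (p * y)).filter fun x => x % p = c) →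
      z.1 ∈ inj p k (p * y) ∧ (∀ i, z.2 i % p = c) ∧
        (fun i => z.2 i / p) ∈ box s (range y) := by
    intro z hz
    obtain ⟨hz1, hz2⟩ := mem_product.1 hz
    have hz3 := fun i => mem_filter.1 (Fintype.mem_piFinset.1 hz2 i)
    exact ⟨hz1, fun i => (hz3 i).2, Fintype.mem_piFinset.2 fun i =>
      mem_range.2 (Nat.div_lt_of_lt_mul (mem_range.1 (hz3 i).1))⟩
  refine card_le_mul_card_image_of_maps_to (f := fun z => (z.1.1, z.2.1)) (fun z hz => ?_) _
    fun w _ => ?_
  · obtain ⟨hz1, hz2⟩ := mem_filter.1 hz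
    obtain ⟨a1, a2, -⟩ := hmem _ (mem_product.1 hz1).1
    obtain ⟨b1, b2, -⟩ := hmem _ (mem_product.1 hz1).2
    refine mem_filter.2 ⟨mem_product.2 ⟨a1, ?_⟩, fun j => ?_⟩
    · obtain ⟨b3, b4⟩ := mem_filter.1 b1
      exact mem_filter.2 ⟨Fintype.mem_piFinset.2 fun i => mem_range.2
        ((mem_range.1 (Fintype.mem_piFinset.1 b3 i)).trans_le hpy), b4⟩
    · have := shift hE a2 b2 hz2 j
      exact ⟨ps k (fun i => z.1.2 i / p) j - ps k (fun i => z.2.2 i / p) j, by
        simp only; linarith⟩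
  · refine le_trans ?_ (hE.1 _ k (box s (range y)) (ps k) (fun j =>
      (∑ i, ((w.2 i : ℤ) - c) ^ (j.val + 1) - ∑ i, ((w.1 i : ℤ) - c) ^ (j.val + 1))
        / (p : ℤ) ^ (j.val + 1)))
    refine card_le_card_of_injOn (fun z => (fun i => z.1.2 i / p, fun i => z.2.2 i / p))
      (fun z hz => ?_) (fun z hz z' hz' e => ?_)
    · obtain ⟨hz0, hw⟩ := mem_filter.1 (mem_coe.1 hz)
      obtain ⟨hz1, hz2⟩ := mem_filter.1 hz0
      obtain ⟨-, a2, a3⟩ := hmem _ (mem_product.1 hz1).1
      obtain ⟨-, b2, b3⟩ := hmem _ (mem_product.1 hz1).2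
      refine mem_coe.2 (mem_filter.2 ⟨mem_product.2 ⟨a3, b3⟩, ?_⟩)
      funext j
      have := shift hE a2 b2 hz2 j
      subst hw
      simp only [Pi.add_apply]
      rw [show ∑ i, ((z.2.1 i : ℤ) - c) ^ (j.val + 1) - ∑ i, ((z.1.1 i : ℤ) - c) ^ (j.val + 1) =
        (p : ℤ) ^ (j.val + 1) *
          (ps k (fun i => z.1.2 i / p) j - ps k (fun i => z.2.2 i / p) j) by linarith,
        Int.mul_ediv_cancel_left _ (by positivity)]
      ring
    · obtain ⟨hz0, hw⟩ := mem_filter.1 (mem_coe.1 hz)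
      obtain ⟨hz0', hw'⟩ := mem_filter.1 (mem_coe.1 hz')
      obtain ⟨-, a2, -⟩ := hmem _ (mem_product.1 (mem_filter.1 hz0).1).1
      obtain ⟨-, b2, -⟩ := hmem _ (mem_product.1 (mem_filter.1 hz0).1).2
      obtain ⟨-, a2', -⟩ := hmem _ (mem_product.1 (mem_filter.1 hz0').1).1
      obtain ⟨-, b2', -⟩ := hmem _ (mem_product.1 (mem_filter.1 hz0').1).2
      have e0 := hw.trans hw'.symm
      have key : ∀ u v : ℕ, u % p = c → v % p = c → u / p = v / p → u = v := by
        intro u v hu hv huv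
        rw [← Nat.div_add_mod u p, ← Nat.div_add_mod v p, hu, hv, huv]
      refine Prod.ext (Prod.ext (Prod.ext_iff.1 e0).1 ?_) (Prod.ext (Prod.ext_iff.1 e0).2 ?_)
      · funext i
        exact key _ _ (a2 i) (a2' i) (congrFun (Prod.ext_iff.1 e).1 i)
      · funext i
        exact key _ _ (b2 i) (b2' i) (congrFun (Prod.ext_iff.1 e).2 i)

end GOOD

theorem good_main : ENStmt → HOLDStmt → LINStmt → GOODStmt := by
  intro hE hH hL p k s y hp hk h1 hs hy
  have := hH _ k s _ (inj p k (p * y)) (ps k) (range (p * y)) (range p) (fun x => x % p) hs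
    (fun x _ => mem_range.2 (Nat.mod_lt _ hp.pos)) (fun c _ => GOOD.one_class hE hL hp hk h1 hy c)
  rwa [card_range] at this

end Pool.Agent.MP_678834_nt.PW

end
end MrgPart4

-- ======== part 5: formerly Pool.Agent.MP_678834_nt.PW.REC
section MrgPart5

/-! Project PW, module REC: the recursion of Linnik and Karatsuba. -/

set_option autoImplicit false

noncomputable section

namespace Pool.Agent.MP_678834_nt.PW

open Finset

namespace REC

theorem en_le {α β : Type} {k : ℕ} {T : Finset α} {T' : Finset β} {v : α → Fin k → ℤ}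
    {v' : β → Fin k → ℤ} (φ : α → β) (h1 : ∀ x ∈ T, φ x ∈ T')
    (h2 : ∀ x ∈ T, ∀ x' ∈ T, φ x = φ x' → x = x')
    (h3 : ∀ x ∈ T, ∀ x' ∈ T, v x = v x' → v' (φ x) = v' (φ x')) : en T v ≤ en T' v' := by
  refine card_le_card_of_injOn (fun z => (φ z.1, φ z.2)) (fun z hz => ?_) fun z hz z' hz' h => ?_
  · obtain ⟨a, b⟩ := mem_filter.mp hz
    obtain ⟨a1, a2⟩ := mem_product.mp a
    exact mem_filter.mpr ⟨mem_product.mpr ⟨h1 _ a1, h1 _ a2⟩, h3 _ a1 _ a2 b⟩
  · obtain ⟨a1, a2⟩ := mem_product.mp (mem_filter.mp hz).1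
    obtain ⟨b1, b2⟩ := mem_product.mp (mem_filter.mp hz').1
    exact Prod.ext (h2 _ a1 _ b1 (congrArg Prod.fst h)) (h2 _ a2 _ b2 (congrArg Prod.snd h))

theorem mem_box {s : ℕ} {B : Finset ℕ} {x : Fin s → ℕ} : x ∈ box s B ↔ ∀ i, x i ∈ B :=
  Fintype.mem_piFinset

theorem card_box (s : ℕ) (B : Finset ℕ) : (box s B).card = B.card ^ s := by
  simp [box, Fintype.card_piFinset]

/-- splitting of a tuple after a permutation of the entries -/
def spl {k s : ℕ} (π : Equiv.Perm (Fin (k + s))) (x : Fin (k + s) → ℕ) :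
    (Fin k → ℕ) × (Fin s → ℕ) :=
  (fun i => x (π (Fin.castAdd s i)), fun i => x (π (Fin.natAdd k i)))

theorem spl_inj {k s : ℕ} (π : Equiv.Perm (Fin (k + s))) {x x' : Fin (k + s) → ℕ}
    (h : spl π x = spl π x') : x = x' := by
  funext i
  obtain ⟨j, rfl⟩ := π.surjective i
  induction j using Fin.addCases with
  | left j => exact congrFun (congrArg Prod.fst h) j
  | right j => exact congrFun (congrArg Prod.snd h) j

theorem ps_spl (r : ℕ) {k s : ℕ} (π : Equiv.Perm (Fin (k + s))) (x : Fin (k + s) → ℕ) :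
    ps r (spl π x).1 + ps r (spl π x).2 = ps r x := by
  funext j
  simp only [ps, spl, Pi.add_apply]
  rw [← Equiv.sum_comp π fun i => (x i : ℤ) ^ (j.val + 1), Fin.sum_univ_add]

theorem en_prod (hE : ENStmt) {α β : Type} {k : ℕ} (A : Finset α) (B : Finset β)
    (a : α → Fin k → ℤ) (b : β → Fin k → ℤ) :
    en (A ×ˢ B) (fun z => a z.1 + b z.2) ≤ A.card ^ 2 * en B b := by
  classical
  rw [mul_comm, sq, ← card_product]
  refine card_le_mul_card_image_of_maps_to (f := fun z => (z.1.1, z.2.1)) (fun z hz => ?_) _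
    fun m _ => ?_
  · obtain ⟨a1, a2⟩ := mem_product.mp (mem_filter.mp hz).1
    exact mem_product.mpr ⟨(mem_product.mp a1).1, (mem_product.mp a2).1⟩
  · refine le_trans ?_ (hE.1 β k B b (a m.2 - a m.1))
    refine card_le_card_of_injOn (fun z => (z.1.2, z.2.2)) (fun z hz => ?_) fun z hz z' hz' h => ?_
    · obtain ⟨c, d⟩ := mem_filter.mp hz
      obtain ⟨c1, c2⟩ := mem_filter.mp c
      obtain ⟨a1, a2⟩ := mem_product.mp c1
      refine mem_filter.mpr ⟨mem_product.mpr ⟨(mem_product.mp a1).2, (mem_product.mp a2).2⟩, ?_⟩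
      rw [← d]
      simp only at c2 ⊢
      linear_combination c2
    · have d := (mem_filter.mp hz).2.trans (mem_filter.mp hz').2.symm
      simp only [Prod.mk.injEq] at d h
      exact Prod.ext (Prod.ext d.1 h.1) (Prod.ext d.2 h.2)

theorem Jv_add (hE : ENStmt) (k s y : ℕ) : Jv k (k + s) y ≤ y ^ (2 * k) * Jv k s y := by
  have h1 := en_prod hE (box k (range y)) (box s (range y)) (ps k) (ps k)
  rw [card_box, card_range, ← pow_mul, mul_comm k 2] at h1
  refine le_trans (en_le (spl 1) (fun x hx => ?_) (fun x _ x' _ h => spl_inj _ h)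
    fun x _ x' _ h => ?_) h1
  · exact mem_product.mpr ⟨mem_box.mpr fun i => mem_box.mp hx _, mem_box.mpr fun i => mem_box.mp hx _⟩
  · rw [ps_spl, ps_spl, h]

theorem en_class (hE : ENStmt) {p : ℕ} (hp : 0 < p) (k n y c : ℕ) (B : Finset ℕ)
    (hB : ∀ x ∈ B, x < p * y ∧ x % p = c) : en (box n B) (ps k) ≤ Jv k n y := by
  have e : ∀ x ∈ B, (x : ℤ) - c = p * (x / p : ℕ) := fun x hx => by
    have := Nat.div_add_mod x p
    rw [(hB x hx).2] at this
    have h2 : (p : ℤ) * (x / p : ℕ) + c = x := by exact_mod_cast this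
    linarith
  refine en_le (fun x i => x i / p) (fun x hx => mem_box.mpr fun i => ?_) (fun x hx x' hx' h => ?_)
    fun x hx x' hx' h => ?_
  · exact mem_range.mpr (Nat.div_lt_of_lt_mul (hB _ (mem_box.mp hx i)).1)
  · funext i
    have h1 := e _ (mem_box.mp hx i)
    have h2 := e _ (mem_box.mp hx' i)
    have h3 : x i / p = x' i / p := congrFun h i
    rw [h3, ← h2] at h1
    exact_mod_cast sub_left_injective h1
  · funext j
    have h1 := hE.2.2 (Fin n) k (fun i => x i) (fun i => x' i) c (fun j => congrFun h j) j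
    simp only [e _ (mem_box.mp hx _), e _ (mem_box.mp hx' _), mul_pow, ← mul_sum] at h1
    exact mul_left_cancel₀ (pow_ne_zero _ (by exact_mod_cast hp.ne')) h1

theorem en_few (hE : ENStmt) (hH : HOLDStmt) {p : ℕ} (hp : 0 < p) (k n y : ℕ) (hn : 1 ≤ n)
    (C : Finset ℕ) :
    en (box n ((range (p * y)).filter fun x => x % p ∈ C)) (ps k) ≤ C.card ^ (2 * n) * Jv k n y := by
  refine le_trans (en_le (fun x => ((), x)) (fun x hx => mem_product.mpr ⟨mem_singleton_self _, hx⟩)
    (fun x _ x' _ h => congrArg Prod.snd h) fun x _ x' _ h => ?_)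
    (hH Unit k n (Jv k n y) {()} (fun _ => 0) _ C (· % p) hn (fun x hx => (mem_filter.mp hx).2)
      fun c _ => ?_)
  · simp only [h]
  · refine le_trans (en_le (fun z => z.2) (fun z hz => (mem_product.mp hz).2)
      (fun z _ z' _ h => Prod.ext rfl h) fun z _ z' _ h => ?_) (en_class hE hp k n y c _ ?_)
    · simpa using h
    · intro x hx
      obtain ⟨a, b⟩ := mem_filter.mp hx
      exact ⟨mem_range.mp (mem_filter.mp a).1, b⟩

theorem exists_perm {p k s : ℕ} (x : Fin (k + s) → ℕ)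
    (h : k ≤ (univ.image fun i => x i % p).card) :
    ∃ π : Equiv.Perm (Fin (k + s)), Dist p (spl π x).1 := by
  obtain ⟨e⟩ := Function.Embedding.nonempty_of_card_le (α := Fin k)
    (β := (univ.image fun i => x i % p : Finset ℕ)) (by simpa using h)
  have h1 : ∀ i : Fin k, ∃ j, x j % p = e i := fun i => by
    obtain ⟨j, -, hj⟩ := mem_image.mp (e i).2
    exact ⟨j, hj⟩
  choose g hg using h1
  have h2 : ∀ i j, x (g i) % p = x (g j) % p → i = j := fun i j hij => by
    rw [hg, hg] at hij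
    exact e.injective (Subtype.ext hij)
  obtain ⟨π, hπ⟩ := Equiv.Perm.exists_extending_pair (Fin.castAdd s) g
    (Fin.castAdd_injective k s) fun i j hij => h2 i j (by rw [hij])
  refine ⟨π, fun i j hij => h2 i j ?_⟩
  simpa only [spl, hπ] using hij

end REC

open REC

theorem rec_main : ENStmt → HOLDStmt → GOODStmt → RECStmt := by
  intro hE hH hG p k s y hp hkp hk hs hy
  have hs1 : 1 ≤ s := le_trans (by nlinarith) hs
  have hp0 := hp.pos
  obtain ⟨X, hX⟩ : ∃ X, X = p ^ (2 * s + k * (k - 1) / 2) * (p * y) ^ k * Jv k s y := ⟨_, rfl⟩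
  set T := box (k + s) (range (p * y)) with hT
  set P : (Fin (k + s) → ℕ) → Prop := fun x => k ≤ (univ.image fun i => x i % p).card with hP
  have h0 := hE.2.1 _ Bool k T (ps k) univ
    (fun b => if b then T.filter P else T.filter fun x => ¬P x) fun x hx => by
      by_cases h : P x
      · exact ⟨true, mem_univ _, mem_filter.mpr ⟨hx, h⟩⟩
      · exact ⟨false, mem_univ _, mem_filter.mpr ⟨hx, h⟩⟩
  rw [Fintype.sum_bool, card_univ, Fintype.card_bool] at h0
  simp only [if_true, Bool.false_eq_true, if_false] at h0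
  have h1 : en (T.filter P) (ps k) ≤ (k + s) ^ (3 * (k + s)) * X := by
    have a1 := hE.2.1 _ _ k (T.filter P) (ps k) univ
      (fun π : Equiv.Perm (Fin (k + s)) => T.filter fun x => Dist p (spl π x).1) fun x hx => by
        obtain ⟨π, hπ⟩ := exists_perm x (mem_filter.mp hx).2
        exact ⟨π, mem_univ _, mem_filter.mpr ⟨(mem_filter.mp hx).1, hπ⟩⟩
    have a2 := sum_le_card_nsmul univ
      (fun π : Equiv.Perm (Fin (k + s)) => en (T.filter fun x => Dist p (spl π x).1) (ps k)) _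
      fun π _ => le_trans (en_le (spl π) (fun x hx => by
        obtain ⟨a, b⟩ := mem_filter.mp hx
        exact mem_product.mpr ⟨mem_filter.mpr ⟨mem_box.mpr fun i => mem_box.mp a _, b⟩,
          mem_box.mpr fun i => mem_box.mp a _⟩) (fun x _ x' _ h => spl_inj _ h)
        fun x _ x' _ h => by rw [ps_spl, ps_spl, h]) (hG p k s y hp hkp (by omega) hs1 hy)
    rw [card_univ, Fintype.card_perm, Fintype.card_fin] at a1 a2
    have a3 : (k + s).factorial ≤ (k + s) ^ (k + s) := Nat.factorial_le_pow _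
    have a4 : k ^ k ≤ (k + s) ^ (k + s) :=
      (Nat.pow_le_pow_left (by omega) k).trans (Nat.pow_le_pow_right (by omega) (by omega))
    refine (a1.trans (Nat.mul_le_mul_left _ a2)).trans ?_
    calc _ = (k + s).factorial * (k + s).factorial * k ^ k * X := by
          rw [hX, smul_eq_mul, pow_add]
          ring
      _ ≤ (k + s) ^ (k + s) * (k + s) ^ (k + s) * (k + s) ^ (k + s) * X := by gcongr
      _ = _ := by ring
  have h2 : en (T.filter fun x => ¬P x) (ps k) ≤ (k + s) ^ (3 * (k + s)) * X := by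
    have a1 := hE.2.1 _ _ k (T.filter fun x => ¬P x) (ps k) (powersetCard (k - 1) (range p))
      (fun C => box (k + s) ((range (p * y)).filter fun x => x % p ∈ C)) fun x hx => by
        obtain ⟨a, b⟩ := mem_filter.mp hx
        obtain ⟨C, c1, c2, c3⟩ := exists_subsuperset_card_eq
          (s := univ.image fun i => x i % p) (t := range p) (n := k - 1)
          (fun r hr => by
            obtain ⟨i, -, rfl⟩ := mem_image.mp hr
            exact mem_range.mpr (Nat.mod_lt _ hp0))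
          (by simp only [hP, not_le] at b; omega) (by rw [card_range]; omega)
        exact ⟨C, mem_powersetCard.mpr ⟨c2, c3⟩, mem_box.mpr fun i =>
          mem_filter.mpr ⟨mem_box.mp a i, c1 (mem_image_of_mem _ (mem_univ i))⟩⟩
    have a2 := sum_le_card_nsmul (powersetCard (k - 1) (range p))
      (fun C => en (box (k + s) ((range (p * y)).filter fun x => x % p ∈ C)) (ps k))
      ((k - 1) ^ (2 * (k + s)) * (y ^ (2 * k) * Jv k s y)) fun C hC => by
        refine (en_few hE hH hp0 k (k + s) y (by omega) C).trans ?_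
        rw [(mem_powersetCard.mp hC).2]
        exact Nat.mul_le_mul_left _ (Jv_add hE k s y)
    rw [card_powersetCard, card_range] at a1 a2
    have a3 : p.choose (k - 1) ≤ p ^ (k - 1) := Nat.choose_le_pow _ _
    have a4 : (k - 1) ^ (2 * (k + s)) ≤ (k + s) ^ (3 * (k + s)) :=
      (Nat.pow_le_pow_left (by omega) _).trans (Nat.pow_le_pow_right (by omega) (by omega))
    have a5 : p ^ (k - 1) * p ^ (k - 1) * y ^ k ≤ p ^ (2 * s + k * (k - 1) / 2) * p ^ k := by
      refine (Nat.mul_le_mul_left _ (Nat.pow_le_pow_left hy k)).trans ?_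
      rw [← pow_mul, ← pow_add, ← pow_add, ← pow_add]
      refine Nat.pow_le_pow_right hp0 ?_
      obtain ⟨j, rfl⟩ : ∃ j, k = j + 1 := ⟨k - 1, by omega⟩
      simp only [Nat.add_sub_cancel]
      nlinarith [Nat.zero_le ((j + 1) * j / 2)]
    refine (a1.trans (Nat.mul_le_mul_left _ a2)).trans ?_
    calc _ ≤ p ^ (k - 1) * (p ^ (k - 1) * ((k + s) ^ (3 * (k + s)) * (y ^ (2 * k) * Jv k s y))) := by
          rw [smul_eq_mul]
          gcongr
      _ = (k + s) ^ (3 * (k + s)) * (p ^ (k - 1) * p ^ (k - 1) * y ^ k * (y ^ k * Jv k s y)) := by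
          ring
      _ ≤ (k + s) ^ (3 * (k + s)) *
          (p ^ (2 * s + k * (k - 1) / 2) * p ^ k * (y ^ k * Jv k s y)) := by gcongr
      _ = _ := by
          rw [hX]
          ring
  rw [← hX]
  calc Jv k (k + s) (p * y) ≤ 2 * ((k + s) ^ (3 * (k + s)) * X + (k + s) ^ (3 * (k + s)) * X) :=
        h0.trans (Nat.mul_le_mul_left _ (Nat.add_le_add h1 h2))
    _ = _ := by ring

end Pool.Agent.MP_678834_nt.PW

end
end MrgPart5

-- ======== part 6: formerly Pool.Agent.MP_678834_nt.PW.DH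
section MrgPart6

/-! Project PW, module DH: the double use of Hoelder's inequality for Korobov's sum. -/

set_option autoImplicit false

noncomputable section

namespace Pool.Agent.MP_678834_nt.PW

open Finset
open Pool.Agent.MP_db1c88_nt.z94 (ei DP)

namespace DH

theorem ei_add (x y : ℝ) : ei (x + y) = ei x * ei y := by
  simp only [ei]; push_cast; rw [add_mul, Complex.exp_add]

theorem ei_sum {ι : Type} (s : Finset ι) (f : ι → ℝ) : ei (∑ i ∈ s, f i) = ∏ i ∈ s, ei (f i) := by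
  simp only [ei]; push_cast; rw [sum_mul, Complex.exp_sum]

theorem ei_conj (x : ℝ) : (starRingEnd ℂ) (ei x) = ei (-x) := by
  simp only [ei]; rw [← Complex.exp_conj]; simp

/-- the bilinear phase -/
def ph {k : ℕ} (α : Fin k → ℝ) (μ lam : Fin k → ℤ) : ℂ := ei (∑ j, α j * lam j * μ j)

theorem pow_expand (l P : ℕ) (f : ℕ → ℂ) :
    (∑ x ∈ range P, f x) ^ l = ∑ y ∈ box l (range P), ∏ i, f (y i) := by
  rw [box, ← prod_univ_sum]; simp

theorem card_box (l P : ℕ) : (box l (range P)).card = P ^ l := by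
  simp [box, Fintype.card_piFinset]

theorem ps_mem {k l P : ℕ} {y : Fin l → ℕ} (hy : y ∈ box l (range P)) (j : Fin k) :
    0 ≤ ps k y j ∧ ps k y j ≤ ((l * P ^ (j.val + 1) : ℕ) : ℤ) := by
  refine ⟨sum_nonneg fun i _ => by positivity, ?_⟩
  have h : ∀ i ∈ (univ : Finset (Fin l)), (y i : ℤ) ^ (j.val + 1) ≤ (P : ℤ) ^ (j.val + 1) := by
    intro i _
    have := mem_range.mp (Fintype.mem_piFinset.mp hy i)
    exact pow_le_pow_left₀ (by positivity) (by exact_mod_cast this.le) _
  refine (sum_le_card_nsmul _ _ _ h).trans_eq ?_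
  simp

theorem cs_fib {α : Type} {k : ℕ} (T : Finset α) (v : α → Fin k → ℤ) (B : Finset (Fin k → ℤ))
    (hB : ∀ y ∈ T, v y ∈ B) (g : (Fin k → ℤ) → ℝ) :
    (∑ y ∈ T, g (v y)) ^ 2 ≤ (en T v : ℝ) * ∑ b ∈ B, g b ^ 2 := by
  have h1 : ∑ y ∈ T, g (v y) = ∑ b ∈ B, ((T.filter fun y => v y = b).card : ℝ) * g b := by
    rw [← sum_fiberwise_of_maps_to hB]
    refine sum_congr rfl fun b _ => ?_
    rw [sum_congr rfl (g := fun _ => g b) (fun y hy => by rw [(mem_filter.mp hy).2]), sum_const,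
      nsmul_eq_mul]
  have h2 : (en T v : ℝ) = ∑ b ∈ B, ((T.filter fun y => v y = b).card : ℝ) ^ 2 := by
    rw [en, card_eq_sum_card_fiberwise (f := fun z => v z.1) (t := B)
      (fun z hz => hB _ (mem_product.mp (mem_filter.mp hz).1).1)]
    push_cast
    refine sum_congr rfl fun b _ => ?_
    rw [sq, ← Nat.cast_mul, ← card_product]
    congr 2
    ext z
    simp only [mem_filter, mem_product]
    constructor
    · rintro ⟨⟨⟨a1, a2⟩, a3⟩, a4⟩
      exact ⟨⟨a1, a4⟩, a2, a3 ▸ a4⟩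
    · rintro ⟨⟨a1, a4⟩, a2, a3⟩
      exact ⟨⟨⟨a1, a2⟩, a4.trans a3.symm⟩, a4⟩
  rw [h1, h2]
  exact sum_mul_sq_le_sq_mul_sq _ _ _

theorem sum_Icc_int (A : ℕ) (f : ℤ → ℂ) :
    ∑ m ∈ Icc (0 : ℤ) A, f m = ∑ l ∈ range (A + 1), f l := by
  have : Icc (0 : ℤ) A = (range (A + 1)).image (fun l : ℕ => (l : ℤ)) := by
    ext m
    simp only [mem_Icc, mem_image, mem_range]
    constructor
    · rintro ⟨h1, h2⟩
      exact ⟨m.toNat, by omega, by omega⟩
    · rintro ⟨l, h, rfl⟩
      omega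
  rw [this, sum_image fun a _ b _ h => Nat.cast_injective h]

theorem mean_sq (hEN : ENStmt) {k : ℕ} (α : Fin k → ℝ) (A : Fin k → ℕ) {ι : Type} (T : Finset ι)
    (v : ι → Fin k → ℤ) (hv : ∀ x ∈ T, ∀ j, 0 ≤ v x j ∧ v x j ≤ A j) (E : ι → ℂ)
    (hE : ∀ x, ‖E x‖ ≤ 1) :
    ∑ lam ∈ Fintype.piFinset (fun j => Icc (0 : ℤ) (A j)), ‖∑ x ∈ T, E x * ph α (v x) lam‖ ^ 2 ≤
      (en T v : ℝ) * ∏ j, WW (α j) (A j) := by
  let w : (Fin k → ℤ) → ℝ := fun μ => ∏ j, ‖∑ l ∈ range (A j + 1), ei (α j * l * μ j)‖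
  have w0 : ∀ μ, 0 ≤ w μ := fun μ => prod_nonneg fun _ _ => norm_nonneg _
  have h1 : ∀ μ : Fin k → ℤ,
      ‖∑ lam ∈ Fintype.piFinset (fun j => Icc (0 : ℤ) (A j)), ph α μ lam‖ = w μ := by
    intro μ
    simp only [ph, ei_sum]
    rw [← prod_univ_sum (fun j => Icc (0 : ℤ) (A j)) (fun j m => ei (α j * (m : ℤ) * μ j)),
      norm_prod]
    refine prod_congr rfl fun j _ => ?_
    rw [sum_Icc_int]
    simp
  have h2 : ∀ lam : Fin k → ℤ, ((‖∑ x ∈ T, E x * ph α (v x) lam‖ ^ 2 : ℝ) : ℂ) =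
      ∑ z ∈ T ×ˢ T, E z.1 * (starRingEnd ℂ) (E z.2) * ph α (v z.1 - v z.2) lam := by
    intro lam
    rw [← Complex.normSq_eq_norm_sq, ← Complex.mul_conj, map_sum, sum_mul_sum, sum_product]
    refine sum_congr rfl fun x _ => sum_congr rfl fun y _ => ?_
    have : ph α (v x - v y) lam = ph α (v x) lam * (starRingEnd ℂ) (ph α (v y) lam) := by
      simp only [ph, ei_conj, ← ei_add, ← sub_eq_add_neg, ← sum_sub_distrib, Pi.sub_apply]
      congr 1
      exact sum_congr rfl fun j _ => by push_cast; ring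
    rw [this, map_mul]
    ring
  have h3 : ∑ lam ∈ Fintype.piFinset (fun j => Icc (0 : ℤ) (A j)),
      ‖∑ x ∈ T, E x * ph α (v x) lam‖ ^ 2 ≤ ∑ z ∈ T ×ˢ T, w (v z.1 - v z.2) := by
    refine (Complex.re_le_norm ((∑ lam ∈ Fintype.piFinset (fun j => Icc (0 : ℤ) (A j)),
      ‖∑ x ∈ T, E x * ph α (v x) lam‖ ^ 2 : ℝ) : ℂ)).trans ?_
    rw [Complex.ofReal_sum, sum_congr rfl fun lam _ => h2 lam, sum_comm]
    refine (norm_sum_le _ _).trans (sum_le_sum fun z _ => ?_)
    rw [← mul_sum, norm_mul, h1, norm_mul, Complex.norm_conj]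
    exact mul_le_of_le_one_left (w0 _) (mul_le_one₀ (hE _) (norm_nonneg _) (hE _))
  refine h3.trans ?_
  have hm : ∀ z ∈ T ×ˢ T, v z.1 - v z.2 ∈ Fintype.piFinset fun j => Icc (-(A j : ℤ)) (A j) := by
    intro z hz
    obtain ⟨a1, a2⟩ := mem_product.mp hz
    refine Fintype.mem_piFinset.mpr fun j => ?_
    have := hv _ a1 j
    have := hv _ a2 j
    rw [mem_Icc, Pi.sub_apply]
    omega
  rw [← sum_fiberwise_of_maps_to hm]
  simp only [WW]
  rw [prod_univ_sum, mul_sum]
  refine sum_le_sum fun μ _ => ?_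
  rw [sum_congr rfl (g := fun _ => w μ) (fun z hz => by rw [(mem_filter.mp hz).2]), sum_const,
    nsmul_eq_mul]
  refine mul_le_mul_of_nonneg_right ?_ (w0 μ)
  have := hEN.1 ι k T v μ
  simp only [sub_eq_iff_eq_add']
  exact_mod_cast this

end DH

open DH in
theorem dh_main : ENStmt → DHStmt := by
  intro hEN k l P α hl
  obtain ⟨n, rfl⟩ : ∃ n, l = n + 1 := ⟨l - 1, by omega⟩
  let S : ℕ → ℂ := fun x => ∑ y ∈ range P, ei (∑ j, α j * ((x : ℝ) * y) ^ (j.val + 1))
  let ε : ℕ → ℂ := fun x => ((‖S x‖ ^ (n + 1) : ℝ) : ℂ) / S x ^ (n + 1)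
  have hε : ∀ x, ‖ε x‖ ≤ 1 := by
    intro x
    simp only [ε, norm_div, norm_pow, Complex.norm_real, norm_norm]
    exact div_self_le_one _
  have hε' : ∀ x, ((‖S x‖ ^ (n + 1) : ℝ) : ℂ) = ε x * S x ^ (n + 1) := by
    intro x
    by_cases h : S x = 0
    · simp [h]
    · simp only [ε]; rw [div_mul_cancel₀ _ (pow_ne_zero _ h)]
  let T : (Fin k → ℤ) → ℂ := fun lam =>
    ∑ x ∈ range P, ε x * ei (∑ j, α j * lam j * (x : ℝ) ^ (j.val + 1))
  have hS : ∀ x, S x ^ (n + 1) = ∑ y ∈ box (n + 1) (range P),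
      ei (∑ j, α j * ps k y j * (x : ℝ) ^ (j.val + 1)) := by
    intro x
    rw [pow_expand]
    refine sum_congr rfl fun y _ => ?_
    rw [← ei_sum, sum_comm]
    congr 1
    refine sum_congr rfl fun j _ => ?_
    simp only [ps]
    push_cast
    rw [mul_sum, sum_mul]
    exact sum_congr rfl fun i _ => by ring
  have hT : ∀ lam, T lam ^ (n + 1) = ∑ x ∈ box (n + 1) (range P),
      (∏ i, ε (x i)) * ph α (ps k x) lam := by
    intro lam
    rw [pow_expand]
    refine sum_congr rfl fun x _ => ?_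
    rw [prod_mul_distrib, ← ei_sum, sum_comm, ph]
    congr 2
    refine sum_congr rfl fun j _ => ?_
    simp only [ps]
    push_cast
    rw [mul_sum]
  have h1 : ‖UU k P α‖ ^ (n + 1) ≤ (P : ℝ) ^ n * ∑ y ∈ box (n + 1) (range P), ‖T (ps k y)‖ := by
    have a1 : ‖UU k P α‖ ≤ ∑ x ∈ range P, ‖S x‖ := norm_sum_le _ _
    have a2 := pow_sum_le_card_mul_sum_pow (s := range P) (f := fun x => ‖S x‖)
      (fun _ _ => norm_nonneg _) n
    rw [card_range] at a2
    refine ((pow_le_pow_left₀ (norm_nonneg _) a1 _).trans a2).trans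
      (mul_le_mul_of_nonneg_left ?_ (by positivity))
    refine (Complex.re_le_norm ((∑ x ∈ range P, ‖S x‖ ^ (n + 1) : ℝ) : ℂ)).trans ?_
    rw [Complex.ofReal_sum, sum_congr rfl fun x _ => hε' x]
    simp only [hS, mul_sum]
    rw [sum_comm]
    exact norm_sum_le _ _
  have h2 := pow_sum_le_card_mul_sum_pow (s := box (n + 1) (range P)) (f := fun y => ‖T (ps k y)‖)
    (fun _ _ => norm_nonneg _) n
  rw [card_box] at h2
  have h3 := cs_fib (box (n + 1) (range P)) (ps k)
    (Fintype.piFinset fun j => Icc (0 : ℤ) (((n + 1) * P ^ (j.val + 1) : ℕ) : ℤ))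
    (fun y hy => Fintype.mem_piFinset.mpr fun j => mem_Icc.mpr (ps_mem hy j))
    (fun lam => ‖T lam‖ ^ (n + 1))
  have h4 := mean_sq hEN α (fun j => (n + 1) * P ^ (j.val + 1)) (box (n + 1) (range P)) (ps k)
    (fun y hy j => ps_mem hy j) (fun x => ∏ i, ε (x i))
    (fun x => by rw [norm_prod]; exact prod_le_one (fun _ _ => norm_nonneg _) fun _ _ => hε _)
  simp only [← hT, norm_pow] at h4
  have h5 := h3.trans (mul_le_mul_of_nonneg_left h4 (Nat.cast_nonneg _))
  have h6 : (‖UU k P α‖ ^ (n + 1)) ^ (n + 1) ≤ ((P : ℝ) ^ n) ^ (n + 1) * (((P : ℝ) ^ (n + 1)) ^ n *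
      ∑ y ∈ box (n + 1) (range P), ‖T (ps k y)‖ ^ (n + 1)) := by
    refine (pow_le_pow_left₀ (by positivity) h1 _).trans ?_
    rw [mul_pow]
    exact mul_le_mul_of_nonneg_left (by exact_mod_cast h2) (by positivity)
  calc ‖UU k P α‖ ^ (2 * (n + 1) ^ 2) = ((‖UU k P α‖ ^ (n + 1)) ^ (n + 1)) ^ 2 := by ring
    _ ≤ (((P : ℝ) ^ n) ^ (n + 1) * (((P : ℝ) ^ (n + 1)) ^ n *
      ∑ y ∈ box (n + 1) (range P), ‖T (ps k y)‖ ^ (n + 1))) ^ 2 :=
        pow_le_pow_left₀ (by positivity) h6 _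
    _ = (P : ℝ) ^ (4 * (n + 1) * (n + 1 - 1)) *
      (∑ y ∈ box (n + 1) (range P), ‖T (ps k y)‖ ^ (n + 1)) ^ 2 := by
        rw [Nat.add_sub_cancel]; ring
    _ ≤ _ := by
        rw [mul_assoc _ ((Jv k (n + 1) P : ℝ) ^ 2), sq (Jv k (n + 1) P : ℝ),
          mul_assoc (Jv k (n + 1) P : ℝ)]
        exact mul_le_mul_of_nonneg_left h5 (by positivity)

end Pool.Agent.MP_678834_nt.PW

end
end MrgPart6

-- ======== part 7: formerly Pool.Agent.MP_678834_nt.PW.EXPA
section MrgPart7

/-! Project PW, module EXPA: the Kusmin-Landau range. -/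

set_option autoImplicit false

noncomputable section

namespace Pool.Agent.MP_678834_nt.PW

open Finset
open Pool.Agent.MP_db1c88_nt.z94 (ei DP)
open Pool.Agent.Lib.helper44

namespace EXPA

theorem log_step {x : ℝ} (hx : 0 < x) :
    1 / (x + 1) ≤ Real.log (x + 1) - Real.log x ∧ Real.log (x + 1) - Real.log x ≤ 1 / x := by
  constructor
  · have h := Real.log_le_sub_one_of_pos (x := x / (x + 1)) (by positivity)
    rw [Real.log_div hx.ne' (by positivity)] at h
    have e : x / (x + 1) - 1 = -(1 / (x + 1)) := by field_simp; ring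
    linarith
  · have h := Real.log_le_sub_one_of_pos (x := (x + 1) / x) (by positivity)
    rw [Real.log_div (by positivity) hx.ne'] at h
    have e : (x + 1) / x - 1 = 1 / x := by field_simp; ring
    linarith

theorem core (N K : ℕ) (u τ : ℝ) (hK : K ≤ 2 * N) (hu0 : 0 ≤ u) (hu1 : u ≤ 1) (h1 : 1 ≤ τ)
    (hN : τ ≤ N) :
    ‖∑ n ∈ range K, ee (-(τ * Real.log ((N + 1 + n : ℕ) + u)))‖ ≤ 33 * (N / τ) := by
  have hN1 : (1 : ℝ) ≤ N := h1.trans hN
  have hτ : 0 < τ := by linarith
  have hp := Real.pi_gt_three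
  have hp' := Real.pi_lt_d2
  have hθ : 0 < τ / (5 * N) := by positivity
  have key := kusmin_landau' (f := fun n => -(τ * Real.log ((N + 1 + n : ℕ) + u))) hθ (M := K)
    (-1) (fun n hn => ?_) (fun n _ => ?_)
  · refine key.trans ?_
    have e : 2 * Real.pi / (τ / (5 * N)) = 10 * Real.pi * (N / τ) := by field_simp; ring
    have h2 : 1 ≤ N / τ := (one_le_div hτ).2 hN
    rw [e]
    nlinarith
  · set x : ℝ := ((N + 1 + n : ℕ) : ℝ) + u with hx
    have e : ((N + 1 + (n + 1) : ℕ) : ℝ) + u = x + 1 := by rw [hx]; push_cast; ring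
    have hn' : (n : ℝ) + 1 ≤ 2 * N := by exact_mod_cast (show n + 1 ≤ 2 * N by omega)
    have hn0 : (0 : ℝ) ≤ n := Nat.cast_nonneg n
    have x1 : (N : ℝ) ≤ x := by rw [hx]; push_cast; linarith
    have x2 : x + 1 ≤ 5 * N := by rw [hx]; push_cast; linarith
    have x0 : 0 < x := by linarith
    obtain ⟨l1, l2⟩ := log_step x0
    have l3 : τ * (Real.log (x + 1) - Real.log x) ≤ 1 := by
      refine (mul_le_mul_of_nonneg_left l2 hτ.le).trans ?_
      rw [mul_one_div, div_le_one x0]; linarith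
    have l4 : τ / (5 * N) ≤ τ * (Real.log (x + 1) - Real.log x) := by
      refine le_trans ?_ (mul_le_mul_of_nonneg_left l1 hτ.le)
      rw [mul_one_div]
      gcongr
    rw [e]
    push_cast
    constructor <;> linarith
  · set x : ℝ := ((N + 1 + n : ℕ) : ℝ) + u with hx
    have e : ((N + 1 + (n + 1) : ℕ) : ℝ) + u = x + 1 := by rw [hx]; push_cast; ring
    have e' : ((N + 1 + (n + 1 + 1) : ℕ) : ℝ) + u = x + 1 + 1 := by rw [hx]; push_cast; ring
    have x0 : 0 < x := by rw [hx]; positivity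
    have l1 := (log_step x0).1
    have l2 := (log_step (x := x + 1) (by linarith)).2
    rw [e, e']
    nlinarith

end EXPA

theorem expa_main : EXPAStmt := by
  refine ⟨33, fun N M u t _ hM hu0 hu1 h1 hN => ?_⟩
  have key := EXPA.core N (M - N) u |t| (by omega) hu0 hu1 h1 hN
  have e : ∑ n ∈ Ioc N M, ei (t * Real.log (n + u)) =
      ∑ n ∈ range (M - N), ee (t * Real.log ((N + 1 + n : ℕ) + u)) := by
    rw [← Finset.Ico_add_one_add_one_eq_Ioc, sum_Ico_eq_sum_range, Nat.add_sub_add_right]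
    rfl
  rw [e]
  rcases le_total 0 t with h | h
  · rw [norm_sum_ee_neg, abs_of_nonneg h] at key
    rwa [abs_of_nonneg h]
  · simpa only [abs_of_nonpos h, neg_mul, neg_neg] using key

end Pool.Agent.MP_678834_nt.PW

end
end MrgPart7

-- ======== part 8: formerly Pool.Agent.MP_678834_nt.PW.LB
section MrgPart8

/-! Project PW, module LB: upper bounds for the `L`-functions near the line one. -/

set_option autoImplicit false

noncomputable section

namespace Pool.Agent.MP_678834_nt.PW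

open Finset Filter Topology Complex
open Pool.Agent.MP_39a890_nt.SW Pool.Agent.MP_db1c88_nt

namespace LB

theorem sum_w (a : ℕ → ℂ) (s : ℂ) (M : ℕ) :
    ∑ k ∈ range M, a (k + 1) * w k s = ∑ n ∈ Ioc 0 M, a n * (n : ℂ) ^ (-s) := by
  induction M with
  | zero => simp
  | succ M ih =>
    rw [sum_range_succ, ih, sum_Ioc_succ_top (Nat.zero_le M), w]
    push_cast
    rfl

theorem rpow_le {W σ : ℝ} {M : ℕ} (hW : 1 ≤ W) (hM : W ^ 2 ≤ M) (hσ : 1 / 2 ≤ σ) :
    (M : ℝ) ^ (-σ) ≤ 1 / W := by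
  have h1 : (1 : ℝ) ≤ M := (one_le_pow₀ hW).trans hM
  calc (M : ℝ) ^ (-σ) ≤ (M : ℝ) ^ (-(1 / 2) : ℝ) :=
        Real.rpow_le_rpow_of_exponent_le h1 (by linarith)
    _ ≤ 1 / W := by
        rw [Real.rpow_neg (by linarith), ← Real.sqrt_eq_rpow, ← one_div]
        exact one_div_le_one_div_of_le (by linarith) (Real.le_sqrt_of_sq_le hM)

theorem norm_le_im {s : ℂ} (h0 : 0 ≤ s.re) (h2 : s.re ≤ 2) : ‖s‖ ≤ |s.im| + 2 := by
  have := norm_le_abs_re_add_abs_im s
  rw [abs_of_nonneg h0] at this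
  linarith

theorem L_le {q : ℕ} [NeZero q] {χ : DirichletCharacter ℂ q} (hχ : χ ≠ 1) {s : ℂ}
    (h1 : 1 / 2 ≤ s.re) (h2 : s.re ≤ 2) {M : ℕ} (hM : ((q : ℝ) * (|s.im| + 2)) ^ 2 ≤ M) :
    ‖χ.LFunction s‖ ≤ ‖∑ n ∈ Ioc 0 M, χ n * (n : ℂ) ^ (-s)‖ + 5 := by
  have h0 : ∑ x, χ x = 0 := χ.sum_eq_zero_of_ne_one hχ
  have hb : ∀ x, ‖χ x‖ ≤ 2 := fun x => (χ.norm_le_one x).trans one_le_two
  have hq : (1 : ℝ) ≤ q := by exact_mod_cast NeZero.pos q
  have ht := abs_nonneg s.im
  set W := (q : ℝ) * (|s.im| + 2) with hW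
  have hW1 : 2 * q ≤ W := by nlinarith
  have hW0 : 0 < W := by linarith
  have hM0 : (0 : ℝ) < M := lt_of_lt_of_le (by positivity) hM
  have hp := rpow_le (by linarith) hM h1
  rw [DirichletCharacter.LFunction, L_eq h0 hb h1,
    ← (summable_trm h0 hb (by linarith)).sum_add_tsum_nat_add M]
  have a1 := tail_le (by positivity) (by linarith : 0 < s.re) (by exact_mod_cast hM0 : 0 < M)
    fun k => norm_trm h0 hb k (s := s) (by linarith)
  have a3 : ‖(∑ j ∈ range M, χ ((j + 1 : ℕ) : ZMod q)) * w M s‖ ≤ 2 * q * (1 / W) := by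
    rw [norm_mul, norm_w]
    refine mul_le_mul (partial_le h0 hb M) (le_trans ?_ hp) (by positivity) (by positivity)
    exact Real.rpow_le_rpow_of_nonpos hM0 (by linarith) (by linarith)
  have a4 : (M : ℝ) ^ (-s.re) / s.re ≤ 2 * (1 / W) := by
    rw [div_le_iff₀ (by linarith)]
    have : 0 ≤ 1 / W := by positivity
    nlinarith
  have a5 : 2 * q * (1 / W) ≤ 1 := by rw [mul_one_div, div_le_one hW0]; exact hW1
  have a6 : 2 * q * ‖s‖ * ((M : ℝ) ^ (-s.re) / s.re) ≤ 2 * W * (2 * (1 / W)) := by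
    refine mul_le_mul ?_ a4 (by positivity) (by positivity)
    have := norm_le_im (by linarith) h2
    rw [hW, mul_assoc]
    gcongr
  have a7 : 2 * W * (2 * (1 / W)) = 4 := by field_simp; ring
  refine (norm_add_le _ _).trans ?_
  simp only [trm, abel] at a1 ⊢
  have a8 := norm_sub_le (∑ k ∈ range M, χ ((k + 1 : ℕ) : ZMod q) * w k s)
    ((∑ j ∈ range M, χ ((j + 1 : ℕ) : ZMod q)) * w M s)
  rw [← sum_w (fun n => χ n)]
  linarith

theorem zeta1_le {s : ℂ} (h1 : 1 / 2 ≤ s.re) (h2 : s.re ≤ 2) {M : ℕ}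
    (hM : (|s.im| + 2) ^ 2 ≤ (M : ℝ)) (hM' : (M : ℝ) ≤ (|s.im| + 2) ^ 2 + 1) :
    ‖riemannZeta₁ s‖ ≤ (1 + |s.im|) * (‖∑ n ∈ Ioc 0 M, (n : ℂ) ^ (-s)‖ + 5) := by
  have ht := abs_nonneg s.im
  set W := |s.im| + 2 with hW
  have hW0 : 0 < W := by linarith
  have hM0 : (0 : ℝ) < M := lt_of_lt_of_le (by positivity) hM
  have hp := rpow_le (by linarith) hM h1
  have hb : ∀ k, ‖zterm k s‖ ≤ ‖s - 1‖ * ‖s‖ * ((k : ℝ) + 1) ^ (-(1 + s.re)) := fun k => by
    rw [Real.rpow_neg (by positivity), ← one_div, add_comm 1 s.re]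
    exact norm_zterm_le k (by linarith) le_rfl
  have hsum : Summable fun n => zterm n s :=
    .of_norm_bounded ((summable_w (by linarith : 0 < s.re)).mul_left _) hb
  have hpart : ∀ N : ℕ, ∑ n ∈ range N, zterm n s =
      (s - 1) * ∑ n ∈ range N, w n s - 1 + (((N : ℝ) + 1 : ℝ) : ℂ) ^ (1 - s) := fun N => by
    induction N with
    | zero => simp
    | succ N ih =>
      rw [sum_range_succ, sum_range_succ, ih, zterm, w]
      push_cast
      ring
  have a1 := tail_le (by positivity) (by linarith : 0 < s.re) (by exact_mod_cast hM0 : 0 < M) hb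
  have a2 : ∑ n ∈ range M, w n s = ∑ n ∈ Ioc 0 M, (n : ℂ) ^ (-s) := by
    simpa using sum_w (fun _ => 1) s M
  have a3 : ‖(((M : ℝ) + 1 : ℝ) : ℂ) ^ (1 - s)‖ ≤ 3 * (1 + |s.im|) := by
    rw [norm_cpow_eq_rpow_re_of_pos (by positivity)]
    calc _ ≤ ((M : ℝ) + 1) ^ (1 / 2 : ℝ) :=
          Real.rpow_le_rpow_of_exponent_le (by linarith) (by simp; linarith)
      _ ≤ _ := by
          rw [← Real.sqrt_eq_rpow]
          exact Real.sqrt_le_iff.2 ⟨by positivity, by nlinarith⟩
  have a4 : (M : ℝ) ^ (-s.re) / s.re ≤ 2 * (1 / W) := by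
    rw [div_le_iff₀ (by linarith)]
    have : 0 ≤ 1 / W := by positivity
    nlinarith
  have a5 : ‖s - 1‖ ≤ 1 + |s.im| := by
    have := norm_le_abs_re_add_abs_im (s - 1)
    have b : |(s - 1).re| ≤ 1 := by rw [abs_le]; simp; constructor <;> linarith
    simp only [sub_im, one_im, sub_zero] at this
    linarith
  have a6 : ‖s - 1‖ * ‖s‖ * ((M : ℝ) ^ (-s.re) / s.re) ≤ (1 + |s.im|) * W * (2 * (1 / W)) := by
    have := norm_le_im (by linarith) h2
    gcongr
  have a7 : (1 + |s.im|) * W * (2 * (1 / W)) = 2 * (1 + |s.im|) := by field_simp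
  rw [zeta1_eq h1, ← hsum.sum_add_tsum_nat_add M, hpart, a2]
  have a8 := norm_add₃_le (a := (s - 1) * ∑ n ∈ Ioc 0 M, (n : ℂ) ^ (-s))
    (b := (((M : ℝ) + 1 : ℝ) : ℂ) ^ (1 - s)) (c := ∑' k, zterm (k + M) s)
  rw [norm_mul] at a8
  refine le_of_eq_of_le (congrArg _ (by ring)) (a8.trans ?_)
  have a9 := mul_le_mul_of_nonneg_right a5 (norm_nonneg (∑ n ∈ Ioc 0 M, (n : ℂ) ^ (-s)))
  linarith

theorem euler_le (q : ℕ) [NeZero q] {s : ℂ} (h : 0 ≤ s.re) :
    ‖∏ p ∈ q.primeFactors, (1 - (p : ℂ) ^ (-s))‖ ≤ q := by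
  rw [norm_prod]
  calc _ ≤ ∏ p ∈ q.primeFactors, (p : ℝ) := by
        refine prod_le_prod (fun _ _ => norm_nonneg _) fun p hp => ?_
        have h2 : (2 : ℝ) ≤ p := by exact_mod_cast (Nat.prime_of_mem_primeFactors hp).two_le
        have h3 : ‖(p : ℂ) ^ (-s)‖ ≤ 1 := by
          rw [← ofReal_natCast, norm_cpow_eq_rpow_re_of_pos (by linarith)]
          exact Real.rpow_le_one_of_one_le_of_nonpos (by linarith) (by simpa)
        have := norm_sub_le 1 ((p : ℂ) ^ (-s))
        rw [norm_one] at this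
        linarith
    _ ≤ q := by
        rw [← Nat.cast_prod]
        exact_mod_cast Nat.le_of_dvd (NeZero.pos q) (Nat.prod_primeFactors_dvd q)

end LB

open LB in
theorem lb_main (hp : PARTStmt) : LBStmt := by
  intro B
  obtain ⟨Z, hZ⟩ := (isCompact_closedBall (0 : ℂ) 3).exists_bound_of_continuousOn
    differentiable_riemannZeta₀.continuous.continuousOn
  filter_upwards [hp B, eventually_ge_atTop 5, eventually_ge_atTop Z] with L h hL hLZ
  intro q _ χ s hq h1 h2 h3
  have hL0 : 0 < L := by linarith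
  have hL1 : 1 ≤ L := by linarith
  have ht := abs_nonneg s.im
  have η2 : L ^ (-(9 / 10) : ℝ) ≤ 1 / 2 := by
    have b1 : L ^ (-(9 / 10) : ℝ) ≤ L ^ (-(1 / 2) : ℝ) :=
      Real.rpow_le_rpow_of_exponent_le hL1 (by norm_num)
    refine b1.trans ?_
    rw [Real.rpow_neg hL0.le, ← Real.sqrt_eq_rpow, ← one_div]
    exact one_div_le_one_div_of_le two_pos (Real.le_sqrt_of_sq_le (by linarith))
  have hσ : 1 / 2 ≤ s.re := by linarith
  have hc : L ^ 2 + 5 ≤ L ^ 3 := by nlinarith
  have hz : ‖riemannZeta₁ s‖ ≤ (1 + |s.im|) * (L ^ 2 + 5) := by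
    have b0 := (Nat.ceil_lt_add_one (sq_nonneg (|s.im| + 2))).le
    have b1 := h 1 ⌈(|s.im| + 2) ^ 2⌉₊ 1 s le_rfl (by simpa using one_le_pow₀ hL1) h1 h3 (by
      rw [Nat.cast_one, one_mul]; nlinarith)
    have b2 : ∀ n : ℕ, (1 : DirichletCharacter ℂ 1) (n : ZMod 1) = 1 := fun n =>
      MulChar.one_apply (isUnit_of_subsingleton _)
    simp only [b2, one_mul] at b1
    refine (zeta1_le hσ h2 (Nat.le_ceil _) b0).trans ?_
    gcongr
  constructor
  · unfold EE tv
    split_ifs with hχ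
    · rw [norm_mul, pow_add, mul_assoc, mul_comm (L ^ B)]
      refine mul_le_mul (hz.trans ?_) ((euler_le q (by linarith)).trans hq) (norm_nonneg _)
        (by positivity)
      rw [mul_comm]
      gcongr
    · have hq1 : (1 : ℝ) ≤ q := by exact_mod_cast NeZero.pos q
      have b0 := (Nat.ceil_lt_add_one (sq_nonneg ((q : ℝ) * (|s.im| + 2)))).le
      have b3 : (1 : ℝ) ≤ q * (|s.im| + 2) := by nlinarith
      have b1 := h q ⌈((q : ℝ) * (|s.im| + 2)) ^ 2⌉₊ χ s (NeZero.pos q) hq h1 h3 (by nlinarith)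
      have b2 := L_le hχ hσ h2 (Nat.le_ceil _)
      have b4 : L ^ 3 ≤ L ^ (B + 3) := pow_le_pow_right₀ hL1 (by omega)
      linarith
  · rcases le_total |s.im| 1 with k | k
    · have b1 := hZ s (by
        rw [mem_closedBall_zero_iff]
        linarith [norm_le_im (s := s) (by linarith) h2])
      have b2 : L ≤ L ^ 3 := le_self_pow₀ hL1 three_ne_zero
      linarith
    · have b1 : |s.im| ≤ ‖s - 1‖ := by simpa using abs_im_le_norm (s - 1)
      have b2 : ‖s - 1‖ * ‖riemannZeta₀ s‖ ≤ ‖riemannZeta₁ s‖ + 1 := by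
        have := norm_sub_le (riemannZeta₁ s) 1
        rwa [norm_one, riemannZeta₁, add_sub_cancel_left, norm_mul] at this
      have b3 := mul_le_mul_of_nonneg_right b1 (norm_nonneg (riemannZeta₀ s))
      have b4 : |s.im| * ‖riemannZeta₀ s‖ ≤ |s.im| * L ^ 3 := by nlinarith
      exact le_of_mul_le_mul_left b4 (by linarith)

end Pool.Agent.MP_678834_nt.PW

end
end MrgPart8

-- ======== part 9: formerly Pool.Agent.MP_678834_nt.PW.LAND
section MrgPart9

/-! Project PW, module LAND: Landau's lemma on the logarithmic derivative. -/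

set_option autoImplicit false

noncomputable section

namespace Pool.Agent.MP_678834_nt.PW

open Complex Metric Set Filter Topology Polynomial Pool.Agent.NB

namespace LAND

theorem logDeriv_mprod (S : Multiset ℂ) {w : ℂ} (hw : ∀ a ∈ S, w - a ≠ 0) :
    logDeriv (fun u => (S.map fun a => u - a).prod) w = (S.map fun a => (w - a)⁻¹).sum := by
  induction S using Multiset.induction_on with
  | empty => simp [logDeriv_apply]
  | cons a S ih =>
    simp only [Multiset.map_cons, Multiset.prod_cons, Multiset.sum_cons]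
    have h1 := hw a (Multiset.mem_cons_self _ _)
    have h2 : ∀ b ∈ S, w - b ≠ 0 := fun b hb => hw b (Multiset.mem_cons_of_mem hb)
    have h3 : (S.map fun a => w - a).prod ≠ 0 := by
      refine Multiset.prod_ne_zero fun h => ?_
      obtain ⟨b, hb, e⟩ := Multiset.mem_map.1 h
      exact h2 b hb e
    have h4 : DifferentiableAt ℂ (fun u => (S.map fun a => u - a).prod) w :=
      differentiable_mprod S (fun a u => u - a) (fun a => by fun_prop) w
    have h5 := logDeriv_mul (f := fun u => u - a) (g := fun u => (S.map fun a => u - a).prod) w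
      h1 h3 (by fun_prop) h4
    rw [h5, ih h2]
    congr 1
    simp [logDeriv_apply]

end LAND

open LAND in
theorem land_main : LANDStmt := by
  refine ⟨40, by norm_num, fun g c R M hg hc hR hM hb => ?_⟩
  have hR1 : 0 < 3 / 2 * R := by positivity
  have hR4 : 0 < 4 * R := by positivity
  obtain ⟨P, h, hP, hh, hK, hrt, hgw⟩ :=
    exists_poly_factor_compact hg ⟨c, hc⟩ (isCompact_closedBall c (3 / 2 * R))
  obtain ⟨φ, hφd, hφc, hφ⟩ := exists_log_on_ball hR1 hh.differentiableOn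
    (fun w hw => hK w (ball_subset_closedBall hw))
  have hhc : h c ≠ 0 := hK c (mem_closedBall_self hR1.le)
  have hhc0 : 0 < ‖h c‖ := norm_pos_iff.2 hhc
  have hPe : ∀ w, P.eval w = (P.roots.map fun a => w - a).prod := fun w =>
    (IsAlgClosed.splits P).eval_eq_prod_roots_of_monic hP w
  have hS : ∀ a ∈ P.roots, ‖a - c‖ ≤ 3 / 2 * R := by
    intro a ha
    have := hrt a ((mem_roots hP.ne_zero).1 ha)
    simpa [dist_eq_norm] using this
  have hgc : ‖g c‖ ≤ (3 / 2 * R) ^ P.roots.card * ‖h c‖ := by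
    rw [hgw c, norm_mul, hPe]
    gcongr
    exact norm_mprod_le _ _ fun a ha => by rw [norm_sub_rev]; exact hS a ha
  have hsph : ∀ w ∈ sphere c (4 * R),
      ‖h w‖ ≤ (3 / 5) ^ P.roots.card * (‖h c‖ * Real.exp M) := by
    intro w hw
    have hw' : ‖w - c‖ = 4 * R := by simpa [dist_eq_norm] using hw
    have a1 : (5 / 2 * R) ^ P.roots.card ≤ ‖P.eval w‖ := by
      rw [hPe]
      refine le_norm_mprod _ _ (by positivity) fun a ha => ?_
      have b1 := norm_sub_norm_le (w - c) (a - c)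
      have e : w - c - (a - c) = w - a := by ring
      rw [e, hw'] at b1
      linarith [hS a ha]
    have a2 := hb w hw
    rw [hgw w, norm_mul] at a2
    have a3 : (5 / 2 * R) ^ P.roots.card * ‖h w‖ ≤
        (5 / 2 * R) ^ P.roots.card * ((3 / 5) ^ P.roots.card * (‖h c‖ * Real.exp M)) := by
      calc (5 / 2 * R) ^ P.roots.card * ‖h w‖ ≤ ‖P.eval w‖ * ‖h w‖ := by gcongr
        _ ≤ ‖g c‖ * Real.exp M := a2
        _ ≤ ((3 / 2 * R) ^ P.roots.card * ‖h c‖) * Real.exp M := by gcongr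
        _ = _ := by
          rw [show (3 / 2 * R) = (5 / 2 * R) * (3 / 5) by ring, mul_pow]
          ring
    exact le_of_mul_le_mul_left a3 (by positivity)
  have hball : ∀ w ∈ closedBall c (4 * R),
      ‖h w‖ ≤ (3 / 5) ^ P.roots.card * (‖h c‖ * Real.exp M) := by
    intro w hw
    apply Complex.norm_le_of_forall_mem_frontier_norm_le (U := ball c (4 * R)) isBounded_ball
      hh.diffContOnCl
    · rw [frontier_ball c hR4.ne']; exact hsph
    · rwa [closure_ball c hR4.ne']
  have hcard : (P.roots.card : ℝ) ≤ 40 * M := by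
    have a1 := hball c (mem_closedBall_self hR4.le)
    have a2 : ‖h c‖ * 1 ≤ ‖h c‖ * ((3 / 5) ^ P.roots.card * Real.exp M) := by linarith
    have a3 := le_of_mul_le_mul_left a2 hhc0
    have a4 := Real.log_le_log one_pos a3
    rw [Real.log_one, Real.log_mul (by positivity) (by positivity), Real.log_pow,
      Real.log_exp] at a4
    have a5 : Real.log (3 / 5) ≤ 3 / 5 - 1 := Real.log_le_sub_one_of_pos (by norm_num)
    have a6 : (P.roots.card : ℝ) * Real.log (3 / 5) ≤ P.roots.card * (3 / 5 - 1) :=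
      mul_le_mul_of_nonneg_left a5 (Nat.cast_nonneg _)
    linarith
  have hre : ∀ w ∈ ball c (3 / 2 * R), (φ w).re ≤ M := by
    intro w hw
    have a1 := hball w (ball_subset_closedBall (ball_subset_ball (by linarith) hw))
    rw [hφ w hw, norm_mul, norm_exp] at a1
    have a2 : (3 / 5 : ℝ) ^ P.roots.card ≤ 1 := pow_le_one₀ (by norm_num) (by norm_num)
    have a3 : ‖h c‖ * Real.exp (φ w).re ≤ ‖h c‖ * Real.exp M :=
      a1.trans (mul_le_of_le_one_left (by positivity) a2)
    exact Real.exp_le_exp.1 (le_of_mul_le_mul_left a3 hhc0)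
  have hroot : ∀ a ∈ P.roots, g a = 0 := fun a ha => by
    rw [hgw a, ((mem_roots hP.ne_zero).1 ha).eq_zero, zero_mul]
  refine ⟨P.roots, hcard, fun a ha => ⟨hroot a ha, (hS a ha).trans (by linarith)⟩, ?_, ?_⟩
  · intro a ha h0
    rw [hgw a] at h0
    have := hK a (by rw [mem_closedBall, dist_eq_norm]; linarith)
    exact (mem_roots hP.ne_zero).2 ((mul_eq_zero.1 h0).resolve_right this)
  · intro w hw hg0
    have hwb : w ∈ ball c (3 / 2 * R) := by rw [mem_ball, dist_eq_norm]; linarith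
    have hφw : DifferentiableAt ℂ φ w := hφd.differentiableAt (isOpen_ball.mem_nhds hwb)
    have hne : ∀ a ∈ P.roots, w - a ≠ 0 := fun a ha e =>
      hg0 (by rw [sub_eq_zero.1 e]; exact hroot a ha)
    have hhw : h w ≠ 0 := hK w (ball_subset_closedBall hwb)
    have hPw : (P.roots.map fun a => w - a).prod ≠ 0 := by
      rw [← hPe]
      intro e
      exact hg0 (by rw [hgw w, e, zero_mul])
    have e1 : g = fun u => (P.roots.map fun a => u - a).prod * h u := by
      funext u; rw [hgw u, hPe]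
    have e2 : logDeriv h w = deriv φ w := by
      have ev : h =ᶠ[𝓝 w] fun u => h c * exp (φ u) :=
        Filter.eventually_of_mem (isOpen_ball.mem_nhds hwb) hφ
      have d1 : HasDerivAt (fun u => h c * exp (φ u)) (h c * (exp (φ w) * deriv φ w)) w :=
        hφw.hasDerivAt.cexp.const_mul _
      rw [logDeriv_apply, ev.deriv_eq, d1.deriv, hφ w hwb]
      have := exp_ne_zero (φ w)
      field_simp
    have e3 : deriv g w / g w - (P.roots.map fun a => (w - a)⁻¹).sum = deriv φ w := by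
      have h5 := logDeriv_mul (f := fun u => (P.roots.map fun a => u - a).prod) (g := h) w hPw hhw
        (differentiable_mprod _ (fun a u => u - a) (fun a => by fun_prop) w) (hh w)
      rw [← logDeriv_apply, e1, h5, logDeriv_mprod _ hne, e2]
      ring
    rw [e3]
    have hsub : closedBall w (R / 4) ⊆ closedBall c (5 / 4 * R) := by
      apply closedBall_subset_closedBall'
      rw [dist_eq_norm]
      linarith
    have hlt : 5 / 4 * R < 3 / 2 * R := by linarith
    refine (norm_deriv_le_of_closedBall (by positivity : 0 < R / 4) hφd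
      (hsub.trans (closedBall_subset_ball hlt)) fun z hz =>
        bc_ball' (by positivity) hlt hM hφd hφc hre (hsub hz)).trans (le_of_eq ?_)
    rw [show 3 / 2 * R - 5 / 4 * R = R / 4 by ring]
    field_simp
    ring

end Pool.Agent.MP_678834_nt.PW

end
end MrgPart9

-- ======== part 10: formerly Pool.Agent.MP_678834_nt.PW.CM
section MrgPart10

/-! Project PW, module CM: alternating signs of the derivatives. -/

set_option autoImplicit false

namespace Pool.Agent.MP_678834_nt.PW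

open Finset Filter Topology
open scoped ComplexOrder

theorem cm_main : CMStmt := by
  intro F d hd hs hF h1 h2
  have hab : LSeries.abscissaOfAbsConv (fun n => (d n : ℂ)) < (2 : ℝ) :=
    (LSeries.abscissaOfAbsConv_le_of_forall_lt_LSeriesSummable (x := 1) fun y hy =>
      hs y (by simpa using hy)).trans_lt (by exact_mod_cast (one_lt_two : (1 : ℝ) < 2))
  have hO : {s : ℂ | 1 < s.re} ∈ 𝓝 (2 : ℂ) :=
    (isOpen_lt continuous_const Complex.continuous_re).mem_nhds (by simp)
  have hFa : AnalyticAt ℂ F 2 :=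
    DifferentiableOn.analyticAt (fun s k => (hF s k).differentiableAt.differentiableWithinAt) hO
  have hDa : AnalyticAt ℂ (LSeries fun n => (d n : ℂ)) 2 :=
    LSeries_analyticOnNhd _ _ (by simpa using hab)
  have hde : deriv F =ᶠ[𝓝 2] -((LSeries fun n => (d n : ℂ)) * F) := by
    filter_upwards [hO] with s k using (hF s k).deriv
  have alt := LSeries.iteratedDeriv_alternating (a := fun n => (d n : ℂ))
    (fun n => Complex.zero_le_real.2 (hd n)) hab
  have key : ∀ m : ℕ, (0 : ℂ) ≤ (-1) ^ m * iteratedDeriv m F 2 := by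
    intro m
    induction m using Nat.strong_induction_on with
    | _ m ih =>
      obtain _ | m := m
      · simpa using Complex.nonneg_iff.2 ⟨h2, h1.symm⟩
      · rw [iteratedDeriv_succ', hde.iteratedDeriv_eq m, iteratedDeriv_neg,
          iteratedDeriv_mul hDa.contDiffAt hFa.contDiffAt, pow_succ, mul_neg_one, neg_mul_neg,
          mul_sum]
        refine sum_nonneg fun i hi => ?_
        have hi' : i ≤ m := Nat.le_of_lt_succ (mem_range.1 hi)
        refine (mul_nonneg (mul_nonneg (Nat.cast_nonneg (m.choose i)) (alt i))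
          (ih (m - i) (by omega))).trans_eq ?_
        rw [show ((-1 : ℂ)) ^ m = (-1) ^ i * (-1) ^ (m - i) by
          rw [← pow_add, Nat.add_sub_cancel' hi'], Complex.ofReal_ofNat]
        ring
  exact fun m => (Complex.nonneg_iff.1 (key m)).1

end Pool.Agent.MP_678834_nt.PW

end MrgPart10

-- ======== part 11: formerly Pool.Agent.MP_678834_nt.PW.EST
section MrgPart11

/-! Project PW, module EST: Estermann's lemma. -/

set_option autoImplicit false

noncomputable section

namespace Pool.Agent.MP_678834_nt.PW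

open Finset Filter Topology

namespace EST

/-- the entire part of `ζ G` -/
def HH (G : ℂ → ℂ) (s : ℂ) : ℂ := riemannZeta₀ s * G s + dslope G 1 s

theorem diff_HH {G : ℂ → ℂ} (hG : Differentiable ℂ G) : Differentiable ℂ (HH G) := by
  have h : Differentiable ℂ (dslope G 1) :=
    differentiableOn_univ.1 ((Complex.differentiableOn_dslope univ_mem).2 hG.differentiableOn)
  exact (differentiable_riemannZeta₀.mul hG).add h

theorem HH_eq (G : ℂ → ℂ) {s : ℂ} (hs : s ≠ 1) :
    HH G s = riemannZeta s * G s - G 1 * (s - 1)⁻¹ := by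
  rw [HH, dslope_of_ne _ hs, slope_def_field, riemannZeta_eq_inv_sub_add hs, div_eq_mul_inv]
  ring

theorem iter_HH {G : ℂ → ℂ} (hG : Differentiable ℂ G) (m : ℕ) :
    iteratedDeriv m (HH G) 2 = iteratedDeriv m (fun s => riemannZeta s * G s) 2
      - G 1 * ((-1) ^ m * m.factorial) := by
  have h2 : (2 : ℂ) ≠ 1 := by norm_num
  have hev : (fun s => riemannZeta s * G s) =ᶠ[𝓝 2] fun s => HH G s + G 1 * (s - 1)⁻¹ := by
    filter_upwards [isOpen_ne.mem_nhds h2] with s hs
    rw [HH_eq G hs]; ring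
  have c1 : ContDiffAt ℂ m (HH G) 2 := (diff_HH hG).contDiff.contDiffAt
  have c2 : ContDiffAt ℂ m (fun s : ℂ => (s - 1)⁻¹) 2 :=
    (contDiffAt_id.sub contDiffAt_const).inv (by norm_num)
  have c3 : iteratedDeriv m (fun s : ℂ => (s - 1)⁻¹) 2 = (-1) ^ m * m.factorial := by
    rw [iteratedDeriv_comp_sub_const (f := fun s : ℂ => s⁻¹), iteratedDeriv_eq_iterate]
    have := iter_deriv_inv (𝕜 := ℂ) m (2 - 1)
    simp only [show (2 : ℂ) - 1 = 1 by norm_num, one_zpow, mul_one] at this ⊢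
    exact this
  rw [hev.iteratedDeriv_eq, iteratedDeriv_fun_add c1 (contDiffAt_const.mul c2),
    iteratedDeriv_const_mul _ c2, c3]
  ring

theorem norm_HH {G : ℂ → ℂ} {U Z : ℝ} (hZ0 : 0 ≤ Z)
    (hZ : ∀ s ∈ Metric.closedBall (2 : ℂ) (3 / 2), ‖riemannZeta₀ s‖ ≤ Z)
    (hU : ∀ s ∈ Metric.closedBall (2 : ℂ) (3 / 2), ‖G s‖ ≤ U) :
    ∀ s ∈ Metric.sphere (2 : ℂ) (3 / 2), ‖HH G s‖ ≤ (Z + 4) * U := by
  intro s hs
  have hs' := Metric.sphere_subset_closedBall hs
  rw [mem_sphere_iff_norm] at hs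
  have h1 : 1 / 2 ≤ ‖s - 1‖ := by
    have := norm_sub_le (s - 1) 1
    rw [show s - 1 - 1 = s - 2 by ring, hs, norm_one] at this
    linarith
  have hne : s ≠ 1 := by
    intro h; rw [h, sub_self, norm_zero] at h1; linarith
  have hG1 : ‖G 1‖ ≤ U := hU 1 (by
    rw [mem_closedBall_iff_norm, show (1 : ℂ) - 2 = -1 by ring, norm_neg, norm_one]; norm_num)
  have hGs := hU s hs'
  have h2 : ‖dslope G 1 s‖ ≤ 4 * U := by
    rw [dslope_of_ne _ hne, slope_def_field, norm_div, div_le_iff₀ (by linarith)]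
    have := norm_sub_le (G s) (G 1)
    nlinarith [norm_nonneg (G s)]
  have h3 : ‖riemannZeta₀ s * G s‖ ≤ Z * U := by
    rw [norm_mul]
    exact mul_le_mul (hZ s hs') hGs (norm_nonneg _) hZ0
  refine (norm_add_le _ _).trans ?_
  linarith

theorem core {G : ℂ → ℂ} {U' β : ℝ} (hG : Differentiable ℂ G) (hβ0 : 7 / 8 ≤ β) (hβ1 : β < 1)
    (hH : ∀ s ∈ Metric.sphere (2 : ℂ) (3 / 2), ‖HH G s‖ ≤ U')
    (hpos : ∀ m : ℕ, 0 ≤ ((-1) ^ m * iteratedDeriv m (fun s => riemannZeta s * G s) 2).re)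
    (h2 : 1 / 100 ≤ (riemannZeta 2 * G 2).re) (hneg : (riemannZeta β * G β).re ≤ 0) (M : ℕ) :
    1 / 100 - 4 * U' * (3 / 4) ^ (M + 1) ≤ ‖G 1‖ * (2 - β) ^ (M + 1) / (1 - β) := by
  have hU0 : 0 ≤ U' := (norm_nonneg _).trans (hH (2 + (3 / 2 : ℝ)) (by
    rw [mem_sphere_iff_norm, add_sub_cancel_left, Complex.norm_real]; norm_num))
  set x : ℝ := 2 - β with hx
  have hx0 : 0 < x := by linarith
  have hb : 0 < 1 - β := by linarith
  set a : ℕ → ℂ := fun n => (n.factorial : ℂ)⁻¹ • ((β : ℂ) - 2) ^ n • iteratedDeriv n (HH G) 2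
    with ha
  have hsum : HasSum a (HH G β) := Complex.hasSum_taylorSeries_of_entire (diff_HH hG) 2 β
  have hβx : (β : ℂ) - 2 = -(x : ℂ) := by rw [hx]; push_cast; ring
  have hnorm : ∀ n, ‖a n‖ ≤ U' * (3 / 4) ^ n := by
    intro n
    have h1 := Complex.norm_iteratedDeriv_le_of_forall_mem_sphere_norm_le n
      (show (0 : ℝ) < 3 / 2 by norm_num) (diff_HH hG).diffContOnCl hH
    have hf : (0 : ℝ) < n.factorial := by positivity
    simp only [ha, smul_eq_mul, norm_mul, norm_inv, Complex.norm_natCast, norm_pow, hβx, norm_neg,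
      Complex.norm_real, Real.norm_of_nonneg hx0.le]
    calc (n.factorial : ℝ)⁻¹ * (x ^ n * ‖iteratedDeriv n (HH G) 2‖)
        ≤ (n.factorial : ℝ)⁻¹ * ((9 / 8) ^ n * (n.factorial * U' / (3 / 2) ^ n)) := by
          gcongr; linarith
      _ = U' * ((9 / 8) / (3 / 2)) ^ n := by rw [div_pow (9 / 8 : ℝ)]; field_simp
      _ = U' * (3 / 4) ^ n := by norm_num
  have hre : ∀ n, (if n = 0 then 1 / 100 else 0) - ‖G 1‖ * x ^ n ≤ (a n).re := by
    intro n
    have hf : (n.factorial : ℂ) ≠ 0 := by exact_mod_cast n.factorial_ne_zero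
    have e : a n = ((x ^ n / n.factorial : ℝ) : ℂ) *
        ((-1) ^ n * iteratedDeriv n (fun s => riemannZeta s * G s) 2) - G 1 * ((x ^ n : ℝ) : ℂ) := by
      simp only [ha, smul_eq_mul, hβx, iter_HH hG n]
      have hm : ((-1 : ℂ) ^ n) * (-1) ^ n = 1 := by rw [← mul_pow]; simp
      rw [neg_pow (x : ℂ)]
      push_cast
      field_simp
      linear_combination (-(G 1) * (n.factorial : ℂ) * (x : ℂ) ^ n) * hm
    rw [e, Complex.sub_re, Complex.re_ofReal_mul]
    have h3 : (G 1 * ((x ^ n : ℝ) : ℂ)).re ≤ ‖G 1‖ * x ^ n := by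
      refine (Complex.re_le_norm _).trans ?_
      rw [norm_mul, Complex.norm_real, Real.norm_of_nonneg (by positivity)]
    have h4 : (if n = 0 then 1 / 100 else 0) ≤ x ^ n / n.factorial *
        ((-1) ^ n * iteratedDeriv n (fun s => riemannZeta s * G s) 2).re := by
      split_ifs with h
      · subst h; simpa using h2
      · exact mul_nonneg (by positivity) (hpos n)
    linarith
  have htail : ‖HH G β - ∑ n ∈ range (M + 1), a n‖ ≤ 4 * U' * (3 / 4) ^ (M + 1) := by
    have h1 := (hasSum_nat_add_iff' (M + 1)).2 hsum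
    have h3 := (hasSum_geometric_of_lt_one (r := 3 / 4) (by norm_num) (by norm_num)).mul_left
      (U' * (3 / 4) ^ (M + 1))
    refine (h1.norm_le_of_bounded h3 fun n => (hnorm _).trans (le_of_eq ?_)).trans (le_of_eq ?_)
    · ring
    · ring
  have hmain : 1 / 100 - ‖G 1‖ * ((x ^ (M + 1) - 1) / (1 - β)) ≤
      (∑ n ∈ range (M + 1), a n).re := by
    rw [Complex.re_sum]
    refine le_trans (le_of_eq ?_) (sum_le_sum fun n _ => hre n)
    rw [sum_sub_distrib, ← mul_sum, geom_sum_eq (by linarith), sum_ite_eq']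
    simp only [mem_range, Nat.zero_lt_succ, if_true]
    congr 3
    rw [hx]; ring
  have hup : (HH G β).re ≤ ‖G 1‖ / (1 - β) := by
    have hne : (β : ℂ) ≠ 1 := by exact_mod_cast hβ1.ne
    rw [HH_eq G hne, Complex.sub_re]
    have h1 := Complex.abs_re_le_norm (G 1 * ((β : ℂ) - 1)⁻¹)
    have h3 : ‖(β : ℂ) - 1‖ = 1 - β := by
      rw [← Complex.ofReal_one, ← Complex.ofReal_sub, Complex.norm_real, Real.norm_eq_abs,
        abs_of_neg (by linarith)]
      ring
    rw [norm_mul, norm_inv, h3, ← div_eq_mul_inv ‖G 1‖] at h1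
    linarith [neg_abs_le (G 1 * ((β : ℂ) - 1)⁻¹).re]
  have h5 := Complex.abs_re_le_norm (HH G β - ∑ n ∈ range (M + 1), a n)
  rw [Complex.sub_re] at h5
  have h6 := neg_abs_le ((HH G β).re - (∑ n ∈ range (M + 1), a n).re)
  have e : ‖G 1‖ * x ^ (M + 1) / (1 - β) =
      ‖G 1‖ / (1 - β) + ‖G 1‖ * ((x ^ (M + 1) - 1) / (1 - β)) := by field_simp; ring
  rw [e]
  linarith

end EST

theorem est_main : ESTStmt := by
  obtain ⟨Z₀, hZ₀⟩ := (isCompact_closedBall (2 : ℂ) (3 / 2)).exists_bound_of_continuousOn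
    differentiable_riemannZeta₀.continuous.continuousOn
  set Z := max Z₀ 0 with hZ
  have hZ0 : 0 ≤ Z := le_max_right _ _
  set W : ℝ := 800 * (Z + 4) with hW
  have hW1 : 1 ≤ W := by linarith
  have hlW := Real.log_nonneg hW1
  set K : ℝ := Real.exp ((4 * Real.log W + 2) / 8) with hK
  have hK0 : 0 < K := Real.exp_pos _
  refine ⟨1 / (200 * K), by positivity, fun G U β hG hU hβ0 hβ1 hb hpos h2 hneg => ?_⟩
  have hU0 : 0 < U := by linarith
  have hlU := Real.log_nonneg hU
  have hb0 : 0 < 1 - β := by linarith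
  set M : ℕ := ⌈4 * Real.log (W * U)⌉₊ with hM
  have hlog : Real.log (W * U) = Real.log W + Real.log U := Real.log_mul (by linarith) hU0.ne'
  have hM1 : 4 * Real.log (W * U) ≤ M := Nat.le_ceil _
  have hM2 : (M : ℝ) < 4 * Real.log (W * U) + 1 := Nat.ceil_lt_add_one (by rw [hlog]; linarith)
  have key := EST.core hG hβ0 hβ1
    (EST.norm_HH hZ0 (fun s hs => (hZ₀ s hs).trans (le_max_left _ _)) hb) hpos h2 hneg M
  have t1 : (3 / 4 : ℝ) ^ (M + 1) ≤ (W * U)⁻¹ := by
    have h1 : (3 / 4 : ℝ) ≤ Real.exp (-(1 / 4)) := by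
      have := Real.add_one_le_exp (-(1 / 4) : ℝ)
      linarith
    refine (pow_le_pow_left₀ (by norm_num) h1 _).trans ?_
    rw [← Real.exp_nat_mul, ← Real.exp_log (show 0 < W * U by positivity), ← Real.exp_neg,
      Real.exp_le_exp]
    push_cast
    linarith
  have t2 : 4 * ((Z + 4) * U) * (3 / 4 : ℝ) ^ (M + 1) ≤ 1 / 200 := by
    calc _ ≤ 4 * ((Z + 4) * U) * (W * U)⁻¹ := by gcongr
      _ = 1 / 200 := by rw [hW]; field_simp; norm_num
  have t3 : (2 - β) ^ (M + 1) ≤ K * U ^ (4 * (1 - β)) := by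
    have h1 : 2 - β ≤ Real.exp (1 - β) := by
      have := Real.add_one_le_exp (1 - β)
      linarith
    refine (pow_le_pow_left₀ (by linarith) h1 _).trans ?_
    rw [← Real.exp_nat_mul, Real.rpow_def_of_pos hU0, hK, ← Real.exp_add, Real.exp_le_exp]
    push_cast
    rw [hlog] at hM2
    have h3 : ((M : ℝ) + 1) * (1 - β) ≤ (4 * Real.log W + 2 + 4 * Real.log U) * (1 - β) :=
      mul_le_mul_of_nonneg_right (by linarith) hb0.le
    have h4 : (4 * Real.log W + 2) * (1 - β) ≤ (4 * Real.log W + 2) * (1 / 8) := by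
      gcongr; linarith
    linarith
  have hP : 0 < U ^ (4 * (1 - β)) := by positivity
  have t4 : 1 / 200 ≤ ‖G 1‖ * (K * U ^ (4 * (1 - β))) / (1 - β) := by
    refine le_trans (by linarith) (key.trans ?_)
    gcongr
  rw [le_div_iff₀ hb0] at t4
  rw [Real.rpow_neg hU0.le, ← div_eq_mul_inv, div_le_iff₀ hP, div_mul_eq_mul_div,
    div_le_iff₀ (by positivity)]
  linarith

end Pool.Agent.MP_678834_nt.PW

end
end MrgPart11

-- ======== part 12: formerly Pool.Agent.MP_678834_nt.PW.LOC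
section MrgPart12

/-! Project PW, module LOC: the local expansion of the logarithmic derivative. -/

set_option autoImplicit false

namespace Pool.Agent.MP_678834_nt.PW

open Filter

theorem loc_main : EEStmt → LBStmt → LANDStmt → LOCStmt := by
  intro ee lb land B
  obtain ⟨C, hC, land⟩ := land
  refine ⟨4 * C * (B + 6), by positivity, ?_⟩
  have hx2 : ∀ᶠ L : ℝ in atTop, 2 ≤ L ^ (9 / 10 : ℝ) :=
    (tendsto_rpow_atTop (by norm_num)).eventually_ge_atTop 2
  filter_upwards [lb B, hx2, eventually_ge_atTop (320 : ℝ)] with L hlb hx2 hL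
  intro q _ χ t hq ht
  obtain ⟨e1, e2, e3, e4, -⟩ := ee q χ
  have hL0 : 0 < L := by linarith
  have hlog : 0 < Real.log L := Real.log_pos (by linarith)
  have hxL : L ^ (9 / 10 : ℝ) ≤ L := by
    conv_rhs => rw [← Real.rpow_one L]
    exact Real.rpow_le_rpow_of_exponent_le (by linarith) (by norm_num)
  have hneg : L ^ (-(9 / 10) : ℝ) = (L ^ (9 / 10 : ℝ))⁻¹ := Real.rpow_neg hL0.le _
  rw [hneg] at hlb ⊢
  generalize L ^ (9 / 10 : ℝ) = x at *
  have hx0 : 0 < x := by linarith
  obtain ⟨R, hR⟩ : ∃ R : ℝ, x⁻¹ = 4 * R := ⟨x⁻¹ / 4, by ring⟩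
  have hRx : 4 * R * x = 1 := by rw [← hR]; field_simp
  have hR0 : 0 < R := by have := inv_pos.2 hx0; linarith
  have hR1 : R ≤ 1 / 8 := by nlinarith
  rw [hR] at hlb ⊢
  set c : ℂ := 1 + (R / 2 : ℝ) + t * Complex.I with hc
  have cre : c.re = 1 + R / 2 := by simp [hc]
  have cim : c.im = t := by simp [hc]
  have hc1 : c ≠ 1 := fun h => by rw [h] at cre; simp at cre; linarith
  have hLc : R / 4 ≤ ‖χ.LFunction c‖ := by
    refine le_trans ?_ (e4 c (by linarith))
    rw [cre, le_div_iff₀ (by linarith)]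
    nlinarith
  have hball : ∀ a : ℂ, ‖a - (1 + t * Complex.I)‖ ≤ 4 * R / 8 → ‖a - c‖ ≤ R := fun a ha => by
    have : a - c = (a - (1 + t * Complex.I)) - ((R / 2 : ℝ) : ℂ) := by rw [hc]; ring
    rw [this]
    refine (norm_sub_le _ _).trans ?_
    rw [Complex.norm_real, Real.norm_of_nonneg (by linarith)]
    linarith
  have him : ∀ a : ℂ, ‖a - c‖ ≤ 4 * R → |a.im - t| ≤ 1 := fun a ha => by
    have := Complex.abs_im_le_norm (a - c)
    rw [Complex.sub_im, cim] at this
    linarith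
  obtain ⟨S, s1, s2, s3, s4⟩ := land (EE χ) c R ((B + 6) * Real.log L) e1 (e2 c (by linarith)) hR0
    (by positivity) fun w hw => by
      have hw' : ‖w - c‖ = 4 * R := by simpa [dist_eq_norm] using hw
      have h1 := abs_le.1 (Complex.abs_re_le_norm (w - c))
      rw [Complex.sub_re, cre, hw'] at h1
      have h2 := him w hw'.le
      have h3 : |w.im| ≤ |t| + 1 := by
        have := abs_add_le (w.im - t) t
        rw [sub_add_cancel] at this
        linarith
      have h4 : 1 ≤ Real.exp L := Real.one_le_exp hL0.le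
      have h5 := (hlb q χ w hq (by linarith [h1.1]) (by linarith [h1.2]) (by linarith)).1
      have h6 : tv χ (1 + |w.im|) 1 * R ≤ 5 * ‖(tv χ (c - 1) 1 : ℂ)‖ := by
        unfold tv
        split_ifs
        · have a1 := Complex.re_le_norm (c - 1)
          have a2 := Complex.abs_im_le_norm (c - 1)
          simp only [Complex.sub_re, cre, Complex.one_re, Complex.sub_im, cim, Complex.one_im,
            sub_zero] at a1 a2
          nlinarith [abs_nonneg t]
        · simp; linarith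
      have h7 : Real.exp ((B + 6) * Real.log L) = L ^ (B + 3) * L ^ 3 := by
        rw [← pow_add, show ((B : ℝ) + 6) = ((B + 3 + 3 : ℕ) : ℝ) by push_cast; ring,
          Real.exp_nat_mul, Real.exp_log hL0]
      rw [h7, e3 c hc1, norm_mul]
      refine h5.trans ?_
      have h8 : tv χ (1 + |w.im|) 1 ≤ ‖(tv χ (c - 1) 1 : ℂ)‖ * ‖χ.LFunction c‖ * L ^ 3 := by
        generalize tv χ (1 + |w.im|) 1 = u at h6 ⊢
        have hτ := norm_nonneg (tv χ (c - 1) 1 : ℂ)
        generalize ‖(tv χ (c - 1) 1 : ℂ)‖ = τ at h6 hτ ⊢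
        have b1 : 1 ≤ 4 * R * L := by nlinarith
        have b2 : 20 ≤ R * R * L ^ 3 := by
          have : 1 ≤ (4 * R * L) ^ 2 := one_le_pow₀ b1
          nlinarith
        refine le_of_mul_le_mul_right (h6.trans ?_) hR0
        have b3 : τ * (R / 4) * (L ^ 3 * R) ≤ τ * ‖χ.LFunction c‖ * (L ^ 3 * R) := by gcongr
        nlinarith [mul_le_mul_of_nonneg_left b2 hτ]
      nlinarith [mul_le_mul_of_nonneg_left h8 (by positivity : 0 ≤ L ^ (B + 3))]
  refine ⟨S, s1.trans ?_, fun a ha => ⟨(s2 a ha).1, him a (s2 a ha).2⟩,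
    fun a ha => s3 a (hball a ha), fun w hw h0 => (s4 w (hball w hw) h0).trans (le_of_eq ?_)⟩
  · have : 0 ≤ C * ((B + 6) * Real.log L) := by positivity
    linarith
  · rw [div_eq_iff hR0.ne']
    linear_combination (-(C * ((B + 6) * Real.log L))) * hRx

end Pool.Agent.MP_678834_nt.PW

end MrgPart12

-- ======== part 13: formerly Pool.Agent.MP_678834_nt.PW.ZLD
section MrgPart13

/-! Project PW, module ZLD: the logarithmic derivative in the zero-free region. -/

set_option autoImplicit false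

namespace Pool.Agent.MP_678834_nt.PW

open Filter

theorem zld_main : LOCStmt → ZFStmt → ZFRStmt := by
  intro loc zf B
  obtain ⟨C, hC, loc⟩ := loc B
  have h8 : ∀ᶠ L : ℝ in atTop, 8 ≤ L ^ (1 / 20 : ℝ) :=
    (tendsto_rpow_atTop (by norm_num)).eventually_ge_atTop 8
  have hlog := (isLittleO_log_rpow_atTop (show (0 : ℝ) < 3 / 40 by norm_num)).bound
    (show 0 < 1 / (2 * C) by positivity)
  filter_upwards [loc, zf B, h8, hlog, eventually_ge_atTop (1 : ℝ)] with L loc zf h8 hlog hL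
  intro q _ χ s hq hre him
  have hL0 : 0 < L := by linarith
  have hl0 : 0 ≤ Real.log L := Real.log_nonneg hL
  have he := Real.exp_pos L
  have hy : 0 < L ^ (-(37 / 40) : ℝ) := Real.rpow_pos_of_pos hL0 _
  have h1 : L ^ (-(19 / 20) : ℝ) ≤ L ^ (-(37 / 40) : ℝ) :=
    Real.rpow_le_rpow_of_exponent_le hL (by norm_num)
  have h2 : L ^ (-(19 / 20) : ℝ) ≤ L ^ (-(9 / 10) : ℝ) / 8 := by
    have : L ^ (-(9 / 10) : ℝ) = L ^ (-(19 / 20) : ℝ) * L ^ (1 / 20 : ℝ) := by
      rw [← Real.rpow_add hL0]; norm_num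
    rw [this]
    nlinarith [Real.rpow_pos_of_pos hL0 (-(19 / 20) : ℝ)]
  have hre' := abs_le.1 hre
  have h0 : EE χ s ≠ 0 := zf q χ s hq (by linarith [hre'.1]) (by linarith)
  refine ⟨h0, ?_⟩
  obtain ⟨S, s1, s2, -, s4⟩ := loc q χ s.im hq (by linarith)
  have h3 := s4 s (by
    have : s - (1 + s.im * Complex.I) = ((s.re - 1 : ℝ) : ℂ) := by
      apply Complex.ext <;> simp
    rw [this, Complex.norm_real, Real.norm_eq_abs]
    linarith) h0
  have h4 : ‖(S.map fun a => (s - a)⁻¹).sum‖ ≤ S.card * L ^ (37 / 40 : ℝ) := by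
    refine (norm_multiset_sum_le _).trans ?_
    have := Multiset.sum_le_card_nsmul ((S.map fun a => (s - a)⁻¹).map fun x => ‖x‖)
      (L ^ (37 / 40 : ℝ)) (by
        intro x hx
        simp only [Multiset.map_map, Multiset.mem_map, Function.comp] at hx
        obtain ⟨a, ha, rfl⟩ := hx
        have a1 : a.re < 1 - 2 * L ^ (-(37 / 40) : ℝ) := by
          by_contra hn
          refine zf q χ a hq (not_lt.1 hn) ?_ (s2 a ha).1
          have := abs_add_le (a.im - s.im) s.im
          rw [sub_add_cancel] at this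
          linarith [(s2 a ha).2]
        have a2 := Complex.re_le_norm (s - a)
        rw [Complex.sub_re] at a2
        rw [norm_inv]
        refine (inv_anti₀ hy (by linarith [hre'.1])).trans (le_of_eq ?_)
        rw [Real.rpow_neg hL0.le, inv_inv])
    simpa using this
  have h5 : L ^ (9 / 10 : ℝ) ≤ L ^ (37 / 40 : ℝ) :=
    Real.rpow_le_rpow_of_exponent_le hL (by norm_num)
  have h6 : L ^ (3 / 40 : ℝ) * L ^ (37 / 40 : ℝ) = L := by
    rw [← Real.rpow_add hL0]; norm_num
  have h7 : 2 * (C * Real.log L) ≤ L ^ (3 / 40 : ℝ) := by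
    rw [Real.norm_of_nonneg hl0, Real.norm_of_nonneg (by positivity), one_div,
      inv_mul_eq_div, le_div_iff₀ (by positivity)] at hlog
    linarith
  have hz : 0 ≤ L ^ (37 / 40 : ℝ) := by positivity
  have h9 := norm_le_insert' (deriv (EE χ) s / EE χ s) (S.map fun a => (s - a)⁻¹).sum
  have k1 := mul_le_mul_of_nonneg_right s1 hz
  have k2 := mul_le_mul_of_nonneg_left h5 (by positivity : 0 ≤ C * Real.log L)
  have k3 := mul_le_mul_of_nonneg_right h7 hz
  linarith

end Pool.Agent.MP_678834_nt.PW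

end MrgPart13

-- ======== part 14: formerly Pool.Agent.MP_678834_nt.PW.FIN
section MrgPart14

/-! Project PW, module FIN: assembly. -/

set_option autoImplicit false

namespace Pool.Agent.MP_678834_nt.PW

open Finset Filter Topology
open scoped ArithmeticFunction.vonMangoldt
open Pool.Agent.MP_db1c88_nt.z94 (ei DP)

namespace FIN

lemma shift (a : ℕ → ℂ) (t : ℝ) (s : ℂ) :
    LSeries (fun n => a n * ei (t * Real.log n)) s = LSeries a (s - t * Complex.I) := by
  refine tsum_congr fun n => ?_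
  rcases eq_or_ne n 0 with rfl | hn
  · simp
  · have h : (n : ℂ) ≠ 0 := Nat.cast_ne_zero.2 hn
    have e : ei (t * Real.log n) = (n : ℂ) ^ (t * Complex.I) := by
      rw [ei, Complex.cpow_def_of_ne_zero h, ← Complex.natCast_log]
      congr 1
      push_cast
      ring
    rw [LSeries.term_of_ne_zero hn, LSeries.term_of_ne_zero hn, Complex.cpow_sub _ _ h, e,
      div_div_eq_mul_div]

lemma series {q : ℕ} (χ : DirichletCharacter ℂ q) {w : ℂ} (hw : 1 < w.re) :
    LSeries (fun n => (Λ n : ℂ) * χ n - tv χ 1 0) w =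
      LSeries (fun n => (Λ n : ℂ) * χ n) w - tv χ (w - 1)⁻¹ 0 - tv χ (riemannZeta₀ w) 0 := by
  unfold tv
  split_ifs with h
  · have h1 : LSeriesSummable (fun n => (Λ n : ℂ) * χ n) w := by
      have := χ.LSeriesSummable_twist_vonMangoldt hw
      rwa [mul_comm] at this
    rw [sub_sub, ← riemannZeta_eq_inv_sub_add fun k => by simp [k] at hw,
      ← LSeries_one_eq_riemannZeta hw]
    exact LSeries_sub h1 (LSeriesSummable_one_iff.2 hw)
  · simp

end FIN

theorem fin_main : EEStmt → LBStmt → ZFRStmt → PERStmt → TOPStmt := by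
  intro hE hL hZ hP A B
  obtain ⟨T, hP⟩ := hP A 4
  have e1 := (Real.isLittleO_pow_log_id_atTop (n := T)).bound one_pos
  obtain ⟨y₀, h⟩ := eventually_atTop.1 (hP.and ((Real.tendsto_log_atTop.eventually
    ((hL B).and ((hZ B).and (eventually_ge_atTop 2)))).and (e1.and (eventually_gt_atTop 0))))
  refine ⟨1, y₀, fun y t q χ hy hq hB ht => ?_⟩
  obtain ⟨h1, ⟨h2, h3, h4⟩, h5, h6⟩ := h y hy
  have : NeZero q := ⟨by omega⟩
  obtain ⟨d1, -, -, -, d2⟩ := hE q χ
  rw [one_mul]
  refine h1 (fun n => ((Λ n : ℂ) * χ n - tv χ 1 0) * ei (t * Real.log n))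
    (fun s => -(deriv (EE χ) (s - t * Complex.I) / EE χ (s - t * Complex.I)) -
      tv χ (riemannZeta₀ (s - t * Complex.I)) 0) (fun n _ => ?_) (fun s hs => ?_) fun s k1 k2 => ?_
  · have a1 : ‖(Λ n : ℂ) * χ n‖ ≤ Real.log n := by
      rw [norm_mul, Complex.norm_real, Real.norm_of_nonneg ArithmeticFunction.vonMangoldt_nonneg]
      exact (mul_le_of_le_one_right ArithmeticFunction.vonMangoldt_nonneg (χ.norm_le_one _)).trans
        ArithmeticFunction.vonMangoldt_le_log
    have a2 : ‖(tv χ 1 0 : ℂ)‖ ≤ 1 := by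
      unfold tv
      split_ifs <;> simp
    rw [norm_mul, ei, Complex.norm_exp_ofReal_mul_I, mul_one]
    linarith [norm_sub_le ((Λ n : ℂ) * χ n) (tv χ 1 0)]
  · have hw : 1 < (s - t * Complex.I).re := by simpa using hs
    rw [FIN.shift, FIN.series χ hw, d2 _ hw]
  · have hre : (s - t * Complex.I).re = s.re := by simp
    have him : |(s - t * Complex.I).im| ≤ 2 * Real.exp (Real.log y) := by
      rw [Real.norm_of_nonneg (by positivity), one_mul, id, Real.norm_of_nonneg h6.le] at h5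
      rw [Real.exp_log h6, show (s - t * Complex.I).im = s.im - t by simp]
      linarith [abs_sub s.im t]
    obtain ⟨z1, z2⟩ := h3 q χ _ hB (by rwa [hre]) him
    have b1 : Real.log y ^ (-(19 / 20) : ℝ) ≤ Real.log y ^ (-(9 / 10) : ℝ) :=
      Real.rpow_le_rpow_of_exponent_le (by linarith) (by norm_num)
    have b2 : Real.log y ^ (-(9 / 10) : ℝ) ≤ 1 :=
      Real.rpow_le_one_of_one_le_of_nonpos (by linarith) (by norm_num)
    obtain ⟨b3, b4⟩ := abs_le.1 k1
    have z3 := (h2 q χ (s - t * Complex.I) hB (by rw [hre]; linarith) (by rw [hre]; linarith)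
      (by linarith [Real.exp_pos (Real.log y)])).2
    have hs : DifferentiableAt ℂ (fun s : ℂ => s - t * Complex.I) s := by fun_prop
    refine ⟨DifferentiableAt.fun_sub (DifferentiableAt.fun_neg (DifferentiableAt.fun_div
      ((d1.analyticAt _).deriv.differentiableAt.comp s hs) ((d1 _).comp s hs) z1)) ?_, ?_⟩
    · unfold tv
      split_ifs
      · exact (differentiable_riemannZeta₀ _).comp s hs
      · exact differentiableAt_const _
    · have a2 : ‖tv χ (riemannZeta₀ (s - t * Complex.I)) 0‖ ≤ Real.log y ^ 3 := by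
        unfold tv
        split_ifs
        · exact z3
        · rw [norm_zero]; positivity
      refine (norm_sub_le _ _).trans ?_
      rw [norm_neg]
      have a3 : Real.log y ≤ Real.log y ^ 3 := le_self_pow₀ (by linarith) (by norm_num)
      have a4 : Real.log y ^ 3 * 2 ≤ Real.log y ^ 3 * Real.log y := by gcongr
      rw [pow_succ _ 3]
      linarith

end Pool.Agent.MP_678834_nt.PW

end MrgPart14

-- ======== part 15: formerly Pool.Agent.MP_678834_nt.PW.Top
section MrgPart15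

/-! Project PW: assembly. -/

set_option autoImplicit false

namespace Pool.Agent.MP_678834_nt.PW

/-- Vinogradov's mean value theorem -/
theorem vmvt : VMVTStmt :=
  iter_main (rec_main en_main hold_main (good_main en_main hold_main lin_main))

/-- character sums twisted by `n ^ (i t)` -/
theorem charSum : CHARStmt := char_main expa_main (expb_main (kor_main vmvt (dh_main en_main)))

theorem lBound : LBStmt := lb_main (part_main charSum)

/-- Siegel's theorem -/
theorem siegel : SIEGStmt := sieg_main cm_main est_main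

theorem locData : LOCStmt := loc_main ee_main lBound land_main

/-- zero-free region of Vinogradov-Korobov type -/
theorem zeroFree : ZFStmt := zf_main ee_main (near_main siegel) locData

theorem logDerivBound : ZFRStmt := zld_main locData zeroFree

theorem top : TOPStmt := fin_main ee_main lBound logDerivBound per_main

theorem pw : HL9.PWStmt := top

end Pool.Agent.MP_678834_nt.PW

end MrgPart15

-- marker of a merged file
example : 731051 + 74592 = 731051 + 74592 := rfl
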